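import Pool.Agent.XV.T3.Defs

/-!
Project XV, T3: the change of the characters under the quaternions (helper49).
-/

set_option autoImplicit false

namespace Pool.Agent.XV

open Finset QA
open Pool.Agent.Z700 (V3 pr un hh)
open Pool.Agent.NH1 (lz rd)

namespace CHp

section ring
variable {q : ℕ} {R : Type*} [CommRing R]

lemma tr_pv (v : Fin 3 → R) : tr (pv q v) = 0 := by
  by_cases h : q = 5
  · simp [tr, pv, tt, h]; ring
  · simp [tr, pv, tt, h]

lemma nr_pv (v : Fin 3 → R) : nr (pv q v) = bl q v v := by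
  by_cases h : q = 5
  · simp [nr, pv, tt, mm, bl, h]; ring
  · simp [nr, pv, tt, mm, bl, h]; ring

lemma tr_pv_mul (v w : Fin 3 → R) : tr (pv q v * pv q w) = -(2 * bl q v w) := by
  by_cases h : q = 5
  · simp [tr, pv, tt, mm, bl, h]; ring
  · simp [tr, pv, tt, mm, bl, h]; ring

lemma cj_pv (v : Fin 3 → R) : cj (pv q v) = -pv q v := by
  by_cases h : q = 5
  · ext <;> simp [pv, tt, h] <;> ring
  · ext <;> simp [pv, tt, h] <;> ring

lemma sc_pv (r : R) (v : Fin 3 → R) : sc r * pv q v = pv q (r • v) := by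
  by_cases h : q = 5
  · ext <;> simp [pv, h] <;> ring
  · ext <;> simp [pv, h] <;> ring

lemma tr_sc_mul (r : R) (x : QA q R) : tr (sc r * x) = r * tr x := by
  simp [tr]; ring

lemma tr_sub (x y : QA q R) : tr (x - y) = tr x - tr y := by
  simp [tr]; ring

lemma tr_neg (x : QA q R) : tr (-x) = -tr x := by
  simp [tr]; ring

lemma sc_one : (sc 1 : QA q R) = 1 := by ext <;> simp

lemma sc_zero : (sc 0 : QA q R) = 0 := by ext <;> simp

lemma cj_eq (x : QA q R) : cj x = sc (tr x) - x := by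
  rw [← add_cj]; abel

end ring

section red
variable {q : ℕ} (p : ℕ)

/-- the reduction modulo `p` -/
def rdq (x : QA q ℤ) : QA q (ZMod p) := ⟨x.a, x.b, x.c, x.d⟩

lemma rdq_mul (x y : QA q ℤ) : rdq p (x * y) = rdq p x * rdq p y := by
  ext <;> simp [rdq]

lemma nr_rdq (x : QA q ℤ) : nr (rdq p x) = ((nr x : ℤ) : ZMod p) := by
  simp [rdq, nr]

lemma rdq_pv (v : V3) : rdq p (pv q v) = pv q (rd p v) := by
  by_cases h : q = 5
  · ext <;> simp [pv, rdq, rd, h]
  · ext <;> simp [pv, rdq, rd, h]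

end red

section field
variable {q : ℕ} {K : Type*} [Field K]

lemma exists_tr (hq : q = 3 ∨ q = 5) (h2 : (2 : K) ≠ 0) (h3 : (3 : K) ≠ 0) (h5 : (5 : K) ≠ 0)
    {V : QA q K} (hV : V ≠ 0) : ∃ U : QA q K, tr (V * U) = 1 := by
  by_contra hne
  have h0 : ∀ U : QA q K, tr (V * U) = 0 := by
    intro U
    by_contra hU
    apply hne
    refine ⟨sc (tr (V * U))⁻¹ * U, ?_⟩
    have : V * (sc (tr (V * U))⁻¹ * U) = sc (tr (V * U))⁻¹ * (V * U) := by
      rw [← mul_assoc, ← sc_comm, mul_assoc]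
    rw [this, tr_sc_mul, inv_mul_cancel₀ hU]
  apply hV
  have e1 := h0 ⟨1, 0, 0, 0⟩
  have e2 := h0 ⟨0, 1, 0, 0⟩
  have e3 := h0 ⟨0, 0, 1, 0⟩
  have e4 := h0 ⟨0, 0, 0, 1⟩
  rcases hq with rfl | rfl
  · simp [tr, tt, mm] at e1 e2 e3 e4
    have a0 : V.a = 0 := by
      have : 3 * V.a = 0 := by linear_combination e1 + e2
      exact (mul_eq_zero.1 this).resolve_left h3
    have b0 : V.b = 0 := by linear_combination e1 - 2 * a0
    have c0 : V.c = 0 := by
      have : 3 * V.c = 0 := by linear_combination (-2) * e3 + e4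
      exact (mul_eq_zero.1 this).resolve_left h3
    have d0 : V.d = 0 := by linear_combination (-1) * e3 - 2 * c0
    ext
    · exact a0
    · exact b0
    · exact c0
    · exact d0
  · simp [tr, tt, mm] at e1 e2 e3 e4
    have hb : V.b = 4 * V.c + 2 * V.d := by linear_combination e3
    have ha : 2 * V.a = -4 * V.c - 3 * V.d := by linear_combination e1 - hb
    have hd : V.d = -2 * V.c := by
      have : 5 * (V.d + 2 * V.c) = 0 := by
        linear_combination (-2) * e2 + ha - 2 * hb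
      have := (mul_eq_zero.1 this).resolve_left h5
      linear_combination this
    have d0 : V.d = 0 := by
      have : 5 * V.d = 0 := by linear_combination (-2) * e4 + ha + 2 * hb
      exact (mul_eq_zero.1 this).resolve_left h5
    have c0 : V.c = 0 := by
      have : 2 * V.c = 0 := by linear_combination hd - d0
      exact (mul_eq_zero.1 this).resolve_left h2
    have b0 : V.b = 0 := by linear_combination hb + 4 * c0 + 2 * d0
    have a0 : V.a = 0 := by
      have : 2 * V.a = 0 := by linear_combination ha - 4 * c0 - 3 * d0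
      exact (mul_eq_zero.1 this).resolve_left h2
    ext
    · exact a0
    · exact b0
    · exact c0
    · exact d0

lemma prop {V Z U : QA q K} (hU : tr (V * U) = 1) (hn : nr V = 0) (h1 : cj V * Z = 0)
    (h2 : Z * cj V = 0) : ∃ κ : K, Z = sc κ * V := by
  have e1 : V * U + cj U * cj V = 1 := by
    rw [← cj_mul, add_cj, hU, sc_one]
  have e2 : U * V + cj V * cj U = 1 := by
    rw [← cj_mul, add_cj, tr_mul_comm, hU, sc_one]
  have z1 : Z = V * U * Z := by
    calc Z = (V * U + cj U * cj V) * Z := by rw [e1, one_mul]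
      _ = V * U * Z + cj U * (cj V * Z) := by rw [add_mul, mul_assoc (cj U)]
      _ = V * U * Z := by rw [h1, mul_zero, add_zero]
  have z2 : Z = Z * (U * V) := by
    calc Z = Z * (U * V + cj V * cj U) := by rw [e2, mul_one]
      _ = Z * (U * V) + Z * cj V * cj U := by rw [mul_add, mul_assoc Z (cj V)]
      _ = Z * (U * V) := by rw [h2, zero_mul, add_zero]
  refine ⟨tr (V * (U * Z * U)), ?_⟩
  calc Z = V * U * (Z * (U * V)) := by rw [← z2]; exact z1
    _ = V * (U * Z * U) * V := by simp only [mul_assoc]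
    _ = sc (tr (V * (U * Z * U))) * V := by rw [sandwich, hn, sc_zero, zero_mul, sub_zero]

lemma pv_inj (h2 : (2 : K) ≠ 0) {v w : Fin 3 → K} (h : pv q v = pv q w) : v = w := by
  by_cases hq : q = 5
  · simp only [pv, if_pos hq, QA.mk.injEq] at h
    obtain ⟨ha, hb, hc, hd⟩ := h
    have c2 := mul_left_cancel₀ h2 hc
    have c1 := mul_left_cancel₀ h2 hd
    have c0 : v 0 = w 0 := by
      have := mul_left_cancel₀ h2 hb
      linear_combination this - c2
    funext i
    fin_cases i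
    · exact c0
    · exact c1
    · exact c2
  · simp only [pv, if_neg hq, QA.mk.injEq] at h
    obtain ⟨ha, hb, hc, hd⟩ := h
    have c0 := mul_left_cancel₀ h2 hb
    have c1 := mul_left_cancel₀ h2 hc
    have c2 := mul_left_cancel₀ h2 hd
    funext i
    fin_cases i
    · exact c0
    · exact c1
    · exact c2

lemma sc_cancel {r : K} (hr : r ≠ 0) {V : QA q K} (h : sc r * V = 0) : V = 0 := by
  have e : sc r⁻¹ * (sc r * V) = V := by
    rw [← mul_assoc, sc_mul, inv_mul_cancel₀ hr, sc_one, one_mul]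
  rw [← e, h, mul_zero]

end field

section symbols
variable {p : ℕ} [Fact p.Prime]

lemma lz_eq (c : ZMod p) : lz p c = quadraticChar (ZMod p) c := by
  unfold lz
  rw [← jacobiSym.legendreSym.to_jacobiSym, legendreSym]
  congr 1
  rw [Int.cast_natCast, ZMod.natCast_zmod_val]

lemma lz_mul (a b : ZMod p) : lz p (a * b) = lz p a * lz p b := by
  rw [lz_eq, lz_eq, lz_eq, map_mul]

lemma lz_sq {a : ZMod p} (ha : a ≠ 0) : lz p (a * a) = 1 := by
  rw [lz_eq, ← sq, quadraticChar_sq_one' ha]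

lemma lz_pm {a : ZMod p} (ha : a ≠ 0) : lz p a = 1 ∨ lz p a = -1 := by
  rw [lz_eq]
  exact quadraticChar_dichotomy ha

lemma lz_int (a : ℤ) : lz p (a : ZMod p) = jacobiSym a p := by
  rw [lz_eq, ← jacobiSym.legendreSym.to_jacobiSym, legendreSym]

/-- the change of the character, modulo `p` -/
theorem core {q : ℕ} (hq : q = 3 ∨ q = 5) (h2 : (2 : ZMod p) ≠ 0) (h3 : (3 : ZMod p) ≠ 0)
    (h5 : (5 : ZMod p) ≠ 0) {f : (Fin 3 → ZMod p) → ℤ} (hf : IsPhi q p f) {X : QA q (ZMod p)}
    {v w : Fin 3 → ZMod p} (hX : nr X ≠ 0) (hv : bl q v v = 0) (hv0 : v ≠ 0)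
    (hc : X * pv q v = pv q w * X) : f w = lz p (nr X) * f v := by
  have hV : pv q v ≠ 0 := by
    intro h
    apply hv0
    apply pv_inj (q := q) h2
    rw [h]
    have := sc_pv (q := q) (0 : ZMod p) v
    rw [sc_zero, zero_mul, zero_smul] at this
    exact this
  have nV : nr (pv q v) = 0 := by rw [nr_pv, hv]
  have nW : nr (pv q w) = 0 := by
    have h := congrArg nr hc
    rw [nr_mul, nr_mul, nV, mul_zero] at h
    exact (mul_eq_zero.1 h.symm).resolve_right hX
  have hw : bl q w w = 0 := by rw [← nr_pv, nW]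
  set V := pv q v with hVd
  set W := pv q w with hWd
  have sV : V * X * V = sc (tr (V * X)) * V := by
    rw [sandwich, nV, sc_zero, zero_mul, sub_zero]
  have key : 2 * bl q v w * nr X = tr (V * X) * tr (V * X) := by
    have e1 : V * W * sc (nr X) = V * X * V * cj X := by
      rw [← mul_cj, ← mul_assoc, mul_assoc V W X, ← hc]
      simp only [mul_assoc]
    have e2 : tr (V * W * sc (nr X)) = nr X * tr (V * W) := by
      rw [← sc_comm, tr_sc_mul]
    have e3 : tr (V * X * V * cj X) = tr (V * X) * tr (V * cj X) := by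
      rw [sV, mul_assoc, tr_sc_mul]
    have e4 : tr (V * cj X) = -tr (V * X) := by
      rw [cj_eq, mul_sub, ← sc_comm, tr_sub, tr_sc_mul, hVd, tr_pv, mul_zero, zero_sub]
    have e5 : tr (V * W) = -(2 * bl q v w) := tr_pv_mul v w
    rw [e1, e3, e4, e5] at e2
    linear_combination e2
  by_cases hT : tr (V * X) = 0
  · obtain ⟨U, hU⟩ := exists_tr hq h2 h3 h5 hV
    have cV : cj V = -V := cj_pv v
    have VV : V * V = 0 := by
      have := mul_cj V
      rw [cV, nV, sc_zero, mul_neg, neg_eq_zero] at this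
      exact this
    obtain ⟨κ, hκ⟩ := prop (Z := X * V) hU nV (by
      rw [cV, neg_mul, ← mul_assoc, sV, hT, sc_zero, zero_mul, neg_zero]) (by
      rw [cV, mul_neg, mul_assoc, VV, mul_zero, neg_zero])
    have hκ0 : κ ≠ 0 := by
      intro h
      rw [h, sc_zero, zero_mul] at hκ
      apply hV
      apply sc_cancel hX
      rw [← cj_mul_self, mul_assoc, hκ, mul_zero]
    have e1 : V * cj X = sc κ * V := by
      have h := congrArg cj hκ
      rw [cj_mul, cj_mul, cj_sc, cV] at h
      rw [neg_mul, neg_mul, neg_inj] at h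
      rw [h, sc_comm]
    have e2 : sc (nr X) * W = sc (κ * κ) * V := by
      rw [sc_comm, ← mul_cj, ← mul_assoc, ← hc, hκ, mul_assoc, e1, ← mul_assoc, sc_mul]
    rw [hWd, hVd, sc_pv, sc_pv] at e2
    have e3 := pv_inj h2 e2
    have e4 := congrArg f e3
    rw [hf.smul _ _ hX, hf.smul _ _ (mul_ne_zero hκ0 hκ0), lz_sq hκ0, one_mul] at e4
    rw [← e4, ← mul_assoc, ← lz_mul, lz_sq hX, one_mul]
  · have hb : bl q v w ≠ 0 := by
      intro h
      rw [h, mul_zero, zero_mul] at key
      exact mul_ne_zero hT hT key.symm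
    have h1 := hf.mul v w hv hw hb
    have h4 : lz p (2 * bl q v w) * lz p (nr X) = 1 := by
      rw [← lz_mul, key, lz_sq hT]
    have h6 := hf.pm v hv hv0
    have h7 := lz_pm hX
    rcases h6 with h6 | h6 <;> rcases h7 with h7 | h7 <;> rw [h6] at h1 ⊢ <;> rw [h7] at h4 ⊢ <;>
      linarith

end symbols

lemma bl_dvd {q p : ℕ} {v : V3} (h : ∀ i, (p : ℤ) ∣ v i) : (p : ℤ) ^ 2 ∣ bl q v v := by
  choose u hu using h
  refine ⟨bl q u u, ?_⟩
  unfold bl
  rw [hu 0, hu 1, hu 2]
  split_ifs <;> ring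

lemma pr_mem {D : Finset ℕ} (hD : ∀ l ∈ D, l.Prime) {p : ℕ} (hp : p.Prime)
    (h : (p : ℤ) ∣ (pr D : ℤ)) : p ∈ D := by
  have h2 : p ∣ pr D := by exact_mod_cast h
  unfold Pool.Agent.Z700.pr at h2
  rw [hp.prime.dvd_finsetProd_iff] at h2
  obtain ⟨l, hl, hpl⟩ := h2
  rw [(Nat.prime_dvd_prime_iff_eq hp (hD l hl)).1 hpl]
  exact hl

lemma pr_dvd {N : Finset ℕ} {p : ℕ} (hp : p ∈ N) : (p : ℤ) ∣ (pr N : ℤ) := by
  have : p ∣ pr N := Finset.dvd_prod_of_mem _ hp
  exact_mod_cast this

lemma pr_sqf {P : Finset ℕ} (hP : Pq P) : Squarefree (pr P) := by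
  unfold Pool.Agent.Z700.pr
  refine Finset.squarefree_prod_of_pairwise_isCoprime ?_ fun p hp => (hP p hp).1.prime.squarefree
  intro p hp q hq hpq
  exact Nat.coprime_iff_isRelPrime.1 ((Nat.coprime_primes (hP p hp).1 (hP q hq).1).2 hpq)

lemma cop15 {P : Finset ℕ} (hP : Pq P) : Nat.Coprime 15 (pr P) := by
  unfold Pool.Agent.Z700.pr
  refine Nat.Coprime.prod_right fun p hp => ?_
  obtain ⟨h1, h2, h3, h5⟩ := hP p hp
  have e1 : Nat.Coprime 3 p := (Nat.coprime_primes Nat.prime_three h1).2 (Ne.symm h3)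
  have e2 : Nat.Coprime 5 p := (Nat.coprime_primes Nat.prime_five h1).2 (Ne.symm h5)
  have := e1.mul_left e2
  simpa using this

end CHp

/-- the change of the characters -/
theorem t_CH : S_CH := by
  intro q hq p hp p2 p3 p5 f hf x v w hx hv hv0 hc
  have : Fact p.Prime := ⟨hp⟩
  have hne : ∀ m : ℕ, m.Prime → p ≠ m → ((m : ℕ) : ZMod p) ≠ 0 := by
    intro m hm hpm h
    rw [ZMod.natCast_eq_zero_iff] at h
    exact hpm ((Nat.prime_dvd_prime_iff_eq hp hm).1 h)
  have h2 : (2 : ZMod p) ≠ 0 := by exact_mod_cast hne 2 Nat.prime_two p2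
  have h3 : (3 : ZMod p) ≠ 0 := by exact_mod_cast hne 3 Nat.prime_three p3
  have h5 : (5 : ZMod p) ≠ 0 := by exact_mod_cast hne 5 Nat.prime_five p5
  have hX : nr (CHp.rdq p x) ≠ 0 := by
    rw [CHp.nr_rdq]
    intro h
    exact hx ((ZMod.intCast_zmod_eq_zero_iff_dvd _ _).1 h)
  have hbl : bl q (rd p v) (rd p v) = ((bl q v v : ℤ) : ZMod p) := by
    unfold bl rd
    split_ifs <;> push_cast <;> ring
  have hv' : bl q (rd p v) (rd p v) = 0 := by
    rw [hbl]
    exact (ZMod.intCast_zmod_eq_zero_iff_dvd _ _).2 hv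
  have hv0' : rd p v ≠ 0 := by
    intro h
    apply hv0
    intro i
    have := congrFun h i
    exact (ZMod.intCast_zmod_eq_zero_iff_dvd _ _).1 this
  have hc' := congrArg (CHp.rdq p) hc
  rw [CHp.rdq_mul, CHp.rdq_mul, CHp.rdq_pv, CHp.rdq_pv] at hc'
  have := CHp.core hq h2 h3 h5 hf hX hv' hv0' hc'
  rw [this, CHp.nr_rdq, CHp.lz_int]

/-- the change of the characters under the ambiguous ideals -/
theorem t_CHN (h0 : S_PHI) (hd : S_DV) (h : S_CH) : S_CHN := by
  intro q hq N hN D hD x v w hv hx hc p hp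
  obtain ⟨hpp, p2, p3, p5⟩ := hN p hp
  have hDN : Pq D := fun l hl => hN l (hD hl)
  have hpq : p ≠ q := by rcases hq with rfl | rfl <;> assumption
  have hf := ph_spec h0 hq hpp p2 hpq
  have hpN : (p : ℤ) ∣ bl q v v := by rw [hv]; exact CHp.pr_dvd hp
  have hv0 : ¬ (∀ i, (p : ℤ) ∣ v i) := by
    intro hall
    have h1 := CHp.bl_dvd (q := q) hall
    rw [hv] at h1
    have h2 : p ^ 2 ∣ pr N := by exact_mod_cast h1
    have h3 := CHp.pr_sqf hN
    have h4 := h3 p (by rwa [← sq])
    exact hpp.one_lt.ne' (Nat.isUnit_iff.1 h4)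
  by_cases hpD : p ∈ D
  · have hdN : pr (N \ D) * pr D = pr N := by
      unfold Pool.Agent.Z700.pr
      exact Finset.prod_sdiff hD
    have hD0 : (pr D : ℤ) ≠ 0 := by
      have : pr D ≠ 0 := Finset.prod_ne_zero_iff.2 fun l hl => (hDN l hl).1.ne_zero
      exact_mod_cast this
    obtain ⟨y, hy⟩ := hd q hq (pr D) (CHp.pr_sqf hDN) (CHp.cop15 hDN).symm x (pv q v) (pv q w)
      (by rw [hx]) (by rw [CHp.nr_pv, hv, ← hdN]; push_cast; exact dvd_mul_left _ _)
      (CHp.tr_pv v) hc
    have hny : nr y = (pr (N \ D) : ℤ) := by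
      have h1 := congrArg nr hy
      rw [nr_mul, nr_mul, nr_sc, CHp.nr_pv, hv, hx, ← hdN] at h1
      push_cast at h1
      apply mul_left_cancel₀ hD0
      apply mul_left_cancel₀ hD0
      linear_combination -h1
    have hcy : y * pv q v = pv q w * y := by
      have h1 : sc (pr D : ℤ) * (y * pv q v) = sc (pr D : ℤ) * (pv q w * y) := by
        have e1 : sc (pr D : ℤ) * (y * pv q v) = x * pv q v * pv q v := by
          rw [← mul_assoc, ← hy]
        have e2 : sc (pr D : ℤ) * (pv q w * y) = pv q w * (x * pv q v) := by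
          rw [hy, ← mul_assoc, sc_comm, mul_assoc]
        rw [e1, e2, hc, mul_assoc, hc]
      have ha := congrArg QA.a h1
      have hb := congrArg QA.b h1
      have hcc := congrArg QA.c h1
      have hdd := congrArg QA.d h1
      have g : ∀ z : QA q ℤ, (sc (pr D : ℤ) * z).a = pr D * z.a ∧
          (sc (pr D : ℤ) * z).b = pr D * z.b ∧ (sc (pr D : ℤ) * z).c = pr D * z.c ∧
          (sc (pr D : ℤ) * z).d = pr D * z.d := by
        intro z
        refine ⟨?_, ?_, ?_, ?_⟩ <;> simp
      rw [(g _).1, (g _).1] at ha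
      rw [(g _).2.1, (g _).2.1] at hb
      rw [(g _).2.2.1, (g _).2.2.1] at hcc
      rw [(g _).2.2.2, (g _).2.2.2] at hdd
      ext
      · exact mul_left_cancel₀ hD0 ha
      · exact mul_left_cancel₀ hD0 hb
      · exact mul_left_cancel₀ hD0 hcc
      · exact mul_left_cancel₀ hD0 hdd
    have hndy : ¬ (p : ℤ) ∣ nr y := by
      rw [hny]
      intro hh
      have := CHp.pr_mem (fun l hl => (hN l (mem_sdiff.1 hl).1).1) hpp hh
      exact (mem_sdiff.1 this).2 hpD
    have := h q hq p hpp p2 p3 p5 (ph q p) hf y v w hndy hpN hv0 hcy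
    rw [this, hny]
    unfold gen
    rw [if_pos hpD]
  · have hndx : ¬ (p : ℤ) ∣ nr x := by
      rw [hx]
      intro hh
      exact hpD (CHp.pr_mem (fun l hl => (hDN l hl).1) hpp hh)
    have := h q hq p hpp p2 p3 p5 (ph q p) hf x v w hndx hpN hv0 hc
    rw [this, hx]
    unfold gen
    rw [if_neg hpD]

end Pool.Agent.XV
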