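import Pool.Agent.XV.T3.Defs

/-!
Project XV, T3: the quaternion orders `O 5`, `O 3` are norm Euclidean (helper49).
-/

set_option autoImplicit false

namespace Pool.Agent.XV

open QA

namespace EU

/-- the hexagonal form -/
def Qh (x y : ℤ) : ℤ := x*x + x*y + y*y

lemma Qh_nonneg (x y : ℤ) : 0 ≤ Qh x y := by
  unfold Qh
  nlinarith [sq_nonneg (2*x+y), sq_nonneg y]

lemma Qh_zero {x y : ℤ} (h : Qh x y ≤ 0) : x = 0 ∧ y = 0 := by
  unfold Qh at h
  have hy : y = 0 := by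
    have h1 : y^2 ≤ 0 := by nlinarith [sq_nonneg (2*x+y)]
    exact pow_eq_zero_iff (two_ne_zero) |>.1 (le_antisymm h1 (sq_nonneg y))
  subst hy
  have hx : x^2 ≤ 0 := by nlinarith
  exact ⟨pow_eq_zero_iff (two_ne_zero) |>.1 (le_antisymm hx (sq_nonneg x)), rfl⟩

lemma tri {M x y : ℤ} (hM : 0 < M) (hx : 0 ≤ x) (hy : 0 ≤ y) (hz : 0 ≤ M - x - y) :
    3 * Qh x y ≤ M^2 ∨ 3 * Qh (x - M) y ≤ M^2 ∨ 3 * Qh x (y - M) ≤ M^2 := by
  by_contra h
  rw [not_or, not_or, not_le, not_le, not_le] at h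
  obtain ⟨h1, h2, h3⟩ := h
  unfold Qh at h1 h2 h3
  have a1 := mul_nonneg hz (show 0 ≤ 3*(x*x+x*y+y*y) - M^2 - 1 by linarith)
  have a2 := mul_nonneg hx (show 0 ≤ 3*((x-M)*(x-M)+(x-M)*y+y*y) - M^2 - 1 by linarith)
  have a3 := mul_nonneg hy (show 0 ≤ 3*(x*x+x*(y-M)+(y-M)*(y-M)) - M^2 - 1 by linarith)
  have key : (M - x - y) * (3*(x*x+x*y+y*y) - M^2 - 1) +
      x * (3*((x-M)*(x-M)+(x-M)*y+y*y) - M^2 - 1) +
      y * (3*(x*x+x*(y-M)+(y-M)*(y-M)) - M^2 - 1) =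
      -(M * (x^2+y^2+(M-x-y)^2 - x*y - y*(M-x-y) - (M-x-y)*x)) - M := by ring
  have S : 0 ≤ x^2+y^2+(M-x-y)^2 - x*y - y*(M-x-y) - (M-x-y)*x := by
    nlinarith [sq_nonneg (x-y), sq_nonneg (y-(M-x-y)), sq_nonneg ((M-x-y)-x)]
  have S2 := mul_nonneg hM.le S
  linarith

lemma hex {M : ℤ} (hM : 0 < M) (a b : ℤ) : ∃ k l : ℤ, 3 * Qh (a - k*M) (b - l*M) ≤ M^2 := by
  have ha0 := Int.emod_nonneg a hM.ne'
  have ha1 := Int.emod_lt_of_pos a hM
  have hb0 := Int.emod_nonneg b hM.ne'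
  have hb1 := Int.emod_lt_of_pos b hM
  have ea : a % M + M * (a / M) = a := Int.emod_add_mul_ediv a M
  have eb : b % M + M * (b / M) = b := Int.emod_add_mul_ediv b M
  rcases le_or_gt (a % M + b % M) M with h | h
  · rcases tri hM ha0 hb0 (by linarith) with h1 | h1 | h1
    · refine ⟨a/M, b/M, ?_⟩
      rw [show a - (a/M)*M = a % M by linarith, show b - (b/M)*M = b % M by linarith]
      exact h1
    · refine ⟨a/M+1, b/M, ?_⟩
      rw [show a - (a/M+1)*M = a % M - M by linarith, show b - (b/M)*M = b % M by linarith]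
      exact h1
    · refine ⟨a/M, b/M+1, ?_⟩
      rw [show a - (a/M)*M = a % M by linarith, show b - (b/M+1)*M = b % M - M by linarith]
      exact h1
  · rcases tri hM (x := M - a % M) (y := M - b % M) (by linarith) (by linarith) (by linarith)
      with h1 | h1 | h1
    · refine ⟨a/M+1, b/M+1, ?_⟩
      rw [show a - (a/M+1)*M = a % M - M by linarith, show b - (b/M+1)*M = b % M - M by linarith]
      unfold Qh at h1 ⊢
      linarith
    · refine ⟨a/M, b/M+1, ?_⟩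
      rw [show a - (a/M)*M = a % M by linarith, show b - (b/M+1)*M = b % M - M by linarith]
      unfold Qh at h1 ⊢
      linarith
    · refine ⟨a/M+1, b/M, ?_⟩
      rw [show a - (a/M+1)*M = a % M - M by linarith, show b - (b/M)*M = b % M by linarith]
      unfold Qh at h1 ⊢
      linarith

lemma nr3 (x : QA 3 ℤ) : nr x = Qh x.a x.b + Qh x.c x.d := by
  unfold nr Qh
  simp [mm, tt]

lemma nr5 (x : QA 5 ℤ) : 9 * nr x = Qh (3*x.a + x.c + 2*x.d) (3*x.b - 2*x.c - x.d) +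
    15 * Qh x.c x.d := by
  unfold nr Qh
  simp [mm, tt]
  ring

lemma nr_pos {q : ℕ} (hq : q = 3 ∨ q = 5) {x : QA q ℤ} (hx : x ≠ 0) : 0 < nr x := by
  by_contra h
  rw [not_lt] at h
  apply hx
  rcases hq with rfl | rfl
  · rw [nr3] at h
    have h1 := Qh_nonneg x.a x.b
    have h2 := Qh_nonneg x.c x.d
    obtain ⟨e1, e2⟩ := Qh_zero (x := x.a) (y := x.b) (by linarith)
    obtain ⟨e3, e4⟩ := Qh_zero (x := x.c) (y := x.d) (by linarith)
    ext
    · exact e1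
    · exact e2
    · exact e3
    · exact e4
  · have h0 := nr5 x
    have h1 := Qh_nonneg (3*x.a + x.c + 2*x.d) (3*x.b - 2*x.c - x.d)
    have h2 := Qh_nonneg x.c x.d
    obtain ⟨e1, e2⟩ := Qh_zero (x := 3*x.a + x.c + 2*x.d) (y := 3*x.b - 2*x.c - x.d) (by linarith)
    obtain ⟨e3, e4⟩ := Qh_zero (x := x.c) (y := x.d) (by linarith)
    rw [e3, e4] at e1 e2
    ext
    · show x.a = 0
      omega
    · show x.b = 0
      omega
    · exact e3
    · exact e4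

lemma red {q : ℕ} (hq : q = 3 ∨ q = 5) {M : ℤ} (hM : 0 < M) (A : QA q ℤ) :
    ∃ k : QA q ℤ, nr (A - k * sc M) < M * M := by
  obtain ⟨k3, k4, h2⟩ := hex hM A.c A.d
  have hM2 : 0 < M * M := mul_pos hM hM
  rcases hq with rfl | rfl
  · obtain ⟨k1, k2, h1⟩ := hex hM A.a A.b
    refine ⟨⟨k1, k2, k3, k4⟩, ?_⟩
    have e : nr (A - (⟨k1, k2, k3, k4⟩ : QA 3 ℤ) * sc M) =
        Qh (A.a - k1*M) (A.b - k2*M) + Qh (A.c - k3*M) (A.d - k4*M) := by
      rw [nr3]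
      simp
    rw [e]
    nlinarith
  · obtain ⟨k1, k2, h1⟩ := hex (M := 3*M) (by linarith)
      (3*A.a + (A.c - k3*M) + 2*(A.d - k4*M)) (3*A.b - 2*(A.c - k3*M) - (A.d - k4*M))
    refine ⟨⟨k1, k2, k3, k4⟩, ?_⟩
    have e : 9 * nr (A - (⟨k1, k2, k3, k4⟩ : QA 5 ℤ) * sc M) =
        Qh (3*A.a + (A.c - k3*M) + 2*(A.d - k4*M) - k1*(3*M))
          (3*A.b - 2*(A.c - k3*M) - (A.d - k4*M) - k2*(3*M)) +
        15 * Qh (A.c - k3*M) (A.d - k4*M) := by
      rw [nr5]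
      unfold Qh
      simp
      ring
    nlinarith

end EU

/-- the orders are norm Euclidean -/
theorem t_EU : S_EU := by
  intro q hq a b hb
  have hM := EU.nr_pos hq hb
  obtain ⟨k, hk⟩ := EU.red hq hM (a * cj b)
  refine ⟨k, ?_⟩
  have e : a * cj b - k * sc (nr b) = (a - k * b) * cj b := by
    rw [← mul_cj, sub_mul, mul_assoc]
  rw [e, nr_mul, nr_cj] at hk
  exact lt_of_mul_lt_mul_right hk hM.le

end Pool.Agent.XV
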