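import Pool.Agent.XV.T3.Basic

/-!
# Project XV, T3: principal left ideals transport vectors (helper2)
-/

set_option autoImplicit false

namespace Pool.Agent.XV

open Finset QA
open Pool.Agent.Z700 (V3 pr)

namespace T3

variable {q : ℕ}

theorem nr_add (x y : QA q ℤ) : nr (x + y) = nr x + nr y + tr (x * cj y) := by
  simp only [nr, tr, add_a, add_b, add_c, add_d, mul_a, mul_b, mul_d, cj_a, cj_b, cj_c, cj_d]
  ring

theorem bezout (h : S_EU) (hq : q = 3 ∨ q = 5) : ∀ (n : ℕ) (a b : QA q ℤ), nr b = n →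
    ∃ x s s' a' b' : QA q ℤ, x = s * a + s' * b ∧ a = a' * x ∧ b = b' * x := by
  intro n
  induction n using Nat.strong_induction_on with
  | _ n ih =>
    intro a b hn
    by_cases hb0 : b = 0
    · exact ⟨a, 1, 0, 1, 0, by simp, by simp, by simp [hb0]⟩
    · obtain ⟨k, hk⟩ := h q hq a b hb0
      have h0 := nr_nonneg (a - k * b)
      obtain ⟨m, hm⟩ : ∃ m : ℕ, nr (a - k * b) = m := ⟨(nr (a - k * b)).toNat, by omega⟩
      have hmn : m < n := by
        rw [hm, hn] at hk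
        exact_mod_cast hk
      obtain ⟨x, s, s', a', b', e1, e2, e3⟩ := ih m hmn b (a - k * b) hm
      refine ⟨x, s', s - s' * k, k * a' + b', a', ?_, ?_, e2⟩
      · rw [e1]
        noncomm_ring
      · rw [add_mul, mul_assoc, ← e2, ← e3]
        noncomm_ring

theorem nr_sub_sc (v : V3) (r : ℤ) : nr (pv q v - sc r) = bl q v v + r ^ 2 := by
  have h1 : (pv q v - sc r : QA q ℤ) = pv q v + sc (-r) := by
    rw [sc_neg]
    abel
  rw [h1, nr_add, nr_pv, cj_sc, nr_sc, ← sc_comm, tr_sc_mul, tr_pv]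
  ring

end T3

open T3

theorem t_EX (h : S_EU) : S_EX := by
  intro q hq v d d' r hd he hcop
  have hnn : nr (sc d : QA q ℤ) = ((d * d).toNat : ℕ) := by
    rw [nr_sc, Int.toNat_of_nonneg (mul_nonneg hd.le hd.le)]
  obtain ⟨x, s, s', a', b', e1, e2, e3⟩ := bezout h hq _ (pv q v - sc r) (sc d) hnn
  have hd0 : d ≠ 0 := hd.ne'
  have hx0 : x ≠ 0 := by
    rintro rfl
    rw [mul_zero] at e3
    have := congrArg QA.a e3
    exact hd0 this
  have hx := nr_pos hx0
  -- the norm of `x`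
  have n1 : nr x ∣ d * d' := by
    rw [← he, ← nr_sub_sc, e2, nr_mul]
    exact Dvd.intro_left _ rfl
  have n2 : nr x ∣ d * d := by
    have : nr (sc d : QA q ℤ) = nr b' * nr x := by rw [← nr_mul, ← e3]
    rw [nr_sc] at this
    rw [this]
    exact Dvd.intro_left _ rfl
  have n3 : nr x ∣ d := by
    obtain ⟨α, β, hαβ⟩ := hcop
    have : d = β * (d * d') + α * (d * d) := by
      calc d = d * (α * d + β * d') := by rw [hαβ, mul_one]
        _ = _ := by ring
    rw [this]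
    exact dvd_add (Dvd.dvd.mul_left n1 _) (Dvd.dvd.mul_left n2 _)
  have n4 : d ∣ nr x := by
    have h1 : nr x = nr s * (d * d') + nr s' * (d * d) +
        d * tr (s * (pv q v - sc r) * cj s') := by
      have h2 : s * (pv q v - sc r) * cj (s' * sc d) = sc d * (s * (pv q v - sc r) * cj s') := by
        rw [cj_mul, cj_sc, ← mul_assoc, ← sc_comm d (s * (pv q v - sc r)), mul_assoc]
      conv_lhs => rw [e1]
      rw [nr_add, nr_mul, nr_sub_sc, he, nr_mul, nr_sc, h2, tr_sc_mul]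
    rw [h1]
    exact dvd_add (dvd_add (Dvd.dvd.mul_left (Dvd.intro _ rfl) _)
      (Dvd.dvd.mul_left (Dvd.intro _ rfl) _)) (Dvd.intro _ rfl)
  have hnx : nr x = d := Int.dvd_antisymm hx.le hd.le n3 n4
  -- the vector `w`
  obtain ⟨z0, hz0⟩ := exists_half (q := q) v
  have hcomm : (pv q v - sc r) * z0 = z0 * (pv q v - sc r) := by
    rw [hz0, sub_mul, sub_mul, mul_sub, mul_sub, sc_comm r z0, sc_comm (tr z0) z0, sc_comm 2 z0,
      mul_assoc]
    rw [sc_comm 2 z0]
  have hz : x * z0 = (s * z0 * a' + s' * z0 * b') * x := by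
    calc x * z0 = (s * (pv q v - sc r) + s' * sc d) * z0 := by rw [← e1]
      _ = s * ((pv q v - sc r) * z0) + s' * (sc d * z0) := by noncomm_ring
      _ = s * (z0 * (a' * x)) + s' * (z0 * (b' * x)) := by rw [hcomm, sc_comm, ← e2, ← e3]
      _ = _ := by noncomm_ring
  obtain ⟨z, hzz⟩ : ∃ z, z = s * z0 * a' + s' * z0 * b' := ⟨_, rfl⟩
  rw [← hzz] at hz
  have htr : tr z = tr z0 := by
    have h1 := congrArg (fun y => tr (y * cj x)) hz
    simp only [mul_assoc, mul_cj] at h1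
    rw [tr_mul_comm x, mul_assoc, cj_mul_self, ← sc_comm, ← sc_comm, tr_sc_mul, tr_sc_mul] at h1
    exact (mul_left_cancel₀ hx.ne' h1).symm
  obtain ⟨w, hw⟩ := exists_pv (q := q) z
  refine ⟨x, w, s, s', ⟨hnx, ?_, ?_⟩, e1⟩
  · rw [hw, hz0, mul_sub, sub_mul, htr, ← sc_comm (tr z0), ← mul_assoc, ← sc_comm 2 x, mul_assoc,
      mul_assoc, hz]
  · refine ⟨-cj a', ?_⟩
    have h1 := congrArg cj e2
    have h2 : cj (pv q v - sc r : QA q ℤ) = -(pv q v + sc r) := by
      rw [sub_eq_add_neg, cj_add, cj_neg, cj_pv, cj_sc]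
      abel
    rw [h2, cj_mul] at h1
    rw [← neg_neg (pv q v + sc r), h1, mul_neg, ← mul_assoc, mul_cj, hnx, mul_neg]

theorem t_UN (h : S_EX) : S_UN := by
  intro q hq v w w' d d' r x x' hd he hcop h1 h2
  obtain ⟨x0, w0, s, s', h0, e0⟩ := h q hq v d d' r hd he hcop
  have key : ∀ (y : QA q ℤ) (w : V3), Tp q d r y v w → ∃ u, nr u = 1 ∧ x0 = u * y := by
    intro y w hy
    obtain ⟨a, ha⟩ := T3.Tp.mem hd.ne' hy
    refine ⟨s * a + s' * cj y, ?_, ?_⟩
    · have h3 : x0 = (s * a + s' * cj y) * y := by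
        rw [add_mul, mul_assoc, ← ha, mul_assoc, cj_mul_self, hy.norm]
        exact e0
      have h4 : nr x0 = nr (s * a + s' * cj y) * nr y := by rw [← nr_mul, ← h3]
      rw [h0.norm, hy.norm] at h4
      exact (mul_right_cancel₀ hd.ne' (by rw [one_mul]; exact h4)).symm
    · rw [add_mul, mul_assoc, ← ha, mul_assoc, cj_mul_self, hy.norm]
      exact e0
  obtain ⟨u, hu, hu'⟩ := key x w h1
  obtain ⟨u', hu2, hu2'⟩ := key x' w' h2
  refine ⟨cj u' * u, by rw [nr_mul, nr_cj, hu, hu2, one_mul], ?_⟩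
  rw [mul_assoc, ← hu', hu2', ← mul_assoc, cj_mul_self, hu2, sc_one, one_mul]

end Pool.Agent.XV
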