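import Pool.Agent.XV.T3.Basic

/-!
# Project XV, T3: the sums of the characters over all vectors vanish, equidistribution (helper78)
-/

set_option autoImplicit false

namespace Pool.Agent.XV

open Finset QA
open Pool.Agent.Z700 (V3 pr un hh)
open Pool.Agent.NH1 (lz rd)

namespace V4X

theorem pr_pos {N : Finset ℕ} (hN : Pq N) : 0 < pr N :=
  Finset.prod_pos fun p hp => (hN p hp).1.pos

theorem pr_squarefree {N : Finset ℕ} (hN : Pq N) : Squarefree (pr N) := by
  unfold Pool.Agent.Z700.pr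
  exact Finset.squarefree_prod_of_pairwise_isCoprime
    (fun p hp q hq hpq => (Nat.coprime_iff_isRelPrime.1
      ((Nat.coprime_primes (hN p hp).1 (hN q hq).1).2 hpq)))
    (fun p hp => (hN p hp).1.squarefree)

theorem jac_prod_right {D : Finset ℕ} {a : ℤ} (hD : ∀ p ∈ D, p ≠ 0) :
    jacobiSym a (pr D) = ∏ t ∈ D, jacobiSym a t := by
  unfold Pool.Agent.Z700.pr
  induction D using Finset.induction_on with
  | empty => simp
  | insert b s hb ih =>
    have h1 : b ≠ 0 := hD b (mem_insert_self _ _)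
    have h2 : (∏ p ∈ s, p) ≠ 0 := prod_ne_zero_iff.2 fun p hp => hD p (mem_insert_of_mem hp)
    rw [prod_insert hb, prod_insert hb, jacobiSym.mul_right' _ h1 h2, ih fun p hp =>
      hD p (mem_insert_of_mem hp)]

theorem lz_neg_one {p : ℕ} (hp : p.Prime) : lz p (-1) = jacobiSym (-1) p := by
  unfold Pool.Agent.NH1.lz
  have : Fact p.Prime := ⟨hp⟩
  refine jacobiSym.mod_left' ?_
  have h : (((-1 : ZMod p).val : ℤ) : ZMod p) = ((-1 : ℤ) : ZMod p) := by
    push_cast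
    rw [ZMod.natCast_zmod_val]
  exact (ZMod.intCast_eq_intCast_iff' _ _ _).1 h

theorem rd_bl (q p : ℕ) (v w : V3) : bl q (rd p v) (rd p w) = ((bl q v w : ℤ) : ZMod p) := by
  by_cases h : q = 5
  · rw [T3.bl5 h, T3.bl5 h]
    unfold Pool.Agent.NH1.rd
    push_cast
    ring
  · rw [T3.bl3 h, T3.bl3 h]
    unfold Pool.Agent.NH1.rd
    push_cast
    ring

theorem not_dvd {q : ℕ} {N : Finset ℕ} (hN : Pq N) {v : V3} (hv : bl q v v = (pr N : ℤ)) {p : ℕ}
    (hp : p ∈ N) : ¬ ∀ i, (p : ℤ) ∣ v i := by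
  intro h
  have h3 : ((p * p : ℕ) : ℤ) ∣ (pr N : ℤ) := by
    rw [← hv]
    obtain ⟨a, ha⟩ := h 0
    obtain ⟨b, hb⟩ := h 1
    obtain ⟨c, hc⟩ := h 2
    by_cases h5 : q = 5
    · rw [T3.bl5 h5, ha, hb, hc]
      exact ⟨3 * (a * a) + 7 * (b * b) + 7 * (c * c) - (a * b + b * a) + (a * c + c * a) +
        3 * (b * c + c * b), by push_cast; ring⟩
    · rw [T3.bl3 h5, ha, hb, hc]
      exact ⟨3 * (a * a) + 4 * (b * b) + 4 * (c * c) + 2 * (b * c + c * b), by push_cast; ring⟩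
  have h4 : p * p ∣ pr N := by exact_mod_cast h3
  have h5 := pr_squarefree hN p h4
  exact (hN p hp).1.one_lt.ne' (Nat.isUnit_iff.1 h5)

theorem rd_ne {q : ℕ} {N : Finset ℕ} (hN : Pq N) {v : V3} (hv : bl q v v = (pr N : ℤ)) {p : ℕ}
    (hp : p ∈ N) : rd p v ≠ 0 ∧ bl q (rd p v) (rd p v) = 0 := by
  have hpn : p ∣ pr N := Finset.dvd_prod_of_mem _ hp
  constructor
  · intro h
    refine not_dvd hN hv hp fun i => ?_
    have h2 := congrFun h i
    unfold Pool.Agent.NH1.rd at h2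
    exact (ZMod.intCast_zmod_eq_zero_iff_dvd _ _).1 h2
  · rw [rd_bl, hv]
    push_cast
    exact (ZMod.natCast_eq_zero_iff _ _).2 hpn

theorem spec (h0 : S_PHI) {q : ℕ} (hq : q = 3 ∨ q = 5) {N : Finset ℕ} (hN : Pq N) {p : ℕ}
    (hp : p ∈ N) : IsPhi q p (ph q p) := by
  refine ph_spec h0 hq (hN p hp).1 (hN p hp).2.1 ?_
  rcases hq with rfl | rfl
  · exact (hN p hp).2.2.1
  · exact (hN p hp).2.2.2

theorem ph_pm (h0 : S_PHI) {q : ℕ} (hq : q = 3 ∨ q = 5) {N : Finset ℕ} (hN : Pq N) {v : V3}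
    (hv : bl q v v = (pr N : ℤ)) {p : ℕ} (hp : p ∈ N) :
    ph q p (rd p v) = 1 ∨ ph q p (rd p v) = -1 := by
  have h1 := rd_ne hN hv hp
  exact (spec h0 hq hN hp).pm _ h1.2 h1.1

theorem Ph_neg (h0 : S_PHI) {q : ℕ} (hq : q = 3 ∨ q = 5) {P : Finset ℕ} (hP : Pq P) (v : V3) :
    Ph q P (-v) = jacobiSym (-1) (pr P) * Ph q P v := by
  rw [jac_prod_right fun p hp => (hP p hp).1.ne_zero]
  unfold Ph
  rw [← Finset.prod_mul_distrib]
  refine Finset.prod_congr rfl fun p hp => ?_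
  have : Fact p.Prime := ⟨(hP p hp).1⟩
  have hs := (spec h0 hq hP hp).smul (-1) (rd p v) (neg_ne_zero.2 one_ne_zero)
  rw [lz_neg_one (hP p hp).1] at hs
  rw [← hs]
  congr 1
  funext i
  simp [Pool.Agent.NH1.rd]

theorem bl_neg (q : ℕ) (v : V3) : bl q (-v) (-v) = bl q v v := by
  by_cases h : q = 5
  · rw [T3.bl5 h, T3.bl5 h]
    simp only [Pi.neg_apply]
    ring
  · rw [T3.bl3 h, T3.bl3 h]
    simp only [Pi.neg_apply]
    ring

theorem sum_neg {q : ℕ} (hq : q = 3 ∨ q = 5) (n : ℤ) (F : V3 → ℤ) :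
    ∑ v ∈ vec q n, F v = ∑ v ∈ vec q n, F (-v) := by
  refine Finset.sum_nbij' (fun v => -v) (fun v => -v) ?_ ?_ ?_ ?_ ?_
  · intro v hv
    rw [T3.vec_mem hq] at hv ⊢
    rw [bl_neg, hv]
  · intro v hv
    rw [T3.vec_mem hq] at hv ⊢
    rw [bl_neg, hv]
  · intro v _
    exact neg_neg v
  · intro v _
    exact neg_neg v
  · intro v _
    rw [neg_neg]

/-! ### the prime -/

theorem nonres {p : ℕ} (hp : p.Prime) (h2 : p ≠ 2) : ∃ a : ℕ, jacobiSym a p = -1 := by
  have : Fact p.Prime := ⟨hp⟩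
  obtain ⟨a, ha⟩ := FiniteField.exists_nonsquare (F := ZMod p) (by rw [ZMod.ringChar_zmod_n]; exact h2)
  refine ⟨a.val, ?_⟩
  rw [← jacobiSym.legendreSym.to_jacobiSym, legendreSym.eq_neg_one_iff]
  push_cast
  rw [ZMod.natCast_zmod_val]
  exact ha

theorem exists_prime {N P : Finset ℕ} (hN : Pq N) (hP : P ⊆ N) (hne : P.Nonempty)
    (hne' : (N \ P).Nonempty) (B : ℕ) : ∃ l : ℕ, l.Prime ∧ B < l ∧ jacobiSym l (pr P) = -1 ∧
      jacobiSym l (pr (N \ P)) = -1 := by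
  classical
  obtain ⟨p0, hp0⟩ := hne
  obtain ⟨p1, hp1⟩ := hne'
  have hp1' := Finset.mem_sdiff.1 hp1
  obtain ⟨a0, ha0⟩ := nonres (hN p0 (hP hp0)).1 (hN p0 (hP hp0)).2.1
  obtain ⟨a1, ha1⟩ := nonres (hN p1 hp1'.1).1 (hN p1 hp1'.1).2.1
  have h01 : p1 ≠ p0 := fun h => hp1'.2 (h ▸ hp0)
  set f : ℕ → ℕ := fun p => if p = p0 then a0 else if p = p1 then a1 else 1 with hf
  have f0 : f p0 = a0 := by rw [hf]; simp
  have f1 : f p1 = a1 := by rw [hf]; simp [h01]
  have f2 : ∀ p, p ≠ p0 → p ≠ p1 → f p = 1 := fun p h h' => by rw [hf]; simp [h, h']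
  have hfc : ∀ p ∈ N, Nat.Coprime (f p) p := by
    intro p hp
    by_cases h : p = p0
    · subst h
      rw [f0]
      by_contra hc
      have : NeZero p := ⟨(hN p hp).1.ne_zero⟩
      have := (jacobiSym.eq_zero_iff_not_coprime (a := (a0 : ℤ)) (b := p)).2
        (by rwa [Int.gcd_natCast_natCast])
      rw [this] at ha0
      norm_num at ha0
    · by_cases h' : p = p1
      · subst h'
        rw [f1]
        by_contra hc
        have : NeZero p := ⟨(hN p hp).1.ne_zero⟩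
        have := (jacobiSym.eq_zero_iff_not_coprime (a := (a1 : ℤ)) (b := p)).2
          (by rwa [Int.gcd_natCast_natCast])
        rw [this] at ha1
        norm_num at ha1
      · rw [f2 p h h']
        exact Nat.coprime_one_left p
  obtain ⟨k, hk⟩ := Nat.chineseRemainderOfFinset f (fun p => p) N
    (fun i hi => (hN i hi).1.ne_zero) (fun i hi j hj hij =>
      (Nat.coprime_primes (hN i hi).1 (hN j hj).1).2 hij)
  have hc : Nat.Coprime k (pr N) := by
    refine Nat.Coprime.prod_right fun p hp => ?_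
    have h1 := hk p hp
    have h2 := hfc p hp
    unfold Nat.Coprime at h2 ⊢
    rw [h1.gcd_eq, h2]
  obtain ⟨l, hl, hlp, hlk⟩ := Nat.forall_exists_prime_gt_and_modEq B (pr_pos hN).ne' hc
  have hj : ∀ p ∈ N, jacobiSym l p = jacobiSym (f p) p := by
    intro p hp
    have h1 : l ≡ k [MOD p] := hlk.of_dvd (Finset.dvd_prod_of_mem _ hp)
    have h2 := h1.trans (hk p hp)
    refine jacobiSym.mod_left' ?_
    exact_mod_cast h2
  refine ⟨l, hlp, hl, ?_, ?_⟩
  · rw [jac_prod_right fun p hp => (hN p (hP hp)).1.ne_zero,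
      Finset.prod_eq_single_of_mem p0 hp0]
    · rw [hj p0 (hP hp0), f0, ha0]
    · intro p hp hne
      have h3 : p ≠ p1 := fun h => hp1'.2 (h ▸ hp)
      rw [hj p (hP hp), f2 p hne h3]
      simp
  · rw [jac_prod_right fun p hp => (hN p (Finset.mem_sdiff.1 hp).1).1.ne_zero,
      Finset.prod_eq_single_of_mem p1 hp1]
    · rw [hj p1 hp1'.1, f1, ha1]
    · intro p hp hne
      have hp' := Finset.mem_sdiff.1 hp
      have h3 : p ≠ p0 := fun h => hp'.2 (h ▸ hp0)
      rw [hj p hp'.1, f2 p h3 hne]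
      simp

theorem exists_root {n l : ℕ} (hn : n % 4 = 3) (hl : l.Prime) (hln : ¬ l ∣ n) (hl2 : l ≠ 2)
    (hj : jacobiSym l n = 1) :
    ∃ r d' : ℤ, (n : ℤ) + r ^ 2 = l * d' ∧ IsCoprime (l : ℤ) d' := by
  have : Fact l.Prime := ⟨hl⟩
  have hlo : Odd l := hl.odd_of_ne_two hl2
  have hno : Odd n := Nat.odd_iff.2 (by omega)
  have h1 : jacobiSym (-(n : ℤ)) l = 1 := by
    have e1 : (-(n : ℤ)) = (-1) * (n : ℤ) := by ring
    rw [e1, jacobiSym.mul_left, jacobiSym.at_neg_one hlo,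
      ZMod.χ₄_eq_neg_one_pow (Nat.odd_iff.1 hlo), jacobiSym.quadratic_reciprocity hno hlo, hj,
      mul_one, ← pow_add]
    have h2 : Even (l / 2 + n / 2 * (l / 2)) := by
      have h3 : Odd (n / 2) := Nat.odd_iff.2 (by omega)
      have h4 : l / 2 + n / 2 * (l / 2) = (n / 2 + 1) * (l / 2) := by ring
      rw [h4]
      exact (h3.add_odd odd_one).mul_right _
    exact h2.neg_one_pow
  rw [← jacobiSym.legendreSym.to_jacobiSym] at h1
  have hn0 : ((-(n : ℤ) : ℤ) : ZMod l) ≠ 0 := by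
    intro h
    rw [ZMod.intCast_zmod_eq_zero_iff_dvd, dvd_neg] at h
    exact hln (by exact_mod_cast h)
  obtain ⟨y, hy⟩ := (legendreSym.eq_one_iff l hn0).1 h1
  have hroot : (l : ℤ) ∣ (y.val : ℤ) ^ 2 + n := by
    rw [← ZMod.intCast_zmod_eq_zero_iff_dvd]
    push_cast at hy ⊢
    rw [ZMod.natCast_zmod_val, pow_two, ← hy]
    ring
  have hlZ : Prime (l : ℤ) := Nat.prime_iff_prime_int.1 hl
  have hr0 : ¬ (l : ℤ) ∣ (y.val : ℤ) := by
    intro h
    have h2 : (l : ℤ) ∣ (n : ℤ) := by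
      have h3 : (l : ℤ) ∣ (y.val : ℤ) ^ 2 := dvd_pow h two_ne_zero
      exact (dvd_add_right h3).1 hroot
    exact hln (by exact_mod_cast h2)
  have hfin : ∀ r : ℤ, (l : ℤ) ∣ r ^ 2 + n → ¬ (l : ℤ) * l ∣ r ^ 2 + n →
      ∃ r d' : ℤ, (n : ℤ) + r ^ 2 = l * d' ∧ IsCoprime (l : ℤ) d' := by
    intro r h2 h3
    obtain ⟨d', hd⟩ := h2
    refine ⟨r, d', by rw [add_comm, hd], ?_⟩
    rw [hlZ.coprime_iff_not_dvd]
    intro h4
    apply h3
    rw [hd]
    exact mul_dvd_mul_left _ h4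
  by_cases hc : (l : ℤ) * l ∣ (y.val : ℤ) ^ 2 + n
  · refine hfin ((y.val : ℤ) + l) ?_ ?_
    · have e : ((y.val : ℤ) + l) ^ 2 + n = ((y.val : ℤ) ^ 2 + n) + l * (2 * y.val + l) := by ring
      rw [e]
      exact dvd_add hroot (Dvd.intro _ rfl)
    · intro h5
      have e : ((y.val : ℤ) + l) ^ 2 + n = ((y.val : ℤ) ^ 2 + n) + l * (2 * y.val + l) := by ring
      rw [e] at h5
      have h6 := (dvd_add_right hc).1 h5
      have h7 := (mul_dvd_mul_iff_left hlZ.ne_zero).1 h6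
      have h8 : (l : ℤ) ∣ 2 * (y.val : ℤ) := (dvd_add_left (dvd_refl _)).1 h7
      rcases hlZ.dvd_or_dvd h8 with h9 | h9
      · have h10 : l ∣ 2 := by exact_mod_cast h9
        exact hl2 ((Nat.prime_dvd_prime_iff_eq hl Nat.prime_two).1 h10)
      · exact hr0 h9
  · exact hfin _ hroot hc

/-! ### finiteness -/

theorem Q_left (x y : ℤ) : 3 * x ^ 2 ≤ 4 * (x ^ 2 + x * y + y ^ 2) := by
  nlinarith [sq_nonneg (x + 2 * y)]

theorem Q_right (x y : ℤ) : 3 * y ^ 2 ≤ 4 * (x ^ 2 + x * y + y ^ 2) := by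
  nlinarith [sq_nonneg (2 * x + y)]

theorem sq_bd (x : ℤ) : x ≤ x ^ 2 ∧ -x ≤ x ^ 2 := by
  refine ⟨Int.le_self_sq x, ?_⟩
  have := Int.le_self_sq (-x)
  rwa [neg_sq] at this

theorem fin_nr (q : ℕ) (l : ℤ) : {x : QA q ℤ | nr x = l}.Finite := by
  have hf : ((fun t : ℤ × ℤ × ℤ × ℤ => (⟨t.1, t.2.1, t.2.2.1, t.2.2.2⟩ : QA q ℤ)) ''
      (Set.Icc (-(5 * l)) (5 * l) ×ˢ (Set.Icc (-(5 * l)) (5 * l) ×ˢ
        (Set.Icc (-(5 * l)) (5 * l) ×ˢ Set.Icc (-(5 * l)) (5 * l))))).Finite :=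
    ((Set.finite_Icc _ _).prod ((Set.finite_Icc _ _).prod
      ((Set.finite_Icc _ _).prod (Set.finite_Icc _ _)))).image _
  refine hf.subset fun x hx => ?_
  have hx' : nr x = l := hx
  refine ⟨(x.a, x.b, x.c, x.d), ?_, rfl⟩
  simp only [Set.mem_prod, Set.mem_Icc]
  by_cases h : q = 5
  · have h1 := T3.three_nr h x
    rw [hx'] at h1
    have h2 := T3.Q_nonneg (3 * x.a + x.c + 2 * x.d) (3 * x.b - 2 * x.c - x.d)
    have h3 := T3.Q_nonneg x.c x.d
    have h4 := Q_left x.c x.d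
    have h5 := Q_right x.c x.d
    have h6 := Q_left (3 * x.a + x.c + 2 * x.d) (3 * x.b - 2 * x.c - x.d)
    have h7 := Q_right (3 * x.a + x.c + 2 * x.d) (3 * x.b - 2 * x.c - x.d)
    have h8 := sq_bd x.c
    have h9 := sq_bd x.d
    have h10 := sq_bd (3 * x.a + x.c + 2 * x.d)
    have h11 := sq_bd (3 * x.b - 2 * x.c - x.d)
    refine ⟨⟨?_, ?_⟩, ⟨?_, ?_⟩, ⟨?_, ?_⟩, ?_, ?_⟩ <;> omega
  · have h1 := T3.nr3 h x
    rw [hx'] at h1
    have h2 := T3.Q_nonneg x.a x.b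
    have h3 := T3.Q_nonneg x.c x.d
    have h4 := Q_left x.a x.b
    have h5 := Q_right x.a x.b
    have h6 := Q_left x.c x.d
    have h7 := Q_right x.c x.d
    have h8 := sq_bd x.a
    have h9 := sq_bd x.b
    have h10 := sq_bd x.c
    have h11 := sq_bd x.d
    refine ⟨⟨?_, ?_⟩, ⟨?_, ?_⟩, ⟨?_, ?_⟩, ?_, ?_⟩ <;> omega

/-! ### transport -/

open Classical in
/-- the transported vector -/
noncomputable def tv (q : ℕ) (l r : ℤ) (z : V3 × QA q ℤ) : V3 :=
  if h : ∃ w, Tp q l r z.2 z.1 w then h.choose else 0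

theorem tv_spec {q : ℕ} {l r : ℤ} {z : V3 × QA q ℤ} (h : ∃ w, Tp q l r z.2 z.1 w) :
    Tp q l r z.2 z.1 (tv q l r z) := by
  unfold tv
  rw [dif_pos h]
  exact h.choose_spec

open Classical in
/-- the pairs -/
noncomputable def XX (q : ℕ) (n l r : ℤ) (E : Finset (QA q ℤ)) : Finset (V3 × QA q ℤ) :=
  (vec q n ×ˢ E).filter fun z => ∃ w, Tp q l r z.2 z.1 w

theorem count {q : ℕ} (hq : q = 3 ∨ q = 5) (hx : S_EX) (hu : S_UN) {n l d' r : ℤ} (hl : 0 < l)
    (hn : n + r ^ 2 = l * d') (hcop : IsCoprime l d') (F : V3 → ℤ) (E U : Finset (QA q ℤ))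
    (hE : ∀ x, x ∈ E ↔ nr x = l) (hU : ∀ u, u ∈ U ↔ nr u = 1) :
    ∑ z ∈ XX q n l r E, F z.1 = U.card * ∑ v ∈ vec q n, F v := by
  classical
  unfold XX
  rw [Finset.sum_filter, Finset.sum_product, Finset.mul_sum]
  refine Finset.sum_congr rfl fun v hv => ?_
  dsimp only
  rw [← Finset.sum_filter, Finset.sum_const, nsmul_eq_mul]
  congr 1
  have hbl : bl q v v + r ^ 2 = l * d' := by rw [(T3.vec_mem hq).1 hv, hn]
  obtain ⟨x0, w0, -, -, h0, -⟩ := hx q hq v l d' r hl hbl hcop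
  have hx0 : x0 ≠ 0 := T3.ne_zero_of_nr hl.ne' h0.norm
  norm_cast
  symm
  refine Finset.card_bij (fun u _ => u * x0) ?_ ?_ ?_
  · intro u hu'
    rw [hU] at hu'
    rw [mem_filter, hE]
    obtain ⟨w', hw'⟩ := T3.Tp.unit h0 hu'
    exact ⟨hw'.norm, w', hw'⟩
  · intro u _ u' _ he
    exact T3.mul_cancel_right hx0 he
  · intro x hx'
    rw [mem_filter] at hx'
    obtain ⟨w, hw⟩ := hx'.2
    obtain ⟨u, hu1, hu2⟩ := hu q hq v w0 w l d' r x0 x hl hbl hcop h0 hw
    exact ⟨u, (hU u).2 hu1, hu2.symm⟩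

theorem transport {q : ℕ} (hq : q = 3 ∨ q = 5) {n l r : ℤ} (hl : 0 < l) (F G : V3 → ℤ)
    (E : Finset (QA q ℤ)) (hE : ∀ x, x ∈ E ↔ nr x = l)
    (h : ∀ v ∈ vec q n, ∀ x w, Tp q l r x v w → F v = G w) :
    ∑ z ∈ XX q n l r E, F z.1 = ∑ z ∈ XX q n l (-r) E, G z.1 := by
  classical
  have key : ∀ s : ℤ, ∀ z ∈ XX q n l s E, Tp q l s z.2 z.1 (tv q l s z) ∧
      (tv q l s z, cj z.2) ∈ XX q n l (-s) E := by
    intro s z hz
    unfold XX at hz ⊢
    rw [mem_filter, mem_product] at hz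
    have h1 := tv_spec hz.2
    refine ⟨h1, ?_⟩
    rw [mem_filter, mem_product]
    refine ⟨⟨?_, ?_⟩, z.1, T3.Tp.symm h1⟩
    · rw [T3.vec_mem hq]
      show bl q (tv q l s z) (tv q l s z) = n
      rw [T3.Tp.bl_eq hl.ne' h1, (T3.vec_mem hq).1 hz.1.1]
    · rw [hE]
      exact (T3.Tp.symm h1).norm
  refine Finset.sum_nbij' (fun z => (tv q l r z, cj z.2)) (fun z => (tv q l (-r) z, cj z.2))
    ?_ ?_ ?_ ?_ ?_
  · intro z hz
    exact (key r z hz).2
  · intro z hz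
    have := (key (-r) z hz).2
    rwa [neg_neg] at this
  · intro z hz
    have h1 := (key r z hz).1
    have h2 := tv_spec (q := q) (l := l) (r := -r) (z := (tv q l r z, cj z.2)) ⟨z.1, T3.Tp.symm h1⟩
    have h3 := T3.Tp.det hl.ne' h2 (T3.Tp.symm h1)
    exact Prod.ext h3 (cj_cj z.2)
  · intro z hz
    have h1 := (key (-r) z hz).1
    have h1' := T3.Tp.symm h1
    rw [neg_neg] at h1'
    have h2 := tv_spec (q := q) (l := l) (r := r) (z := (tv q l (-r) z, cj z.2)) ⟨z.1, h1'⟩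
    have h3 := T3.Tp.det hl.ne' h2 h1'
    exact Prod.ext h3 (cj_cj z.2)
  · intro z hz
    have h1 := (key r z hz).1
    have hz' := hz
    unfold XX at hz'
    rw [mem_filter, mem_product] at hz'
    exact h _ hz'.1.1 _ _ h1

end V4X

open V4X in
theorem t_V4 (h0 : S_PHI) (_h1 : S_REF) (hx : S_EX) (hu : S_UN) (hc : S_CH) : S_V4 := by
  classical
  intro q hq N hN h5 h3 P hP hne
  have hn4 : pr N % 4 = 3 := by
    rcases hq with rfl | rfl
    · have := h3 rfl
      unfold Kd at this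
      omega
    · have := h5 rfl
      unfold Kb at this
      omega
  by_cases hPN : P = N
  · subst hPN
    have hj : jacobiSym (-1) (pr P) = -1 := by
      rw [jacobiSym.at_neg_one (Nat.odd_iff.2 (by omega)), ZMod.χ₄_nat_three_mod_four hn4]
    have h := sum_neg hq (pr P : ℤ) (Ph q P)
    rw [Finset.sum_congr rfl fun v _ => Ph_neg h0 hq hN v, ← Finset.mul_sum, hj] at h
    linarith
  · have hne' : (N \ P).Nonempty := by
      rw [Finset.sdiff_nonempty]
      exact fun h => hPN (Finset.Subset.antisymm hP h)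
    obtain ⟨l, hl, hlB, hlP, hlR⟩ := exists_prime hN hP hne hne' (30 * pr N)
    have hn0 := pr_pos hN
    have hprod : pr N = pr P * pr (N \ P) := by
      unfold Pool.Agent.Z700.pr
      rw [mul_comm, Finset.prod_sdiff hP]
    have hP0 : pr P ≠ 0 := (pr_pos fun p hp => hN p (hP hp)).ne'
    have hR0 : pr (N \ P) ≠ 0 :=
      (pr_pos fun p hp => hN p (Finset.mem_sdiff.1 hp).1).ne'
    have hln : ¬ l ∣ pr N := fun h => by
      have := Nat.le_of_dvd hn0 h
      omega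
    have hj : jacobiSym l (pr N) = 1 := by
      rw [hprod, jacobiSym.mul_right' _ hP0 hR0, hlP, hlR]
      norm_num
    obtain ⟨r, d', hr, hcop⟩ := exists_root hn4 hl hln (by omega) hj
    have hlpos : (0 : ℤ) < l := by exact_mod_cast hl.pos
    set E := (fin_nr q (l : ℤ)).toFinset with hEdef
    set U := (fin_nr q 1).toFinset with hUdef
    have hE : ∀ x, x ∈ E ↔ nr x = (l : ℤ) := fun x => by
      rw [hEdef, Set.Finite.mem_toFinset]
      rfl
    have hU : ∀ x, x ∈ U ↔ nr x = 1 := fun x => by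
      rw [hUdef, Set.Finite.mem_toFinset]
      rfl
    have c1 := count hq hx hu hlpos hr hcop (Ph q P) E U hE hU
    have c2 := count hq hx hu (r := -r) hlpos (by rw [neg_sq, hr]) hcop
      (fun v => -Ph q P v) E U hE hU
    have c3 := transport hq (n := (pr N : ℤ)) (r := r) hlpos (Ph q P) (fun v => -Ph q P v) E hE
      (by
        intro v hv x w ht
        have hvv := (T3.vec_mem hq).1 hv
        have h6 : Ph q P w = jacobiSym l (pr P) * Ph q P v := by
          rw [jac_prod_right fun p hp => (hN p (hP hp)).1.ne_zero]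
          unfold Ph
          rw [← Finset.prod_mul_distrib]
          refine Finset.prod_congr rfl fun p hp => ?_
          have hpN := hN p (hP hp)
          have hpn : p ∣ pr N := Finset.dvd_prod_of_mem _ (hP hp)
          have h7 := hc q hq p hpN.1 hpN.2.1 hpN.2.2.1 hpN.2.2.2 (ph q p)
            (spec h0 hq hN (hP hp)) x v w (by
              rw [ht.norm]
              intro h8
              have h9 : p ∣ l := by exact_mod_cast h8
              have h10 := (Nat.prime_dvd_prime_iff_eq hpN.1 hl).1 h9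
              exact hln (h10 ▸ hpn)) (by rw [hvv]; exact_mod_cast hpn)
              (not_dvd hN hvv (hP hp)) ht.comm
          rw [h7, ht.norm]
        rw [hlP] at h6
        rw [h6]
        ring)
    rw [c1, c2, Finset.sum_neg_distrib] at c3
    have hU0 : (U.card : ℤ) ≠ 0 := by
      have : (1 : QA q ℤ) ∈ U := (hU 1).2 nr_one
      have h8 : 0 < U.card := Finset.card_pos.2 ⟨1, this⟩
      exact_mod_cast h8.ne'
    have h9 : (U.card : ℤ) * (2 * ∑ v ∈ vec q (pr N : ℤ), Ph q P v) = 0 := by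
      linear_combination c3
    have h10 := (mul_eq_zero.1 h9).resolve_left hU0
    linarith

open V4X in
theorem t_EQU (h0 : S_PHI) (h : S_V4) : S_EQU := by
  classical
  intro q hq N hN h5 h3 γ hγ
  have key : ∀ v ∈ vec q (pr N : ℤ), ∑ P ∈ N.powerset, (∏ p ∈ P, γ p) * Ph q P v =
      if (∀ p ∈ N, ph q p (rd p v) = γ p) then (2 : ℤ) ^ N.card else 0 := by
    intro v hv
    rw [T3.vec_mem hq] at hv
    have e1 : ∑ P ∈ N.powerset, (∏ p ∈ P, γ p) * Ph q P v =
        ∏ p ∈ N, (1 + γ p * ph q p (rd p v)) := by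
      rw [Finset.prod_one_add]
      refine Finset.sum_congr rfl fun P _ => ?_
      unfold Ph
      rw [Finset.prod_mul_distrib]
    rw [e1]
    split_ifs with hc
    · rw [← Finset.prod_const]
      refine Finset.prod_congr rfl fun p hp => ?_
      rw [hc p hp]
      rcases hγ p hp with h | h <;> rw [h] <;> norm_num
    · push Not at hc
      obtain ⟨p, hp, hne⟩ := hc
      refine Finset.prod_eq_zero hp ?_
      rcases hγ p hp with h1 | h1 <;> rcases ph_pm h0 hq hN hv hp with h2 | h2 <;>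
        first | exact absurd (h2.trans h1.symm) hne | (rw [h1, h2]; norm_num)
  have e2 : ∑ v ∈ vec q (pr N : ℤ), ∑ P ∈ N.powerset, (∏ p ∈ P, γ p) * Ph q P v =
      ((vec q (pr N : ℤ)).card : ℤ) := by
    rw [Finset.sum_comm]
    rw [Finset.sum_eq_single ∅]
    · simp [Ph]
    · intro P hP hne
      rw [← Finset.mul_sum, h q hq N hN h5 h3 P (Finset.mem_powerset.1 hP)
        (Finset.nonempty_iff_ne_empty.2 hne), mul_zero]
    · intro hn
      exact absurd (Finset.mem_powerset.2 (Finset.empty_subset _)) hn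
  rw [Finset.sum_congr rfl key, ← Finset.sum_filter, Finset.sum_const, nsmul_eq_mul] at e2
  have e4 : Nat.card {v : V3 // v ∈ vec q (pr N : ℤ) ∧ ∀ p ∈ N, ph q p (rd p v) = γ p} =
      ((vec q (pr N : ℤ)).filter fun v => ∀ p ∈ N, ph q p (rd p v) = γ p).card := by
    refine Nat.subtype_card _ fun v => ?_
    rw [mem_filter]
  rw [e4]
  have e5 : (2 : ℤ) ^ N.card * (((vec q (pr N : ℤ)).filter fun v => ∀ p ∈ N,
      ph q p (rd p v) = γ p).card : ℤ) = ((vec q (pr N : ℤ)).card : ℤ) := by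
    rw [← e2, mul_comm]
  exact_mod_cast e5

end Pool.Agent.XV
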