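import Pool.Agent.XV.T3.Defs

/-!
# Project XV, T3: the divisibility lemma for quaternions
-/

set_option autoImplicit false

namespace Pool.Agent.XV

open QA

namespace DV

/-- the reduction modulo `p` -/
def red (q p : ℕ) (x : QA q ℤ) : QA q (ZMod p) := ⟨x.a, x.b, x.c, x.d⟩

theorem red_mul (q p : ℕ) (x y : QA q ℤ) : red q p (x * y) = red q p x * red q p y := by
  ext <;> simp [red]

theorem red_nr (q p : ℕ) (x : QA q ℤ) : nr (red q p x) = ((nr x : ℤ) : ZMod p) := by
  simp [red, nr]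

theorem red_tr (q p : ℕ) (x : QA q ℤ) : tr (red q p x) = ((tr x : ℤ) : ZMod p) := by
  simp [red, tr]

theorem red_zero {q p : ℕ} {x : QA q ℤ} (h : red q p x = 0) :
    (p : ℤ) ∣ x.a ∧ (p : ℤ) ∣ x.b ∧ (p : ℤ) ∣ x.c ∧ (p : ℤ) ∣ x.d := by
  have h1 := congrArg QA.a h
  have h2 := congrArg QA.b h
  have h3 := congrArg QA.c h
  have h4 := congrArg QA.d h
  simp only [red, zero_a, zero_b, zero_c, zero_d] at h1 h2 h3 h4
  exact ⟨(ZMod.intCast_zmod_eq_zero_iff_dvd _ _).1 h1, (ZMod.intCast_zmod_eq_zero_iff_dvd _ _).1 h2,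
    (ZMod.intCast_zmod_eq_zero_iff_dvd _ _).1 h3, (ZMod.intCast_zmod_eq_zero_iff_dvd _ _).1 h4⟩

variable {q : ℕ} {K : Type*} [Field K]

/-- the trace form is not degenerate -/
theorem nondeg (hq : q = 3 ∨ q = 5) (h3 : (3 : K) ≠ 0) (h5 : (5 : K) ≠ 0) (x : QA q K)
    (h : ∀ u : QA q K, tr (x * u) = 0) : x = 0 := by
  have e1 := h ⟨1, 0, 0, 0⟩
  have e2 := h ⟨0, 1, 0, 0⟩
  have e3 := h ⟨0, 0, 1, 0⟩
  have e4 := h ⟨0, 0, 0, 1⟩
  simp only [tr, mul_a, mul_b, mul_d] at e1 e2 e3 e4
  rcases hq with hq | hq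
  · subst hq
    have t0 : tt 3 = 0 := by decide
    have m0 : mm 3 = 1 := by decide
    simp only [t0, m0, Int.cast_zero, Int.cast_one] at e1 e2 e3 e4
    have a1 : 3 * x.a = 0 := by linear_combination e1 + e2
    have a0 : x.a = 0 := (mul_eq_zero.1 a1).resolve_left h3
    have b0 : x.b = 0 := by linear_combination e1 - 2 * a0
    have d1 : 3 * x.d = 0 := by linear_combination e3 - 2 * e4
    have d0 : x.d = 0 := (mul_eq_zero.1 d1).resolve_left h3
    have c0 : x.c = 0 := by linear_combination - e4 - 2 * d0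
    ext
    · exact a0
    · exact b0
    · exact c0
    · exact d0
  · subst hq
    have t0 : tt 5 = 1 := by decide
    have m0 : mm 5 = 2 := by decide
    simp only [t0, m0, Int.cast_one, Int.cast_ofNat] at e1 e2 e3 e4
    have e1' : 2 * x.a + x.b + x.d = 0 := by linear_combination e1
    have e2' : x.a - x.b + x.c + x.d = 0 := by linear_combination e2
    have e3' : -4 * x.c - 2 * x.d + x.b = 0 := by linear_combination e3
    have e4' : -2 * x.c - 3 * x.d + x.a + x.b = 0 := by linear_combination e4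
    have d1 : 5 * x.d = 0 := by linear_combination e1' - 2 * e4' + e3'
    have d0 : x.d = 0 := (mul_eq_zero.1 d1).resolve_left h5
    have c1 : 5 * x.c = 0 := by linear_combination - e2' + e4' - 2 * e3'
    have c0 : x.c = 0 := (mul_eq_zero.1 c1).resolve_left h5
    have b0 : x.b = 0 := by linear_combination e3' + 4 * c0 + 2 * d0
    have a0 : x.a = 0 := by linear_combination e2' + b0 - c0 - d0
    ext
    · exact a0
    · exact b0
    · exact c0
    · exact d0

theorem sc_zero : (sc 0 : QA q K) = 0 := by ext <;> simp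

theorem sc_one : (sc 1 : QA q K) = 1 := by ext <;> simp

/-- the lemma over a field -/
theorem main (hq : q = 3 ∨ q = 5) (h3 : (3 : K) ≠ 0) (h5 : (5 : K) ≠ 0) (x v w : QA q K)
    (hx : nr x = 0) (hv : nr v = 0) (ht : tr v = 0) (hc : x * v = w * x) : x * v = 0 := by
  by_cases h0 : x = 0
  · rw [h0, zero_mul]
  obtain ⟨u', hu'⟩ : ∃ u : QA q K, tr (x * u) ≠ 0 := by
    by_contra hcon
    push Not at hcon
    exact h0 (nondeg hq h3 h5 x hcon)
  set s : K := tr (x * u') with hs
  set u : QA q K := u' * sc s⁻¹ with hu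
  have hsc : ∀ (r : K) (y : QA q K), tr (y * sc r) = tr y * r := by
    intro r y
    simp [tr]
    ring
  have htu : tr (x * u) = 1 := by
    rw [hu, ← mul_assoc, hsc, ← hs, mul_inv_cancel₀ hu']
  have hut : tr (u * x) = 1 := by rw [← tr_mul_comm, htu]
  have k1 : x * u + cj u * cj x = 1 := by
    rw [← cj_mul, add_cj, htu, sc_one]
  have k2 : u * x + cj x * cj u = 1 := by
    rw [← cj_mul, add_cj, hut, sc_one]
  obtain ⟨z, hz⟩ : ∃ z : QA q K, z = x * v := ⟨_, rfl⟩
  rw [← hz] at hc ⊢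
  have z1 : cj x * z = 0 := by
    rw [hz, ← mul_assoc, cj_mul_self, hx, sc_zero, zero_mul]
  have z2 : z * cj x = 0 := by
    rw [hc, mul_assoc, mul_cj, hx, sc_zero, mul_zero]
  have z3 : z = x * u * z := by
    calc z = (x * u + cj u * cj x) * z := by rw [k1, one_mul]
      _ = x * u * z + cj u * (cj x * z) := by rw [add_mul, mul_assoc (cj u)]
      _ = x * u * z := by rw [z1, mul_zero, add_zero]
  have z4 : z = z * u * x := by
    calc z = z * (u * x + cj x * cj u) := by rw [k2, mul_one]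
      _ = z * u * x + z * cj x * cj u := by rw [mul_add, ← mul_assoc z u x, ← mul_assoc z (cj x)]
      _ = z * u * x := by rw [z2, zero_mul, add_zero]
  have z5 : z = sc (tr (x * (u * z * u))) * x := by
    calc z = x * u * z := z3
      _ = x * u * (z * u * x) := by rw [← z4]
      _ = x * (u * z * u) * x := by simp only [mul_assoc]
      _ = sc (tr (x * (u * z * u))) * x := by rw [sandwich, hx, sc_zero, zero_mul, sub_zero]
  set lam : K := tr (x * (u * z * u)) with hlam
  have vv : v * v = 0 := by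
    have e1 : v + cj v = 0 := by rw [add_cj, ht, sc_zero]
    have e2 : v = - cj v := eq_neg_of_add_eq_zero_left e1
    have e3 : v * cj v = 0 := by rw [mul_cj, hv, sc_zero]
    calc v * v = v * (- cj v) := by rw [← e2]
      _ = 0 := by rw [mul_neg, e3, neg_zero]
  have z6 : sc lam * z = 0 := by
    calc sc lam * z = sc lam * x * v := by rw [hz, mul_assoc]
      _ = z * v := by rw [← z5]
      _ = 0 := by rw [hz, mul_assoc, vv, mul_zero]
  by_cases hl : lam = 0
  · rw [z5, hl, sc_zero, zero_mul]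
  · calc z = sc 1 * z := by rw [sc_one, one_mul]
      _ = sc (lam⁻¹) * (sc lam * z) := by rw [← mul_assoc, sc_mul, inv_mul_cancel₀ hl]
      _ = 0 := by rw [z6, mul_zero]

theorem dvd_sq {d : ℕ} (hd : Squarefree d) (n : ℤ) (h : ∀ p : ℕ, p.Prime → p ∣ d → (p : ℤ) ∣ n) :
    (d : ℤ) ∣ n := by
  rw [← Nat.prod_primeFactors_of_squarefree hd, Int.natCast_dvd]
  refine Finset.prod_primes_dvd _ (fun p hp => (Nat.prime_of_mem_primeFactors hp).prime)
    fun p hp => ?_
  rw [← Int.natCast_dvd]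
  exact h p (Nat.prime_of_mem_primeFactors hp) (Nat.dvd_of_mem_primeFactors hp)

end DV

open DV in
/-- **DV** -/
theorem t_DV : S_DV := by
  intro q hq d hd hc x v w hx hv ht hxv
  have key : ∀ p : ℕ, p.Prime → p ∣ d → red q p (x * v) = 0 := by
    intro p hp hpd
    have : Fact p.Prime := ⟨hp⟩
    have hp15 : Nat.Coprime p 15 := Nat.Coprime.coprime_dvd_left hpd hc
    have hcop : ∀ k : ℕ, k ∣ 15 → ((k : ℕ) : ZMod p) ≠ 0 := by
      intro k hk h
      rw [ZMod.natCast_eq_zero_iff] at h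
      have h1 : p ∣ 1 := by
        rw [← hp15]
        exact Nat.dvd_gcd dvd_rfl (h.trans hk)
      exact hp.one_lt.ne' (Nat.dvd_one.1 h1)
    have h3 : ((3 : ℕ) : ZMod p) ≠ 0 := hcop 3 (by norm_num)
    have h5 : ((5 : ℕ) : ZMod p) ≠ 0 := hcop 5 (by norm_num)
    have hpz : (p : ℤ) ∣ d := Int.natCast_dvd_natCast.2 hpd
    rw [red_mul]
    refine main hq (by exact_mod_cast h3) (by exact_mod_cast h5) _ (red q p v) (red q p w) ?_ ?_ ?_ ?_
    · rw [red_nr, ZMod.intCast_zmod_eq_zero_iff_dvd]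
      exact hpz.trans hx
    · rw [red_nr, ZMod.intCast_zmod_eq_zero_iff_dvd]
      exact hpz.trans hv
    · rw [red_tr, ht, Int.cast_zero]
    · rw [← red_mul, ← red_mul, hxv]
  obtain ⟨a, ha⟩ := dvd_sq hd (x * v).a fun p hp hpd => (red_zero (key p hp hpd)).1
  obtain ⟨b, hb⟩ := dvd_sq hd (x * v).b fun p hp hpd => (red_zero (key p hp hpd)).2.1
  obtain ⟨c, hc'⟩ := dvd_sq hd (x * v).c fun p hp hpd => (red_zero (key p hp hpd)).2.2.1
  obtain ⟨e, he⟩ := dvd_sq hd (x * v).d fun p hp hpd => (red_zero (key p hp hpd)).2.2.2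
  refine ⟨⟨a, b, c, e⟩, ?_⟩
  ext
  · rw [ha]; simp
  · rw [hb]; simp
  · rw [hc']; simp
  · rw [he]; simp

end Pool.Agent.XV
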