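import Pool.Agent.XV.T3.Defs
import Pool.Agent.XV.Van

set_option autoImplicit false

/-!
# Project XV, T3: the number of vectors of `L 3` is divisible by `6 * 2 ^ N.card` (helper26)
-/

namespace Pool.Agent.XV

open Finset
open Pool.Agent.Z700 (V3 pr un hh)
open Pool.Agent.NH1 (lz rd)

namespace V3X

/-- a free map of order three -/
theorem three (S : Finset V3) (g : V3 → V3) (hg : ∀ v ∈ S, g v ∈ S)
    (h3 : ∀ v ∈ S, g (g (g v)) = v) (hf : ∀ v ∈ S, g v ≠ v) : 3 ∣ S.card := by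
  classical
  by_contra hn
  have : Fact (Nat.Prime 3) := ⟨Nat.prime_three⟩
  let σ : Equiv.Perm {v // v ∈ S} :=
    { toFun := fun v => ⟨g v, hg v v.2⟩
      invFun := fun v => ⟨g (g v), hg _ (hg v v.2)⟩
      left_inv := fun v => Subtype.ext (h3 v v.2)
      right_inv := fun v => Subtype.ext (h3 v v.2) }
  have hσ : σ ^ 3 ^ 1 = 1 := by
    ext1 v
    rw [pow_one, pow_succ, pow_succ, pow_one]
    exact Subtype.ext (h3 v v.2)
  obtain ⟨a, ha⟩ := Equiv.Perm.exists_fixed_point_of_prime (p := 3) (n := 1)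
    (by rw [Fintype.card_coe]; exact hn) hσ
  exact hf a a.2 (congrArg Subtype.val ha)

/-- a free involution -/
theorem two (S : Finset V3) (g : V3 → V3) (hg : ∀ v ∈ S, g v ∈ S)
    (h2 : ∀ v ∈ S, g (g v) = v) (hf : ∀ v ∈ S, g v ≠ v) : 2 ∣ S.card := by
  classical
  by_contra hn
  have : Fact (Nat.Prime 2) := ⟨Nat.prime_two⟩
  let σ : Equiv.Perm {v // v ∈ S} :=
    { toFun := fun v => ⟨g v, hg v v.2⟩
      invFun := fun v => ⟨g v, hg v v.2⟩
      left_inv := fun v => Subtype.ext (h2 v v.2)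
      right_inv := fun v => Subtype.ext (h2 v v.2) }
  have hσ : σ ^ 2 ^ 1 = 1 := by
    ext1 v
    rw [pow_one, pow_succ, pow_one]
    exact Subtype.ext (h2 v v.2)
  obtain ⟨a, ha⟩ := Equiv.Perm.exists_fixed_point_of_prime (p := 2) (n := 1)
    (by rw [Fintype.card_coe]; exact hn) hσ
  exact hf a a.2 (congrArg Subtype.val ha)

section
variable (h1 : S_PHI) (h2 : S_REF) {P : Finset ℕ} (hP : Pq P)
include h1 h2 hP

/-- exchange of the last two coordinates -/
theorem swap_Ph (v : V3) : Ph 3 P (![v 0, v 2, v 1] : V3) = jacobiSym (-4) (pr P) * Ph 3 P v := by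
  have hb : bl 3 (![0, 1, -1] : V3) ![0, 1, -1] = 4 := by rw [Van.bl3]; simp
  have hv' : bl 3 (![0, 1, -1] : V3) v = 2 * v 1 - 2 * v 2 := by rw [Van.bl3]; simp <;> ring
  have e1 := Van.refl h1 h2 (Or.inl rfl) hP ![0, 1, -1] v ![v 0, v 2, v 1]
    (by rw [hb]; exact Van.not_dvd hP (a := 4) (Van.pd60 (by norm_num)))
    (fun i => by
      rw [hb, hv']
      fin_cases i
      · show 4 * v 0 = 4 * v 0 - 2 * (2 * v 1 - 2 * v 2) * 0
        ring
      · show 4 * v 2 = 4 * v 1 - 2 * (2 * v 1 - 2 * v 2) * 1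
        ring
      · show 4 * v 1 = 4 * v 2 - 2 * (2 * v 1 - 2 * v 2) * (-1)
        ring)
  rw [hb] at e1
  exact e1

/-- the reflection in `(0,1,0)` -/
theorem refl_Ph (v : V3) : Ph 3 P (![v 0, -v 1 - v 2, v 2] : V3) =
    jacobiSym (-4) (pr P) * Ph 3 P v := by
  have hb : bl 3 (![0, 1, 0] : V3) ![0, 1, 0] = 4 := by rw [Van.bl3]; simp
  have hv' : bl 3 (![0, 1, 0] : V3) v = 4 * v 1 + 2 * v 2 := by rw [Van.bl3]; simp
  have e1 := Van.refl h1 h2 (Or.inl rfl) hP ![0, 1, 0] v ![v 0, -v 1 - v 2, v 2]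
    (by rw [hb]; exact Van.not_dvd hP (a := 4) (Van.pd60 (by norm_num)))
    (fun i => by
      rw [hb, hv']
      fin_cases i
      · show 4 * v 0 = 4 * v 0 - 2 * (4 * v 1 + 2 * v 2) * 0
        ring
      · show 4 * (-v 1 - v 2) = 4 * v 1 - 2 * (4 * v 1 + 2 * v 2) * 1
        ring
      · show 4 * v 2 = 4 * v 2 - 2 * (4 * v 1 + 2 * v 2) * 0
        ring)
  rw [hb] at e1
  exact e1

theorem jac4 : jacobiSym (-4) (pr P) * jacobiSym (-4) (pr P) = 1 := by
  rw [← Van.jac_mul]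
  exact Van.jac_sq (a := -4) hP fun p hp h => by
    have := Van.not_dvd hP (a := 4) (Van.pd60 (by norm_num)) p hp
    apply this
    rw [show (-4 : ℤ) = -((4 : ℕ) : ℤ) by norm_num, dvd_neg] at h
    exact h

/-- the rotation of order three -/
theorem rot_Ph (v : V3) : Ph 3 P (![v 0, v 2, -v 1 - v 2] : V3) = Ph 3 P v := by
  have e1 := refl_Ph h1 h2 hP v
  have e2 := swap_Ph h1 h2 hP (![v 0, -v 1 - v 2, v 2] : V3)
  have e3 : (![(![v 0, -v 1 - v 2, v 2] : V3) 0, (![v 0, -v 1 - v 2, v 2] : V3) 2,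
      (![v 0, -v 1 - v 2, v 2] : V3) 1] : V3) = ![v 0, v 2, -v 1 - v 2] := by
    funext i
    fin_cases i <;> rfl
  rw [e3, e1, ← mul_assoc, jac4 h1 h2 hP, one_mul] at e2
  exact e2

/-- the rotation of order two -/
theorem half_Ph (v : V3) : Ph 3 P (![-v 0, -v 2, -v 1] : V3) = Ph 3 P v := by
  have e1 := swap_Ph h1 h2 hP v
  have e2 := Van.neg h1 (Or.inl rfl) hP (![v 0, v 2, v 1] : V3) (![-v 0, -v 2, -v 1] : V3)
    (fun i => by fin_cases i <;> rfl)
  rw [e1, ← mul_assoc, ← Van.jac_mul] at e2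
  have e3 : (-1 : ℤ) * -4 = 2 * 2 := by norm_num
  rw [e3, Van.jac_sq (a := 2) hP (Van.not_dvd hP (a := 2) (Van.pd60 (by norm_num))), one_mul] at e2
  exact e2

end

theorem single {p : ℕ} (v : V3) : Ph 3 {p} v = ph 3 p (rd p v) := by
  unfold Ph
  rw [prod_singleton]

end V3X

theorem t_V3 (h0 : S_PHI) (h1 : S_REF) (h4 : S_EQU) : S_V3 := by
  classical
  intro N hN hd
  obtain ⟨hodd, h3, -⟩ := Van.pr_cop hN
  have hq := h4 3 (Or.inl rfl) N hN (fun h => absurd h (by norm_num)) (fun _ => hd) (fun _ => 1)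
    (fun _ _ => Or.inl rfl)
  set S := (vec 3 (pr N : ℤ)).filter fun v => ∀ p ∈ N, ph 3 p (rd p v) = 1 with hS
  have hc : Nat.card {v : V3 // v ∈ vec 3 (pr N : ℤ) ∧ ∀ p ∈ N, ph 3 p (rd p v) = 1} = S.card :=
    Nat.subtype_card S fun v => by rw [hS, mem_filter]
  rw [hc] at hq
  have hPs : ∀ p ∈ N, Pq {p} := fun p hp q hq => by rw [mem_singleton.1 hq]; exact hN p hp
  have d3 : 3 ∣ S.card := by
    refine V3X.three S (fun v => ![v 0, v 2, -v 1 - v 2]) ?_ ?_ ?_
    · intro v hv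
      rw [hS, mem_filter, Van.mem3, Van.bl3] at hv ⊢
      refine ⟨?_, fun p hp => ?_⟩
      · rw [← hv.1]
        show 3 * (v 0 * v 0) + 4 * (v 2 * v 2) + 4 * ((-v 1 - v 2) * (-v 1 - v 2)) +
          2 * (v 2 * (-v 1 - v 2) + (-v 1 - v 2) * v 2) = _
        ring
      · rw [← V3X.single, V3X.rot_Ph h0 h1 (hPs p hp), V3X.single]
        exact hv.2 p hp
    · intro v _
      refine Van.ext3 ?_ ?_ ?_
      · rfl
      · show -v 2 - (-v 1 - v 2) = v 1
        ring
      · show -(-v 1 - v 2) - (-v 2 - (-v 1 - v 2)) = v 2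
        ring
    · intro v hv he
      rw [hS, mem_filter, Van.mem3, Van.bl3] at hv
      have e1 : v 2 = v 1 := congrFun he 1
      have e2 : -v 1 - v 2 = v 2 := congrFun he 2
      have k2 : v 2 = 0 := by linarith
      have k1 : v 1 = 0 := by linarith
      have h := hv.1
      rw [k1, k2] at h
      omega
  have d2 : 2 ∣ S.card := by
    refine V3X.two S (fun v => ![-v 0, -v 2, -v 1]) ?_ ?_ ?_
    · intro v hv
      rw [hS, mem_filter, Van.mem3, Van.bl3] at hv ⊢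
      refine ⟨?_, fun p hp => ?_⟩
      · rw [← hv.1]
        show 3 * (-v 0 * -v 0) + 4 * (-v 2 * -v 2) + 4 * (-v 1 * -v 1) +
          2 * (-v 2 * -v 1 + -v 1 * -v 2) = _
        ring
      · rw [← V3X.single, V3X.half_Ph h0 h1 (hPs p hp), V3X.single]
        exact hv.2 p hp
    · intro v _
      refine Van.ext3 ?_ ?_ ?_
      · show - -v 0 = v 0
        ring
      · show - -v 1 = v 1
        ring
      · show - -v 2 = v 2
        ring
    · intro v hv he
      rw [hS, mem_filter, Van.mem3, Van.bl3] at hv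
      have e0 : -v 0 = v 0 := congrFun he 0
      have e1 : -v 2 = v 1 := congrFun he 1
      have k0 : v 0 = 0 := by linarith
      have h := hv.1
      rw [k0, ← e1] at h
      have h3 : (pr N : ℤ) = 4 * (v 2 * v 2) := by rw [← h]; ring
      omega
  obtain ⟨T, hT⟩ : 6 ∣ S.card := Nat.Coprime.mul_dvd_of_dvd_of_dvd (by norm_num) d2 d3
  refine ⟨T, ?_⟩
  rw [← hq, hT]
  push_cast
  ring

end Pool.Agent.XV
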