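import Pool.Agent.XV.T3.V4
import Pool.Agent.XV.T3.V3
import Pool.Agent.XV.T3.EU
import Pool.Agent.XV.T3.CH
import Pool.Agent.XV.T3.DV
import Pool.Agent.XV.T3.Ex
import Pool.Agent.XV.Phi

/-!
# Project XV, T3: the statements `S_V4`, `S_EQU`, `S_V3` (helper2)
-/

set_option autoImplicit false

namespace Pool.Agent.XV

theorem f_EX : S_EX := t_EX t_EU

theorem f_UN : S_UN := t_UN f_EX

theorem f_CHN : S_CHN := t_CHN t_PHI t_DV t_CH

/-- the sums over all vectors vanish -/
theorem f_V4 : S_V4 := t_V4 t_PHI t_REF f_EX f_UN t_CH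

theorem f_EQU : S_EQU := t_EQU t_PHI f_V4

/-- the number of vectors of the lattice `L 3` -/
theorem f_V3 : S_V3 := t_V3 t_PHI t_REF f_EQU

end Pool.Agent.XV
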