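import Pool.Agent.XV.T3.V5
import Pool.Agent.XV.PC

/-!
# Project XV, T3: `S_V5` (helper2)
-/

set_option autoImplicit false

namespace Pool.Agent.XV

theorem f_PCG : S_PCG := pcg_ofq t_PCGq

/-- the number of vectors of the lattice `L 5` and the Rédei kernel -/
theorem u_V5 : S_V5 := f_V5 f_PCG

end Pool.Agent.XV
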