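import Mathlib

/-!
# Project XV: the maximal orders `O 5`, `O 3` of the quaternion algebras ramified at `5`, at `3`

`QA q R` is the order over the ring `R`: the elements `a + b ω + (c + d ω) e` with `ω² = ω - 1`,
`e² = - m`, `e ω = (1 - ω) e + t`, where `(m, t) = (2, 1)` for `q = 5`, `(1, 0)` else.
-/

set_option autoImplicit false

namespace Pool.Agent.XV

/-- the order of the quaternion algebra over the ring `R` -/
@[ext] structure QA (q : ℕ) (R : Type*) where
  a : R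
  b : R
  c : R
  d : R
deriving DecidableEq

/-- the constant `m` -/
def mm (q : ℕ) : ℤ := if q = 5 then 2 else 1

/-- the constant `t` -/
def tt (q : ℕ) : ℤ := if q = 5 then 1 else 0

theorem tt_sq (q : ℕ) : tt q * tt q = tt q := by unfold tt; split_ifs <;> norm_num

namespace QA

variable {q : ℕ} {R : Type*} [CommRing R]

instance : Zero (QA q R) := ⟨⟨0, 0, 0, 0⟩⟩
instance : One (QA q R) := ⟨⟨1, 0, 0, 0⟩⟩
instance : Add (QA q R) := ⟨fun x y => ⟨x.a + y.a, x.b + y.b, x.c + y.c, x.d + y.d⟩⟩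
instance : Neg (QA q R) := ⟨fun x => ⟨-x.a, -x.b, -x.c, -x.d⟩⟩
instance : Sub (QA q R) := ⟨fun x y => ⟨x.a - y.a, x.b - y.b, x.c - y.c, x.d - y.d⟩⟩
instance : Mul (QA q R) := ⟨fun x y =>
  ⟨x.a * y.a - x.b * y.b + (tt q : R) * y.b * x.c - (mm q : R) * (x.c * y.c + x.c * y.d + x.d * y.d),
   x.a * y.b + x.b * y.a + x.b * y.b + (tt q : R) * y.b * x.d - (mm q : R) * (x.d * y.c - x.c * y.d),
   x.a * y.c - x.b * y.d + x.c * y.a + x.c * y.b + x.d * y.b + (tt q : R) * y.d * x.c,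
   x.a * y.d + x.b * y.c + x.b * y.d + x.d * y.a - x.c * y.b + (tt q : R) * y.d * x.d⟩⟩
instance : SMul ℕ (QA q R) := ⟨fun n x => ⟨n • x.a, n • x.b, n • x.c, n • x.d⟩⟩
instance : SMul ℤ (QA q R) := ⟨fun n x => ⟨n • x.a, n • x.b, n • x.c, n • x.d⟩⟩
instance : NatCast (QA q R) := ⟨fun n => ⟨n, 0, 0, 0⟩⟩
instance : IntCast (QA q R) := ⟨fun n => ⟨n, 0, 0, 0⟩⟩

@[simp] theorem zero_a : (0 : QA q R).a = 0 := rfl
@[simp] theorem zero_b : (0 : QA q R).b = 0 := rfl
@[simp] theorem zero_c : (0 : QA q R).c = 0 := rfl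
@[simp] theorem zero_d : (0 : QA q R).d = 0 := rfl
@[simp] theorem one_a : (1 : QA q R).a = 1 := rfl
@[simp] theorem one_b : (1 : QA q R).b = 0 := rfl
@[simp] theorem one_c : (1 : QA q R).c = 0 := rfl
@[simp] theorem one_d : (1 : QA q R).d = 0 := rfl
@[simp] theorem add_a (x y : QA q R) : (x + y).a = x.a + y.a := rfl
@[simp] theorem add_b (x y : QA q R) : (x + y).b = x.b + y.b := rfl
@[simp] theorem add_c (x y : QA q R) : (x + y).c = x.c + y.c := rfl
@[simp] theorem add_d (x y : QA q R) : (x + y).d = x.d + y.d := rfl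
@[simp] theorem neg_a (x : QA q R) : (-x).a = -x.a := rfl
@[simp] theorem neg_b (x : QA q R) : (-x).b = -x.b := rfl
@[simp] theorem neg_c (x : QA q R) : (-x).c = -x.c := rfl
@[simp] theorem neg_d (x : QA q R) : (-x).d = -x.d := rfl
@[simp] theorem sub_a (x y : QA q R) : (x - y).a = x.a - y.a := rfl
@[simp] theorem sub_b (x y : QA q R) : (x - y).b = x.b - y.b := rfl
@[simp] theorem sub_c (x y : QA q R) : (x - y).c = x.c - y.c := rfl
@[simp] theorem sub_d (x y : QA q R) : (x - y).d = x.d - y.d := rfl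
@[simp] theorem mul_a (x y : QA q R) : (x * y).a = x.a * y.a - x.b * y.b + (tt q : R) * y.b * x.c -
  (mm q : R) * (x.c * y.c + x.c * y.d + x.d * y.d) := rfl
@[simp] theorem mul_b (x y : QA q R) : (x * y).b = x.a * y.b + x.b * y.a + x.b * y.b +
  (tt q : R) * y.b * x.d - (mm q : R) * (x.d * y.c - x.c * y.d) := rfl
@[simp] theorem mul_c (x y : QA q R) : (x * y).c = x.a * y.c - x.b * y.d + x.c * y.a + x.c * y.b +
  x.d * y.b + (tt q : R) * y.d * x.c := rfl
@[simp] theorem mul_d (x y : QA q R) : (x * y).d = x.a * y.d + x.b * y.c + x.b * y.d + x.d * y.a -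
  x.c * y.b + (tt q : R) * y.d * x.d := rfl
@[simp] theorem natCast_a (n : ℕ) : ((n : ℕ) : QA q R).a = n := rfl
@[simp] theorem natCast_b (n : ℕ) : ((n : ℕ) : QA q R).b = 0 := rfl
@[simp] theorem natCast_c (n : ℕ) : ((n : ℕ) : QA q R).c = 0 := rfl
@[simp] theorem natCast_d (n : ℕ) : ((n : ℕ) : QA q R).d = 0 := rfl
@[simp] theorem intCast_a (n : ℤ) : ((n : ℤ) : QA q R).a = n := rfl
@[simp] theorem intCast_b (n : ℤ) : ((n : ℤ) : QA q R).b = 0 := rfl
@[simp] theorem intCast_c (n : ℤ) : ((n : ℤ) : QA q R).c = 0 := rfl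
@[simp] theorem intCast_d (n : ℤ) : ((n : ℤ) : QA q R).d = 0 := rfl

instance : Ring (QA q R) where
  add_assoc x y z := by ext <;> simp <;> ring
  zero_add x := by ext <;> simp
  add_zero x := by ext <;> simp
  add_comm x y := by ext <;> simp <;> ring
  nsmul n x := n • x
  nsmul_zero x := by
    show (⟨0 • x.a, 0 • x.b, 0 • x.c, 0 • x.d⟩ : QA q R) = 0
    ext <;> simp
  nsmul_succ n x := by
    show (⟨(n + 1) • x.a, (n + 1) • x.b, (n + 1) • x.c, (n + 1) • x.d⟩ : QA q R) =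
      ⟨n • x.a, n • x.b, n • x.c, n • x.d⟩ + x
    ext <;> simp <;> ring
  mul_assoc x y z := by ext <;> simp <;> ring
  one_mul x := by ext <;> simp
  mul_one x := by ext <;> simp
  zero_mul x := by ext <;> simp
  mul_zero x := by ext <;> simp
  left_distrib x y z := by ext <;> simp <;> ring
  right_distrib x y z := by ext <;> simp <;> ring
  zsmul n x := n • x
  zsmul_zero' x := by
    show (⟨(0 : ℤ) • x.a, (0 : ℤ) • x.b, (0 : ℤ) • x.c, (0 : ℤ) • x.d⟩ : QA q R) = 0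
    ext <;> simp
  zsmul_succ' n x := by
    show (⟨((n + 1 : ℕ) : ℤ) • x.a, ((n + 1 : ℕ) : ℤ) • x.b, ((n + 1 : ℕ) : ℤ) • x.c,
      ((n + 1 : ℕ) : ℤ) • x.d⟩ : QA q R) = ⟨(n : ℤ) • x.a, (n : ℤ) • x.b, (n : ℤ) • x.c,
      (n : ℤ) • x.d⟩ + x
    ext <;> simp <;> ring
  zsmul_neg' n x := by
    show (⟨(Int.negSucc n) • x.a, (Int.negSucc n) • x.b, (Int.negSucc n) • x.c,
      (Int.negSucc n) • x.d⟩ : QA q R) = -⟨((n + 1 : ℕ) : ℤ) • x.a, ((n + 1 : ℕ) : ℤ) • x.b,
      ((n + 1 : ℕ) : ℤ) • x.c, ((n + 1 : ℕ) : ℤ) • x.d⟩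
    ext <;> simp [Int.negSucc_eq] <;> ring
  neg_add_cancel x := by ext <;> simp
  sub_eq_add_neg x y := by ext <;> simp <;> ring
  natCast n := (n : QA q R)
  natCast_zero := by
    show (⟨((0 : ℕ) : R), 0, 0, 0⟩ : QA q R) = 0
    ext <;> simp
  natCast_succ n := by
    show (⟨((n + 1 : ℕ) : R), 0, 0, 0⟩ : QA q R) = ⟨((n : ℕ) : R), 0, 0, 0⟩ + 1
    ext <;> simp
  intCast n := (n : QA q R)
  intCast_ofNat n := by
    show (⟨((n : ℤ) : R), 0, 0, 0⟩ : QA q R) = ⟨((n : ℕ) : R), 0, 0, 0⟩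
    ext <;> simp
  intCast_negSucc n := by
    show (⟨((Int.negSucc n : ℤ) : R), 0, 0, 0⟩ : QA q R) = -⟨((n + 1 : ℕ) : R), 0, 0, 0⟩
    ext <;> simp [Int.negSucc_eq]

/-- the trace -/
def tr (x : QA q R) : R := 2 * x.a + x.b + (tt q : R) * x.d

/-- the norm -/
def nr (x : QA q R) : R := x.a * x.a + x.a * x.b + x.b * x.b +
  (mm q : R) * (x.c * x.c + x.c * x.d + x.d * x.d) + (tt q : R) * (x.a * x.d - x.b * x.c)

/-- the conjugation -/
def cj (x : QA q R) : QA q R := ⟨x.a + x.b + (tt q : R) * x.d, -x.b, -x.c, -x.d⟩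

@[simp] theorem cj_a (x : QA q R) : (cj x).a = x.a + x.b + (tt q : R) * x.d := rfl
@[simp] theorem cj_b (x : QA q R) : (cj x).b = -x.b := rfl
@[simp] theorem cj_c (x : QA q R) : (cj x).c = -x.c := rfl
@[simp] theorem cj_d (x : QA q R) : (cj x).d = -x.d := rfl

/-- the scalars -/
def sc (r : R) : QA q R := ⟨r, 0, 0, 0⟩

@[simp] theorem sc_a (r : R) : (sc r : QA q R).a = r := rfl
@[simp] theorem sc_b (r : R) : (sc r : QA q R).b = 0 := rfl
@[simp] theorem sc_c (r : R) : (sc r : QA q R).c = 0 := rfl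
@[simp] theorem sc_d (r : R) : (sc r : QA q R).d = 0 := rfl

theorem sc_comm (r : R) (x : QA q R) : sc r * x = x * sc r := by ext <;> simp <;> ring

theorem sc_mul (r s : R) : (sc r : QA q R) * sc s = sc (r * s) := by ext <;> simp

theorem sc_int (n : ℤ) : (sc n : QA q ℤ) = (n : QA q ℤ) := rfl

theorem mul_cj (x : QA q R) : x * cj x = sc (nr x) := by
  ext <;> simp [nr] <;> ring

theorem cj_mul_self (x : QA q R) : cj x * x = sc (nr x) := by
  ext <;> simp [nr] <;> ring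

theorem cj_mul (x y : QA q R) : cj (x * y) = cj y * cj x := by
  ext <;> simp <;> ring

theorem cj_cj (x : QA q R) : cj (cj x) = x := by
  ext <;> simp <;> ring

theorem cj_add (x y : QA q R) : cj (x + y) = cj x + cj y := by
  ext <;> simp <;> ring

theorem cj_neg (x : QA q R) : cj (-x) = -cj x := by
  ext <;> simp <;> ring

theorem cj_sc (r : R) : cj (sc r : QA q R) = sc r := by
  ext <;> simp

theorem add_cj (x : QA q R) : x + cj x = sc (tr x) := by
  ext <;> simp [tr] <;> ring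

theorem nr_mul (x y : QA q R) : nr (x * y) = nr x * nr y := by
  simp only [nr, mul_a, mul_b, mul_c, mul_d]
  ring

theorem nr_cj (x : QA q R) : nr (cj x) = nr x := by
  simp only [nr, cj_a, cj_b, cj_c, cj_d]
  ring

theorem nr_sc (r : R) : nr (sc r : QA q R) = r * r := by
  simp [nr]

theorem nr_one : nr (1 : QA q R) = 1 := by
  simp [nr]

theorem nr_neg (x : QA q R) : nr (-x) = nr x := by
  simp only [nr, neg_a, neg_b, neg_c, neg_d]
  ring

theorem tr_mul_comm (x y : QA q R) : tr (x * y) = tr (y * x) := by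
  simp only [tr, mul_a, mul_b, mul_d]
  ring

/-- `x u x = Tr (x u) x - N(x) ū` -/
theorem sandwich (x u : QA q R) : x * u * x = sc (tr (x * u)) * x - sc (nr x) * cj u := by
  ext <;> simp [tr, nr] <;> ring

end QA

end Pool.Agent.XV
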