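import Pool.Agent.XV.T3.Defs

/-!
# Project XV, T3: basic lemmas on the orders `O 5`, `O 3` (helper2)
-/

set_option autoImplicit false

namespace Pool.Agent.XV.T3

open Finset QA
open Pool.Agent.Z700 (V3 pr)

section general

variable {q : ℕ} {R : Type*} [CommRing R]

theorem cast_mm (h : q = 5) : ((mm q : ℤ) : R) = 2 := by simp [mm, h]
theorem cast_mm' (h : q ≠ 5) : ((mm q : ℤ) : R) = 1 := by simp [mm, h]
theorem cast_tt (h : q = 5) : ((tt q : ℤ) : R) = 1 := by simp [tt, h]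
theorem cast_tt' (h : q ≠ 5) : ((tt q : ℤ) : R) = 0 := by simp [tt, h]

theorem bl5 (h : q = 5) (v w : Fin 3 → R) : bl q v w = 3 * (v 0 * w 0) + 7 * (v 1 * w 1) +
    7 * (v 2 * w 2) - (v 0 * w 1 + v 1 * w 0) + (v 0 * w 2 + v 2 * w 0) +
    3 * (v 1 * w 2 + v 2 * w 1) := by
  unfold bl
  rw [if_pos h]

theorem bl3 (h : q ≠ 5) (v w : Fin 3 → R) : bl q v w = 3 * (v 0 * w 0) + 4 * (v 1 * w 1) +
    4 * (v 2 * w 2) + 2 * (v 1 * w 2 + v 2 * w 1) := by
  unfold bl
  rw [if_neg h]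

theorem pv5 (h : q = 5) (v : Fin 3 → R) :
    (pv q v : QA q R) = ⟨-(v 0 + v 1 + v 2), 2 * (v 0 + v 2), 2 * v 2, 2 * v 1⟩ := by
  unfold pv
  rw [if_pos h]

theorem pv3 (h : q ≠ 5) (v : Fin 3 → R) :
    (pv q v : QA q R) = ⟨-v 0, 2 * v 0, 2 * v 1, 2 * v 2⟩ := by
  unfold pv
  rw [if_neg h]

theorem tr_pv (v : Fin 3 → R) : tr (pv q v) = 0 := by
  by_cases h : q = 5
  · rw [pv5 h]
    simp only [tr, cast_tt h]
    ring
  · rw [pv3 h]
    simp only [tr, cast_tt' h]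
    ring

theorem nr_pv (v : Fin 3 → R) : nr (pv q v) = bl q v v := by
  by_cases h : q = 5
  · rw [pv5 h, bl5 h]
    simp only [nr, cast_mm h, cast_tt h]
    ring
  · rw [pv3 h, bl3 h]
    simp only [nr, cast_mm' h, cast_tt' h]
    ring

theorem cj_eq (x : QA q R) : cj x = sc (tr x) - x := by
  rw [← add_cj]
  abel

theorem cj_pv (v : Fin 3 → R) : cj (pv q v) = -pv q v := by
  rw [cj_eq, tr_pv]
  ext <;> simp

theorem tr_pv_mul (v w : Fin 3 → R) : tr (pv q v * pv q w) = -(2 * bl q v w) := by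
  by_cases h : q = 5
  · rw [pv5 h, pv5 h, bl5 h]
    simp only [tr, mul_a, mul_b, mul_d, cast_mm h, cast_tt h]
    ring
  · rw [pv3 h, pv3 h, bl3 h]
    simp only [tr, mul_a, mul_b, mul_d, cast_mm' h, cast_tt' h]
    ring

theorem pv_neg (v : Fin 3 → R) : pv q (-v) = -pv q v := by
  by_cases h : q = 5
  · rw [pv5 h, pv5 h]
    ext <;> simp <;> ring
  · rw [pv3 h, pv3 h]
    ext <;> simp

theorem pv_mul_self (v : Fin 3 → R) : pv q v * pv q v = -sc (bl q v v) := by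
  have h := mul_cj (pv q v)
  rw [cj_pv, nr_pv, mul_neg] at h
  rw [← h, neg_neg]

theorem tr_add (x y : QA q R) : tr (x + y) = tr x + tr y := by
  simp only [tr, add_a, add_b, add_d]
  ring

theorem tr_neg (x : QA q R) : tr (-x) = -tr x := by
  simp only [tr, neg_a, neg_b, neg_d]
  ring

theorem tr_sub (x y : QA q R) : tr (x - y) = tr x - tr y := by
  simp only [tr, sub_a, sub_b, sub_d]
  ring

theorem tr_sc_mul (r : R) (x : QA q R) : tr (sc r * x) = r * tr x := by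
  simp [tr]
  ring

theorem tr_sc (r : R) : tr (sc r : QA q R) = 2 * r := by
  simp [tr]

theorem tr_cj (x : QA q R) : tr (cj x) = tr x := by
  simp [tr]
  ring

theorem nr_sc_mul (r : R) (x : QA q R) : nr (sc r * x) = r * r * nr x := by
  rw [nr_mul, nr_sc]

/-- an element minus its conjugate is the quaternion of a vector -/
theorem exists_pv (z : QA q R) : ∃ w : Fin 3 → R, pv q w = sc 2 * z - sc (tr z) := by
  by_cases h : q = 5
  · refine ⟨![z.b - z.c, z.d, z.c], ?_⟩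
    rw [pv5 h]
    ext <;> simp [tr, cast_tt h] <;> ring
  · refine ⟨![z.b, z.c, z.d], ?_⟩
    rw [pv3 h]
    ext <;> simp [tr, cast_tt' h] <;> ring

theorem exists_half (v : Fin 3 → R) : ∃ z : QA q R, pv q v = sc 2 * z - sc (tr z) := by
  by_cases h : q = 5
  · refine ⟨⟨0, v 0 + v 2, v 2, v 1⟩, ?_⟩
    rw [pv5 h]
    ext <;> simp [tr, cast_tt h] <;> ring
  · refine ⟨⟨0, v 0, v 1, v 2⟩, ?_⟩
    rw [pv3 h]
    ext <;> simp [tr, cast_tt' h]

theorem sc_zero : (sc 0 : QA q R) = 0 := rfl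

theorem sc_one : (sc 1 : QA q R) = 1 := rfl

theorem sc_add (r s : R) : (sc (r + s) : QA q R) = sc r + sc s := by ext <;> simp

theorem sc_neg (r : R) : (sc (-r) : QA q R) = -sc r := by ext <;> simp

end general

/-! ### the integral orders -/

variable {q : ℕ}

theorem three_nr (h : q = 5) (x : QA q ℤ) : 9 * nr x =
    ((3 * x.a + x.c + 2 * x.d) ^ 2 + (3 * x.a + x.c + 2 * x.d) * (3 * x.b - 2 * x.c - x.d) +
      (3 * x.b - 2 * x.c - x.d) ^ 2) + 15 * (x.c ^ 2 + x.c * x.d + x.d ^ 2) := by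
  have h1 : mm q = 2 := by simp [mm, h]
  have h2 : tt q = 1 := by simp [tt, h]
  simp only [nr, Int.cast_id, h1, h2]
  ring

theorem Q_nonneg (x y : ℤ) : 0 ≤ x ^ 2 + x * y + y ^ 2 := by nlinarith [sq_nonneg (x + y), sq_nonneg x, sq_nonneg y]

theorem Q_zero {x y : ℤ} (h : x ^ 2 + x * y + y ^ 2 = 0) : x = 0 ∧ y = 0 := by
  have h1 : x ^ 2 = 0 := by nlinarith [sq_nonneg (x + y), sq_nonneg x, sq_nonneg y, sq_nonneg (x + 2 * y)]
  have h2 : y ^ 2 = 0 := by nlinarith [sq_nonneg (x + y), sq_nonneg x, sq_nonneg y, sq_nonneg (2 * x + y)]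
  exact ⟨pow_eq_zero_iff two_ne_zero |>.1 h1, pow_eq_zero_iff two_ne_zero |>.1 h2⟩

theorem nr3 (h : q ≠ 5) (x : QA q ℤ) : nr x = (x.a ^ 2 + x.a * x.b + x.b ^ 2) +
    (x.c ^ 2 + x.c * x.d + x.d ^ 2) := by
  have h1 : mm q = 1 := by simp [mm, h]
  have h2 : tt q = 0 := by simp [tt, h]
  simp only [nr, Int.cast_id, h1, h2]
  ring

theorem nr_nonneg (x : QA q ℤ) : 0 ≤ nr x := by
  by_cases h : q = 5
  · have h1 := three_nr h x
    have h2 := Q_nonneg (3 * x.a + x.c + 2 * x.d) (3 * x.b - 2 * x.c - x.d)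
    have h3 := Q_nonneg x.c x.d
    omega
  · rw [nr3 h]
    have h2 := Q_nonneg x.a x.b
    have h3 := Q_nonneg x.c x.d
    omega

theorem nr_eq_zero {x : QA q ℤ} (h0 : nr x = 0) : x = 0 := by
  by_cases h : q = 5
  · have h1 := three_nr h x
    have h2 := Q_nonneg (3 * x.a + x.c + 2 * x.d) (3 * x.b - 2 * x.c - x.d)
    have h3 := Q_nonneg x.c x.d
    obtain ⟨e1, e2⟩ := Q_zero (x := x.c) (y := x.d) (by omega)
    obtain ⟨e3, e4⟩ := Q_zero (x := 3 * x.a + x.c + 2 * x.d) (y := 3 * x.b - 2 * x.c - x.d)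
      (by omega)
    ext
    · show x.a = 0
      omega
    · show x.b = 0
      omega
    · exact e1
    · exact e2
  · rw [nr3 h] at h0
    have h2 := Q_nonneg x.a x.b
    have h3 := Q_nonneg x.c x.d
    obtain ⟨e1, e2⟩ := Q_zero (x := x.a) (y := x.b) (by omega)
    obtain ⟨e3, e4⟩ := Q_zero (x := x.c) (y := x.d) (by omega)
    ext
    · exact e1
    · exact e2
    · exact e3
    · exact e4

theorem nr_pos {x : QA q ℤ} (h : x ≠ 0) : 0 < nr x :=
  lt_of_le_of_ne (nr_nonneg x) fun h0 => h (nr_eq_zero h0.symm)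

theorem ne_zero_of_nr {x : QA q ℤ} {d : ℤ} (hd : d ≠ 0) (h : nr x = d) : x ≠ 0 := by
  rintro rfl
  apply hd
  rw [← h]
  simp [nr]

theorem sc_cancel {d : ℤ} (hd : d ≠ 0) {x y : QA q ℤ} (h : sc d * x = sc d * y) : x = y := by
  have h1 := congrArg QA.a h
  have h2 := congrArg QA.b h
  have h3 := congrArg QA.c h
  have h4 := congrArg QA.d h
  simp at h1 h2 h3 h4
  ext
  · exact h1.resolve_right hd
  · exact h2.resolve_right hd
  · exact h3.resolve_right hd
  · exact h4.resolve_right hd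

theorem mul_cancel_right {x y z : QA q ℤ} (hx : x ≠ 0) (h : y * x = z * x) : y = z := by
  have h1 := congrArg (· * cj x) h
  simp only [mul_assoc, mul_cj] at h1
  rw [← sc_comm, ← sc_comm] at h1
  exact sc_cancel (nr_pos hx).ne' h1

theorem mul_cancel_left {x y z : QA q ℤ} (hx : x ≠ 0) (h : x * y = x * z) : y = z := by
  have h1 := congrArg (cj x * ·) h
  simp only [← mul_assoc, cj_mul_self] at h1
  exact sc_cancel (nr_pos hx).ne' h1

theorem pv_injective {v w : V3} (h : (pv q v : QA q ℤ) = pv q w) : v = w := by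
  by_cases h5 : q = 5
  · rw [pv5 h5, pv5 h5, QA.mk.injEq] at h
    obtain ⟨h1, h2, h3, h4⟩ := h
    funext i
    fin_cases i
    · show v 0 = w 0
      omega
    · show v 1 = w 1
      omega
    · show v 2 = w 2
      omega
  · rw [pv3 h5, pv3 h5, QA.mk.injEq] at h
    obtain ⟨h1, h2, h3, h4⟩ := h
    funext i
    fin_cases i
    · show v 0 = w 0
      omega
    · show v 1 = w 1
      omega
    · show v 2 = w 2
      omega

theorem bl_nonneg (v : V3) : 0 ≤ bl q v v := by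
  rw [← nr_pv]
  exact nr_nonneg _

/-- the inner product is preserved -/
theorem bl_eq {x : QA q ℤ} (hx : x ≠ 0) {v w v' w' : V3} (h : x * pv q v = pv q w * x)
    (h' : x * pv q v' = pv q w' * x) : bl q w w' = bl q v v' := by
  have h1 : x * (pv q v * pv q v') = (pv q w * pv q w') * x := by
    rw [← mul_assoc, h, mul_assoc, h', mul_assoc]
  have h2 : sc (nr x) * (pv q v * pv q v') = cj x * (pv q w * pv q w') * x := by
    rw [← cj_mul_self, mul_assoc, h1]
    noncomm_ring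
  have h3 := congrArg tr h2
  rw [tr_sc_mul, tr_mul_comm (cj x * (pv q w * pv q w')) x, ← mul_assoc x (cj x), mul_cj, tr_sc_mul,
    tr_pv_mul, tr_pv_mul] at h3
  have h4 := mul_left_cancel₀ (nr_pos hx).ne' h3
  linarith

theorem vec_mem (hq : q = 3 ∨ q = 5) {n : ℤ} {v : V3} : v ∈ vec q n ↔ bl q v v = n := by
  unfold vec
  rw [Finset.mem_filter, and_iff_right_iff_imp, Fintype.mem_piFinset]
  intro h i
  have key : v i ^ 2 ≤ bl q v v := by
    rcases hq with rfl | rfl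
    · rw [bl3 (by norm_num)]
      fin_cases i
      · show v 0 ^ 2 ≤ _
        nlinarith [sq_nonneg (v 0), sq_nonneg (v 1 + v 2), sq_nonneg (v 1), sq_nonneg (v 2)]
      · show v 1 ^ 2 ≤ _
        nlinarith [sq_nonneg (v 0), sq_nonneg (v 1 + v 2), sq_nonneg (v 1), sq_nonneg (v 2)]
      · show v 2 ^ 2 ≤ _
        nlinarith [sq_nonneg (v 0), sq_nonneg (v 1 + v 2), sq_nonneg (v 1), sq_nonneg (v 2)]
    · rw [bl5 rfl]
      fin_cases i
      · show v 0 ^ 2 ≤ _
        nlinarith [sq_nonneg (v 0 - v 1), sq_nonneg (v 1 + v 2), sq_nonneg (v 0 + v 2),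
          sq_nonneg (v 1), sq_nonneg (v 2)]
      · show v 1 ^ 2 ≤ _
        nlinarith [sq_nonneg (v 0 - v 1), sq_nonneg (v 1 + v 2), sq_nonneg (v 0 + v 2),
          sq_nonneg (v 0), sq_nonneg (v 1), sq_nonneg (v 2)]
      · show v 2 ^ 2 ≤ _
        nlinarith [sq_nonneg (v 0 - v 1), sq_nonneg (v 1 + v 2), sq_nonneg (v 0 + v 2),
          sq_nonneg (v 0), sq_nonneg (v 1), sq_nonneg (v 2)]
  rw [h] at key
  rw [Finset.mem_Icc]
  have h0 : (0 : ℤ) ≤ n := (sq_nonneg (v i)).trans key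
  rcases eq_or_ne n 0 with h1 | h1
  · rw [h1] at key
    have : v i = 0 := pow_eq_zero_iff two_ne_zero |>.1 (le_antisymm key (sq_nonneg _))
    rw [this, h1]
    norm_num
  · constructor <;> nlinarith

/-! ### the relation `Tp` -/

theorem Tp.symm {d r : ℤ} {x : QA q ℤ} {v w : V3} (h : Tp q d r x v w) :
    Tp q d (-r) (cj x) w v := by
  have hc : cj x * pv q w = pv q v * cj x := by
    have h1 := congrArg cj h.comm
    rw [cj_mul, cj_mul, cj_pv, cj_pv, neg_mul, mul_neg, neg_inj] at h1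
    exact h1.symm
  refine ⟨by rw [nr_cj, h.norm], hc, ?_⟩
  obtain ⟨y, hy⟩ := h.dvd
  refine ⟨-cj y, ?_⟩
  have h1 := congrArg cj hy
  rw [cj_mul, cj_add, cj_pv, cj_sc, cj_mul, cj_sc] at h1
  rw [mul_add, hc, sc_neg, mul_neg, mul_neg, sc_comm d, ← h1, add_mul, neg_mul, ← sc_comm r]
  abel

theorem Tp.bl_eq {d r : ℤ} (hd : d ≠ 0) {x : QA q ℤ} {v w : V3} (h : Tp q d r x v w) :
    bl q w w = bl q v v :=
  Pool.Agent.XV.T3.bl_eq (ne_zero_of_nr hd h.norm) h.comm h.comm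

theorem Tp.det {d r r' : ℤ} (hd : d ≠ 0) {x : QA q ℤ} {v w w' : V3} (h : Tp q d r x v w)
    (h' : Tp q d r' x v w') : w = w' := by
  apply pv_injective (q := q)
  apply mul_cancel_right (ne_zero_of_nr hd h.norm)
  rw [← h.comm, h'.comm]

/-- the ideal is contained in `O x` -/
theorem Tp.mem {d r : ℤ} (hd : d ≠ 0) {x : QA q ℤ} {v w : V3} (h : Tp q d r x v w) :
    ∃ y, pv q v - sc r = y * x := by
  obtain ⟨y, hy⟩ := h.dvd
  refine ⟨-cj y, ?_⟩
  apply sc_cancel hd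
  have h1 := congrArg cj hy
  rw [cj_mul, cj_add, cj_pv, cj_sc, cj_mul, cj_sc] at h1
  have h2 := congrArg (· * x) h1
  simp only [mul_assoc, cj_mul_self, h.norm] at h2
  rw [neg_mul, mul_neg, ← mul_assoc, sc_comm d (cj y), mul_assoc, ← h2, sc_comm]
  noncomm_ring

/-- multiplication by a unit -/
theorem Tp.unit {d r : ℤ} {x u : QA q ℤ} {v w : V3} (h : Tp q d r x v w) (hu : nr u = 1) :
    ∃ w', Tp q d r (u * x) v w' := by
  obtain ⟨z, hz⟩ := exists_half (q := q) w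
  obtain ⟨w', hw'⟩ := exists_pv (u * z * cj u)
  have huu : u * cj u = 1 := by rw [mul_cj, hu, sc_one]
  have huu' : cj u * u = 1 := by rw [cj_mul_self, hu, sc_one]
  have htr : tr (u * z * cj u) = tr z := by
    rw [tr_mul_comm, ← mul_assoc, huu', one_mul]
  have hpw : pv q w' * u = u * pv q w := by
    rw [hw', hz, htr, sub_mul, mul_sub, mul_assoc, mul_assoc (u * z), huu', mul_one, sc_comm (tr z),
      ← mul_assoc, sc_comm 2 u, mul_assoc]
  refine ⟨w', by rw [nr_mul, hu, one_mul, h.norm], ?_, ?_⟩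
  · rw [mul_assoc, h.comm, ← mul_assoc, ← hpw, mul_assoc]
  · obtain ⟨y, hy⟩ := h.dvd
    refine ⟨u * y, ?_⟩
    rw [mul_assoc, hy, ← mul_assoc, ← sc_comm, mul_assoc]

end Pool.Agent.XV.T3
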