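import Pool.Agent.XV.T3.Basic

/-!
# Project XV, T3: the classes of the vectors of `L 5` and the operators (helper87)

Port of `NH1/OpsC.lean`, `NH1/OpsD.lean` to the maximal order `O 5`.
-/

set_option autoImplicit false

namespace Pool.Agent.XV.T3.Cl

open Finset QA
open Pool.Agent.Z700 (V3 pr)

/-! ### the automorphism `cj5` -/

theorem m5 : mm 5 = 2 := rfl
theorem t5 : tt 5 = 1 := rfl

/-- the element of norm `5` -/
def jj : QA 5 ℤ := ⟨-1, 0, -1, 2⟩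

/-- conjugation by `jj` -/
def cj5 (x : QA 5 ℤ) : QA 5 ℤ := ⟨x.a + x.b, -x.b, -x.c - x.d, x.d⟩

/-- the vector conjugated by `jj` -/
def rv (v : V3) : V3 := ![v 1 - v 0, v 1, -v 1 - v 2]

theorem rv_0 (v : V3) : rv v 0 = v 1 - v 0 := rfl
theorem rv_1 (v : V3) : rv v 1 = v 1 := rfl
theorem rv_2 (v : V3) : rv v 2 = -v 1 - v 2 := rfl

theorem nr_jj : nr jj = 5 := by decide

theorem tr_jj : tr jj = 0 := by decide

theorem jj_jj : jj * jj = sc (-5) := by decide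

theorem jj_mul (x : QA 5 ℤ) : jj * x = cj5 x * jj := by
  ext <;> simp [jj, cj5, m5, t5] <;> ring

theorem cj5_mul (x y : QA 5 ℤ) : cj5 (x * y) = cj5 x * cj5 y := by
  ext <;> simp [cj5, m5, t5] <;> ring

theorem cj5_cj5 (x : QA 5 ℤ) : cj5 (cj5 x) = x := by
  ext <;> simp [cj5]

theorem cj5_neg (x : QA 5 ℤ) : cj5 (-x) = -cj5 x := by
  ext <;> simp [cj5] <;> ring

theorem nr_cj5 (x : QA 5 ℤ) : nr (cj5 x) = nr x := by
  simp [nr, cj5, m5, t5]
  ring

theorem pv_five (v : V3) : (pv 5 v : QA 5 ℤ) = ⟨-(v 0 + v 1 + v 2), 2 * (v 0 + v 2), 2 * v 2, 2 * v 1⟩ :=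
  pv5 rfl v

theorem cj5_pv (v : V3) : cj5 (pv 5 v) = pv 5 (rv v) := by
  rw [pv_five, pv_five, rv_0, rv_1, rv_2]
  ext <;> simp [cj5] <;> ring

theorem rv_rv (v : V3) : rv (rv v) = v := by
  funext i
  fin_cases i
  · show rv v 1 - rv v 0 = v 0
    rw [rv_0, rv_1]
    ring
  · rfl
  · show -rv v 1 - rv v 2 = v 2
    rw [rv_2, rv_1]
    ring

theorem rv_neg (v : V3) : rv (-v) = -rv v := by
  funext i
  fin_cases i
  · show -v 1 - -v 0 = -(v 1 - v 0)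
    ring
  · rfl
  · show - -v 1 - -v 2 = -(-v 1 - v 2)
    ring

theorem bl_rv (v : V3) : bl 5 (rv v) (rv v) = bl 5 v v := by
  rw [← nr_pv, ← cj5_pv, nr_cj5, nr_pv]

theorem bl_neg (v : V3) : bl 5 (-v) (-v) = bl 5 v v := by
  rw [← nr_pv, pv_neg, nr_neg, nr_pv]

/-! ### the relation -/

/-- `v` and `w` are related by a quaternion of norm `m` -/
def rel (m : ℕ) (v w : V3) : Prop := ∃ x : QA 5 ℤ, nr x = m ∧ x * pv 5 v = pv 5 w * x

theorem rel_refl (v : V3) : rel 1 v v := ⟨1, by rw [nr_one]; rfl, by rw [one_mul, mul_one]⟩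

theorem rel_symm {m : ℕ} {v w : V3} (h : rel m v w) : rel m w v := by
  obtain ⟨x, h2, h3⟩ := h
  refine ⟨cj x, by rw [nr_cj, h2], ?_⟩
  have h1 := congrArg cj h3
  rw [cj_mul, cj_mul, cj_pv, cj_pv, neg_mul, mul_neg, neg_inj] at h1
  exact h1.symm

theorem rel_trans {m m' : ℕ} {v w z : V3} (h : rel m v w) (h' : rel m' w z) :
    rel (m' * m) v z := by
  obtain ⟨x, h2, h3⟩ := h
  obtain ⟨x', h2', h3'⟩ := h'
  refine ⟨x' * x, by rw [nr_mul, h2, h2', Nat.cast_mul], ?_⟩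
  rw [mul_assoc, h3, ← mul_assoc, h3', mul_assoc]

theorem rel_neg {m : ℕ} {v w : V3} (h : rel m v w) : rel m (-v) (-w) := by
  obtain ⟨x, h2, h3⟩ := h
  refine ⟨x, h2, ?_⟩
  rw [pv_neg, pv_neg, mul_neg, neg_mul, h3]

theorem rel_rv {m : ℕ} {v w : V3} (h : rel m v w) : rel m (rv v) (rv w) := by
  obtain ⟨x, h2, h3⟩ := h
  refine ⟨cj5 x, by rw [nr_cj5, h2], ?_⟩
  rw [← cj5_pv, ← cj5_pv, ← cj5_mul, ← cj5_mul, h3]

theorem rel_five (v : V3) : rel 5 v (rv v) := by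
  refine ⟨jj, by rw [nr_jj]; rfl, ?_⟩
  rw [jj_mul, cj5_pv]

theorem rel_norm {m : ℕ} {v w : V3} (hm : m ≠ 0) (h : rel m v w) : bl 5 w w = bl 5 v v := by
  obtain ⟨x, h2, h3⟩ := h
  exact bl_eq (ne_zero_of_nr (by exact_mod_cast hm) h2) h3 h3

/-- the hypothesis on the number `n` -/
structure Hn (n : ℕ) : Prop where
  sf : Squarefree n
  cop : Nat.Coprime n 30
  mod : n % 4 = 3

theorem Hn.ne {n : ℕ} (h : Hn n) : n ≠ 0 := h.sf.ne_zero

theorem Hn.dvd_ne {n d : ℕ} (h : Hn n) (hd : d ∣ n) : d ≠ 0 := fun h0 =>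
  h.ne (by rw [h0] at hd; exact Nat.eq_zero_of_zero_dvd hd)

theorem Hn.five {n : ℕ} (h : Hn n) : 5 ≤ n := by
  have h1 := h.mod
  have h2 : n ≠ 3 := by
    intro h3
    have := h.cop
    rw [h3] at this
    revert this
    decide
  omega

theorem Hn.cop15 {n d : ℕ} (h : Hn n) (hd : d ∣ n) : Nat.Coprime d 15 :=
  (h.cop.coprime_dvd_left hd).coprime_dvd_right (by norm_num)

/-- a relation of norm `d ∣ n` is a transport in the sense of `Tp` -/
theorem tp_of (hd : S_DV) {n d : ℕ} (hn : Hn n) {v w : V3} (hv : bl 5 v v = (n : ℤ))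
    (hdn : d ∣ n) {x : QA 5 ℤ} (h1 : nr x = d) (h2 : x * pv 5 v = pv 5 w * x) :
    Tp 5 d 0 x v w := by
  refine ⟨h1, h2, ?_⟩
  obtain ⟨y, hy⟩ := hd 5 (Or.inr rfl) d (hn.sf.squarefree_of_dvd hdn) (hn.cop15 hdn) x (pv 5 v)
    (pv 5 w) (by rw [h1]) (by rw [nr_pv, hv]; exact_mod_cast hdn) (tr_pv v) h2
  refine ⟨y, ?_⟩
  rw [sc_zero, add_zero]
  exact hy

theorem cop_of {n d : ℕ} (hn : Hn n) (hdn : d ∣ n) : ∃ d' : ℕ, n = d * d' ∧
    IsCoprime (d : ℤ) (d' : ℤ) := by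
  obtain ⟨d', rfl⟩ := hdn
  refine ⟨d', rfl, ?_⟩
  exact Nat.isCoprime_iff_coprime.2 (Nat.coprime_of_squarefree_mul hn.sf)

theorem unit_of (hu : S_UN) (hd : S_DV) {n d : ℕ} (hn : Hn n) {v w w' : V3}
    (hv : bl 5 v v = (n : ℤ)) (hdn : d ∣ n) {x x' : QA 5 ℤ} (k2 : nr x = d) (l2 : nr x' = d)
    (k3 : x * pv 5 v = pv 5 w * x) (l3 : x' * pv 5 v = pv 5 w' * x') :
    ∃ u : QA 5 ℤ, nr u = 1 ∧ x' = u * x ∧ u * pv 5 w = pv 5 w' * u := by
  obtain ⟨d', h1, h2⟩ := cop_of hn hdn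
  have hd0 : 0 < d := Nat.pos_of_ne_zero (hn.dvd_ne hdn)
  obtain ⟨u, u1, u2⟩ := hu 5 (Or.inr rfl) v w w' d d' 0 x x' (by exact_mod_cast hd0)
    (by rw [hv, h1]; push_cast; ring) h2 (tp_of hd hn hv hdn k2 k3) (tp_of hd hn hv hdn l2 l3)
  refine ⟨u, u1, u2, ?_⟩
  have hx : x ≠ 0 := ne_zero_of_nr (by exact_mod_cast hd0.ne') k2
  apply mul_cancel_right hx
  rw [mul_assoc, ← k3, ← mul_assoc, ← u2, l3, u2, mul_assoc]

theorem rel_uniq (hu : S_UN) (hd : S_DV) {n d : ℕ} (hn : Hn n) {v w w' : V3}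
    (hv : bl 5 v v = (n : ℤ)) (hdn : d ∣ n) (h : rel d v w) (h' : rel d v w') : rel 1 w w' := by
  obtain ⟨x, k2, k3⟩ := h
  obtain ⟨x', l2, l3⟩ := h'
  obtain ⟨u, u1, -, u3⟩ := unit_of hu hd hn hv hdn k2 l2 k3 l3
  exact ⟨u, by rw [u1]; rfl, u3⟩

/-! ### the elements commuting with a vector -/

theorem nr_pure (z : QA 5 ℤ) : nr (sc 2 * z - sc (tr z)) = 4 * nr z - tr z ^ 2 := by
  simp [nr, tr, m5, t5]
  ring

theorem eq_sc_of_cj {x : QA 5 ℤ} (h : cj x = x) : x = sc x.a := by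
  have h2 := congrArg QA.b h
  have h3 := congrArg QA.c h
  have h4 := congrArg QA.d h
  simp only [cj_b, cj_c, cj_d] at h2 h3 h4
  ext
  · rfl
  · show x.b = 0
    omega
  · show x.c = 0
    omega
  · show x.d = 0
    omega

theorem pv_add (v w : V3) : pv 5 v * pv 5 w + pv 5 w * pv 5 v = sc (-(2 * bl 5 v w)) := by
  have h1 := add_cj (pv 5 v * pv 5 w)
  rw [cj_mul, cj_pv, cj_pv, neg_mul_neg, tr_pv_mul] at h1
  exact h1

theorem dvd_of_dvd_sq {d : ℕ} (hd : Squarefree d) {a : ℤ} (h : (d : ℤ) ∣ a ^ 2) :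
    (d : ℤ) ∣ a := by
  have k2 : d ∣ a.natAbs ^ 2 := by
    rw [← Int.natAbs_pow]
    exact Int.natCast_dvd.1 h
  exact Int.natCast_dvd.2 ((Squarefree.dvd_pow_iff_dvd hd two_ne_zero).1 k2)

theorem comm_form {n : ℕ} (hn : Squarefree n) {v : V3} (hv : bl 5 v v = (n : ℤ))
    {z : QA 5 ℤ} {m : ℕ} (hm : nr z = m) (h : z * pv 5 v = pv 5 v * z) :
    ∃ A t : ℤ, A ^ 2 + n * t ^ 2 = 4 * m ∧ (t = 0 → z = sc z.a) := by
  obtain ⟨w, hw⟩ := exists_pv z
  have hcomm : pv 5 w * pv 5 v = pv 5 v * pv 5 w := by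
    rw [hw, sub_mul, mul_sub, mul_assoc, h, sc_comm (tr z), ← mul_assoc, ← mul_assoc, sc_comm 2]
  have h1 : cj (pv 5 w * pv 5 v) = pv 5 w * pv 5 v := by
    rw [cj_mul, cj_pv, cj_pv, neg_mul_neg, hcomm]
  have h2 := eq_sc_of_cj h1
  obtain ⟨r, hr⟩ : ∃ r, r = (pv 5 w * pv 5 v : QA 5 ℤ).a := ⟨_, rfl⟩
  rw [← hr] at h2
  have h3 : bl 5 w w * n = r ^ 2 := by
    have := congrArg nr h2
    rw [nr_mul, nr_pv, nr_pv, nr_sc, hv] at this
    rw [this, pow_two]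
  obtain ⟨t, ht⟩ := dvd_of_dvd_sq hn (a := r) ⟨bl 5 w w, by rw [← h3, mul_comm]⟩
  have hn0 : (n : ℤ) ≠ 0 := by exact_mod_cast hn.ne_zero
  have key : bl 5 w w = n * t ^ 2 := by
    apply mul_right_cancel₀ hn0
    rw [h3, ht]
    ring
  have h4 : bl 5 w w = 4 * m - tr z ^ 2 := by
    rw [← nr_pv, hw, nr_pure, hm]
  refine ⟨tr z, t, by rw [← key, h4]; ring, ?_⟩
  intro ht0
  rw [ht0, zero_pow two_ne_zero, mul_zero, ← nr_pv] at key
  have h5 := nr_eq_zero key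
  rw [hw, sub_eq_zero] at h5
  have h6 := congrArg QA.b h5
  have h7 := congrArg QA.c h5
  have h8 := congrArg QA.d h5
  simp at h6 h7 h8
  ext
  · rfl
  · exact h6
  · exact h7
  · exact h8

theorem unit_comm {n : ℕ} (hn : Hn n) {v : V3} (hv : bl 5 v v = (n : ℤ)) {u : QA 5 ℤ}
    (h1 : nr u = 1) (h : u * pv 5 v = pv 5 v * u) : u = 1 ∨ u = -1 := by
  obtain ⟨A, t, k1, k2⟩ := comm_form hn.sf hv (m := 1) (by rw [h1]; rfl) h
  have h5 := hn.five
  have ht : t = 0 := by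
    by_contra ht
    have h2 : 1 ≤ t ^ 2 := by
      have := sq_nonneg t
      have : t ^ 2 ≠ 0 := pow_ne_zero 2 ht
      omega
    have h4 : (n : ℤ) ≤ 4 := by
      push_cast at k1
      nlinarith [sq_nonneg A]
    omega
  have h2 := k2 ht
  rw [h2, nr_sc] at h1
  have hA : u.a = 1 ∨ u.a = -1 := by
    rcases Int.isUnit_iff.1 (IsUnit.of_mul_eq_one _ h1) with h | h
    · exact Or.inl h
    · exact Or.inr h
  rw [h2]
  rcases hA with h | h
  · left
    rw [h]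
    rfl
  · right
    rw [h]
    rfl

/-- the quaternion of a transport is unique up to the sign -/
theorem uniq_x (hu : S_UN) (hd : S_DV) {n d : ℕ} (hn : Hn n) {v w : V3}
    (hv : bl 5 v v = (n : ℤ)) (hdn : d ∣ n) {x x' : QA 5 ℤ} (k2 : nr x = d) (l2 : nr x' = d)
    (k3 : x * pv 5 v = pv 5 w * x) (l3 : x' * pv 5 v = pv 5 w * x') : x' = x ∨ x' = -x := by
  obtain ⟨u, u1, u2, u3⟩ := unit_of hu hd hn hv hdn k2 l2 k3 l3
  have hw : bl 5 w w = (n : ℤ) := by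
    rw [← hv]
    exact rel_norm (hn.dvd_ne hdn) ⟨x, k2, k3⟩
  rcases unit_comm hn hw u1 u3 with h | h
  · left
    rw [u2, h, one_mul]
  · right
    rw [u2, h, neg_one_mul]

/-! ### the units -/

/-- the units -/
def Un : Finset (QA 5 ℤ) :=
  {⟨1, 0, 0, 0⟩, ⟨-1, 0, 0, 0⟩, ⟨0, 1, 0, 0⟩, ⟨0, -1, 0, 0⟩, ⟨1, -1, 0, 0⟩, ⟨-1, 1, 0, 0⟩}

theorem card_Un : Un.card = 6 := by decide

theorem mem_Un (x : QA 5 ℤ) : x ∈ Un ↔ nr x = 1 := by
  constructor
  · revert x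
    decide
  · intro h
    have h1 := three_nr rfl x
    have h2 := Q_nonneg (3 * x.a + x.c + 2 * x.d) (3 * x.b - 2 * x.c - x.d)
    have h3 := Q_nonneg x.c x.d
    obtain ⟨e1, e2⟩ := Q_zero (x := x.c) (y := x.d) (by omega)
    rw [h, e1, e2] at h1
    have h4 : x.a ^ 2 + x.a * x.b + x.b ^ 2 = 1 := by nlinarith
    have h5 : x.a ^ 2 ≤ 1 := by nlinarith [sq_nonneg (x.a + 2 * x.b)]
    have h6 : x.b ^ 2 ≤ 1 := by nlinarith [sq_nonneg (2 * x.a + x.b)]
    have h7 : x.a = -1 ∨ x.a = 0 ∨ x.a = 1 := by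
      have : -1 ≤ x.a := by nlinarith
      have : x.a ≤ 1 := by nlinarith
      omega
    have h8 : x.b = -1 ∨ x.b = 0 ∨ x.b = 1 := by
      have : -1 ≤ x.b := by nlinarith
      have : x.b ≤ 1 := by nlinarith
      omega
    obtain ⟨a, b, c, d⟩ := x
    dsimp only at e1 e2 h4 h7 h8
    subst e1 e2
    rcases h7 with rfl | rfl | rfl <;> rcases h8 with rfl | rfl | rfl <;>
      first | (exfalso; norm_num at h4; done) | decide

/-- a unit transports vectors to vectors -/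
theorem unit_act {u : QA 5 ℤ} (hu : nr u = 1) (v : V3) : ∃ w : V3, u * pv 5 v = pv 5 w * u := by
  obtain ⟨z, hz⟩ := exists_half (q := 5) v
  obtain ⟨w', hw'⟩ := exists_pv (u * z * cj u)
  have huu' : cj u * u = 1 := by rw [cj_mul_self, hu, sc_one]
  have htr : tr (u * z * cj u) = tr z := by
    rw [tr_mul_comm, ← mul_assoc, huu', one_mul]
  refine ⟨w', ?_⟩
  symm
  rw [hw', hz, htr, sub_mul, mul_sub, mul_assoc, mul_assoc (u * z), huu', mul_one, sc_comm (tr z),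
    ← mul_assoc, sc_comm 2 u, mul_assoc]

open Classical in
theorem card_class (hu : S_UN) (hd : S_DV) {n : ℕ} (hn : Hn n) {v : V3}
    (hv : bl 5 v v = (n : ℤ)) :
    ((vec 5 (n : ℤ)).filter fun w => rel 1 v w).card = 3 := by
  have hex : ∀ u : QA 5 ℤ, ∃ w : V3, u ∈ Un → u * pv 5 v = pv 5 w * u := by
    intro u
    by_cases hu : u ∈ Un
    · obtain ⟨w, hw⟩ := unit_act ((mem_Un u).1 hu) v
      exact ⟨w, fun _ => hw⟩
    · exact ⟨0, fun h => absurd h hu⟩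
  choose g hg using hex
  have hrel : ∀ u ∈ Un, rel 1 v (g u) := by
    intro u hu
    exact ⟨u, by rw [(mem_Un u).1 hu]; rfl, hg u hu⟩
  have hmaps : Set.MapsTo g (Un : Set (QA 5 ℤ))
      (((vec 5 (n : ℤ)).filter fun w => rel 1 v w : Finset V3) : Set V3) := by
    intro u hu
    have h1 := hrel u hu
    rw [Finset.mem_coe, Finset.mem_filter, vec_mem (Or.inr rfl)]
    refine ⟨?_, h1⟩
    rw [rel_norm one_ne_zero h1, hv]
  have key := Finset.card_eq_sum_card_fiberwise hmaps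
  have hfib : ∀ w ∈ (vec 5 (n : ℤ)).filter (fun w => rel 1 v w),
      (Un.filter fun u => g u = w).card = 2 := by
    intro w hw
    rw [Finset.mem_filter] at hw
    obtain ⟨u0, k2, k3⟩ := hw.2
    have hu0 : u0 ∈ Un := (mem_Un _).2 (by rw [k2]; rfl)
    have hne : u0 ≠ 0 := ne_zero_of_nr (d := ((1 : ℕ) : ℤ)) (by norm_num) k2
    have hgw : ∀ u ∈ Un, u * pv 5 v = pv 5 w * u → g u = w := by
      intro u hu h
      have hu1 : u ≠ 0 := ne_zero_of_nr one_ne_zero ((mem_Un u).1 hu)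
      apply pv_injective (q := 5)
      apply mul_cancel_right hu1
      rw [← hg u hu, h]
    have hset : Un.filter (fun u => g u = w) = {u0, -u0} := by
      ext u
      rw [Finset.mem_filter, Finset.mem_insert, Finset.mem_singleton]
      constructor
      · rintro ⟨hu', hgu⟩
        have h1 := (mem_Un u).1 hu'
        have h2' := hg u hu'
        rw [hgu] at h2'
        exact uniq_x hu hd hn hv (one_dvd n) k2 (by rw [h1]; rfl) k3 h2'
      · rintro (h | h)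
        · rw [h]
          exact ⟨hu0, hgw u0 hu0 k3⟩
        · have hu' : -u0 ∈ Un := by
            rw [mem_Un, nr_neg, k2]
            rfl
          rw [h]
          refine ⟨hu', hgw _ hu' ?_⟩
          rw [neg_mul, mul_neg, k3]
    rw [hset, Finset.card_pair]
    intro h
    apply hne
    have h5 : sc (2 : ℤ) * u0 = sc 2 * 0 := by
      have e1 : (sc 2 : QA 5 ℤ) * u0 = u0 + u0 := by
        ext <;> simp <;> ring
      rw [e1, mul_zero]
      nth_rewrite 2 [h]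
      rw [add_neg_cancel]
    exact sc_cancel two_ne_zero h5
  rw [Finset.sum_congr rfl hfib, Finset.sum_const, card_Un, smul_eq_mul] at key
  omega

/-! ### the classes -/

/-- the vectors of norm `n` -/
abbrev VN (n : ℕ) : Type := {v : V3 // v ∈ vec 5 (n : ℤ)}

theorem VN.bl {n : ℕ} (v : VN n) : bl 5 v.1 v.1 = (n : ℤ) := (vec_mem (Or.inr rfl)).1 v.2

/-- the equivalence of vectors -/
def st (n : ℕ) : Setoid (VN n) where
  r v w := rel 1 v.1 w.1
  iseqv := ⟨fun _ => rel_refl _, fun h => rel_symm h, fun h h' => rel_trans h h'⟩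

/-- the classes of vectors -/
def Om (n : ℕ) : Type := Quotient (st n)

/-- the class of a vector -/
def cl {n : ℕ} (v : VN n) : Om n := Quotient.mk (st n) v

theorem cl_eq {n : ℕ} (v w : VN n) : cl v = cl w ↔ rel 1 v.1 w.1 :=
  ⟨fun h => Quotient.exact h, fun h => Quotient.sound (s := st n) h⟩

/-- a representative -/
noncomputable def rep {n : ℕ} (ω : Om n) : VN n := Quotient.out ω

theorem cl_rep {n : ℕ} (ω : Om n) : cl (rep ω) = ω := Quotient.out_eq ω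

theorem cl_surj {n : ℕ} (ω : Om n) : ∃ v, ω = cl v := ⟨rep ω, (cl_rep ω).symm⟩

instance (n : ℕ) : Finite (Om n) := Finite.of_surjective cl fun ω => ⟨rep ω, cl_rep ω⟩

/-- the operator of norm `d` -/
noncomputable def TT (n d : ℕ) (ω : Om n) : Om n := by
  classical
  exact if h : ∃ w : VN n, rel d (rep ω).1 w.1 then cl h.choose else ω

/-- the conjugate of a vector of norm `n` -/
def rvn {n : ℕ} (v : VN n) : VN n := ⟨rv v.1, (vec_mem (Or.inr rfl)).2 (by rw [bl_rv, v.bl])⟩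

/-- the negative of a vector of norm `n` -/
def ngn {n : ℕ} (v : VN n) : VN n := ⟨-v.1, (vec_mem (Or.inr rfl)).2 (by rw [bl_neg, v.bl])⟩

/-- the operator of the element of norm `5` -/
def Rh {n : ℕ} : Om n → Om n :=
  Quotient.map rvn fun _ _ h => rel_rv h

/-- the operator `-1` -/
def Nu {n : ℕ} : Om n → Om n :=
  Quotient.map ngn fun _ _ h => rel_neg h

theorem Rh_cl {n : ℕ} (v : VN n) : Rh (cl v) = cl (rvn v) := rfl

theorem Nu_cl {n : ℕ} (v : VN n) : Nu (cl v) = cl (ngn v) := rfl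

theorem Rh_Rh {n : ℕ} (ω : Om n) : Rh (Rh ω) = ω := by
  obtain ⟨v, rfl⟩ := cl_surj ω
  rw [Rh_cl, Rh_cl]
  congr 1
  apply Subtype.ext
  exact rv_rv v.1

theorem Nu_Nu {n : ℕ} (ω : Om n) : Nu (Nu ω) = ω := by
  obtain ⟨v, rfl⟩ := cl_surj ω
  rw [Nu_cl, Nu_cl]
  congr 1
  apply Subtype.ext
  exact neg_neg v.1

theorem Rh_Nu {n : ℕ} (ω : Om n) : Rh (Nu ω) = Nu (Rh ω) := by
  obtain ⟨v, rfl⟩ := cl_surj ω
  rw [Nu_cl, Rh_cl, Rh_cl, Nu_cl]
  congr 1
  apply Subtype.ext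
  exact rv_neg v.1

section

variable {n : ℕ} (hx : S_EX) (hu : S_UN) (hd : S_DV) (hn : Hn n)

include hx hn in
theorem exists_rel {d : ℕ} (hdn : d ∣ n) (v : VN n) : ∃ w : VN n, rel d v.1 w.1 := by
  obtain ⟨d', h1, h2⟩ := cop_of hn hdn
  have hd0 : 0 < d := Nat.pos_of_ne_zero (hn.dvd_ne hdn)
  obtain ⟨x, w, s, s', k1, -⟩ := hx 5 (Or.inr rfl) v.1 d d' 0 (by exact_mod_cast hd0)
    (by rw [v.bl, h1]; push_cast; ring) h2
  have hr : rel d v.1 w := ⟨x, k1.norm, k1.comm⟩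
  exact ⟨⟨w, (vec_mem (Or.inr rfl)).2 (by rw [rel_norm hd0.ne' hr, v.bl])⟩, hr⟩

include hx hu hd hn in
theorem TT_spec {d : ℕ} (hdn : d ∣ n) (v w : VN n) : TT n d (cl v) = cl w ↔ rel d v.1 w.1 := by
  have hex := exists_rel hx hn hdn (rep (cl v))
  have hT : TT n d (cl v) = cl hex.choose := by
    unfold TT
    exact dif_pos hex
  have hch := hex.choose_spec
  have hrep : rel 1 v.1 (rep (cl v)).1 := (cl_eq _ _).1 (cl_rep (cl v)).symm
  have h3 : rel d v.1 hex.choose.1 := by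
    have := rel_trans hrep hch
    rwa [mul_one] at this
  rw [hT, cl_eq]
  constructor
  · intro h
    have := rel_trans h3 h
    rwa [one_mul] at this
  · intro h
    exact rel_uniq hu hd hn v.bl hdn h3 h

include hx hu hd hn in
theorem TT_eq {d : ℕ} (hdn : d ∣ n) (v : VN n) : ∃ w : VN n, TT n d (cl v) = cl w ∧
    rel d v.1 w.1 := by
  obtain ⟨w, hw⟩ := cl_surj (TT n d (cl v))
  exact ⟨w, hw, (TT_spec hx hu hd hn hdn v w).1 hw⟩

include hx hu hd hn in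
theorem TT_one (ω : Om n) : TT n 1 ω = ω := by
  obtain ⟨v, rfl⟩ := cl_surj ω
  exact (TT_spec hx hu hd hn (one_dvd n) v v).2 (rel_refl _)

include hx hu hd hn in
theorem TT_mul {d d' : ℕ} (hdd : d * d' ∣ n) (ω : Om n) :
    TT n d (TT n d' ω) = TT n (d * d') ω := by
  obtain ⟨v, rfl⟩ := cl_surj ω
  have hd1 : d ∣ n := (Dvd.intro _ rfl).trans hdd
  have hd2 : d' ∣ n := (Dvd.intro_left _ rfl).trans hdd
  obtain ⟨w, hw, hr⟩ := TT_eq hx hu hd hn hd2 v
  obtain ⟨z, hz, hr'⟩ := TT_eq hx hu hd hn hd1 w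
  rw [hw, hz]
  symm
  rw [TT_spec hx hu hd hn hdd]
  exact rel_trans hr hr'

include hx hu hd hn in
theorem TT_TT {d : ℕ} (hdn : d ∣ n) (ω : Om n) : TT n d (TT n d ω) = ω := by
  obtain ⟨v, rfl⟩ := cl_surj ω
  obtain ⟨w, hw, hr⟩ := TT_eq hx hu hd hn hdn v
  rw [hw, TT_spec hx hu hd hn hdn]
  exact rel_symm hr

include hx hu hd hn in
theorem TT_Rh {d : ℕ} (hdn : d ∣ n) (ω : Om n) : TT n d (Rh ω) = Rh (TT n d ω) := by
  obtain ⟨v, rfl⟩ := cl_surj ω
  obtain ⟨w, hw, hr⟩ := TT_eq hx hu hd hn hdn v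
  rw [hw, Rh_cl, Rh_cl, TT_spec hx hu hd hn hdn]
  exact rel_rv hr

include hx hu hd hn in
theorem TT_Nu {d : ℕ} (hdn : d ∣ n) (ω : Om n) : TT n d (Nu ω) = Nu (TT n d ω) := by
  obtain ⟨v, rfl⟩ := cl_surj ω
  obtain ⟨w, hw, hr⟩ := TT_eq hx hu hd hn hdn v
  rw [hw, Nu_cl, Nu_cl, TT_spec hx hu hd hn hdn]
  exact rel_neg hr

end

/-! ### counting -/

open Classical in
theorem card_VN {n : ℕ} (P : V3 → Prop) :
    Nat.card {v : VN n // P v.1} = ((vec 5 (n : ℤ)).filter P).card := by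
  rw [Nat.card_congr (Equiv.subtypeSubtypeEquivSubtypeInter (fun v => v ∈ vec 5 (n : ℤ)) P)]
  exact Nat.subtype_card _ fun x => by rw [Finset.mem_filter]

section

variable {n : ℕ} (hu : S_UN) (hd : S_DV) (hn : Hn n)

include hu hd hn in
theorem card_fib (ω : Om n) : Nat.card {v : VN n // cl v = ω} = 3 := by
  classical
  obtain ⟨v0, rfl⟩ := cl_surj ω
  rw [← card_class hu hd hn v0.bl, ← card_VN]
  exact Nat.card_congr (Equiv.subtypeEquivRight fun v => by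
    rw [cl_eq]
    exact ⟨rel_symm, rel_symm⟩)

include hu hd hn in
theorem card_om (Q : Om n → Prop) :
    Nat.card {v : VN n // Q (cl v)} = 3 * Nat.card {ω : Om n // Q ω} := by
  classical
  have hfin : Fintype {ω : Om n // Q ω} := Fintype.ofFinite _
  let e : {v : VN n // Q (cl v)} ≃ Σ ω : {ω : Om n // Q ω}, {v : VN n // cl v = ω.1} :=
    { toFun := fun v => ⟨⟨cl v.1, v.2⟩, ⟨v.1, rfl⟩⟩
      invFun := fun p => ⟨p.2.1, by rw [p.2.2]; exact p.1.2⟩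
      left_inv := fun v => rfl
      right_inv := fun p => by
        obtain ⟨⟨ω, hω⟩, ⟨v, hv⟩⟩ := p
        dsimp only at hv
        subst hv
        rfl }
  rw [Nat.card_congr e, Nat.card_sigma]
  rw [Finset.sum_congr rfl fun ω _ => card_fib hu hd hn ω.1]
  rw [Finset.sum_const, Finset.card_univ, smul_eq_mul, mul_comm, Nat.card_eq_fintype_card]

open Classical in
include hu hd hn in
theorem card_om' (Q : Om n → Prop) (P : V3 → Prop) (hPQ : ∀ v : VN n, Q (cl v) ↔ P v.1) :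
    ((vec 5 (n : ℤ)).filter P).card = 3 * Nat.card {ω : Om n // Q ω} := by
  rw [← card_om hu hd hn Q, ← card_VN]
  exact Nat.card_congr (Equiv.subtypeEquivRight fun v => (hPQ v).symm)

end

end Pool.Agent.XV.T3.Cl
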