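import Pool.Agent.XV.T3.Alg
import Pool.Agent.XV.PCGDefs

/-!
# Project XV, T3: the class number side: definitions and statements

`pv q v` is the vector `v` of the lattice `L q` as a pure quaternion of the order `O q = QA q ℤ`
(`L q` is the trace zero part of `ℤ + 2 O q`, `N (pv q v) = bl q v v`).
`Tp q d r x v w`: the quaternion `x` of norm `d` transports `v` to `w` and generates the left ideal
`O (v - r) + O d`.
-/

set_option autoImplicit false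

namespace Pool.Agent.XV

open Finset QA
open Pool.Agent.Z700 (V3 pr un hh)
open Pool.Agent.NH1 (lz rd)

noncomputable section

/-- a vector as a pure quaternion -/
def pv (q : ℕ) {R : Type*} [CommRing R] (v : Fin 3 → R) : QA q R :=
  if q = 5 then ⟨-(v 0 + v 1 + v 2), 2 * (v 0 + v 2), 2 * v 2, 2 * v 1⟩
  else ⟨-v 0, 2 * v 0, 2 * v 1, 2 * v 2⟩

/-- `x` has norm `d`, transports `v` to `w`, and `d` divides `x (v + r)` -/
structure Tp (q : ℕ) (d r : ℤ) (x : QA q ℤ) (v w : V3) : Prop where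
  norm : nr x = d
  comm : x * pv q v = pv q w * x
  dvd : ∃ y : QA q ℤ, x * (pv q v + sc r) = sc d * y

/-- EU: the orders are Euclidean -/
def S_EU : Prop := ∀ q : ℕ, (q = 3 ∨ q = 5) → ∀ a b : QA q ℤ, b ≠ 0 →
  ∃ k : QA q ℤ, nr (a - k * b) < nr b

/-- EX: the left ideal `O (v - r) + O d` is generated by an element of norm `d`, and this element
transports `v` to a vector of the lattice -/
def S_EX : Prop := ∀ q : ℕ, (q = 3 ∨ q = 5) → ∀ (v : V3) (d d' r : ℤ), 0 < d →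
  bl q v v + r ^ 2 = d * d' → IsCoprime d d' →
  ∃ (x : QA q ℤ) (w : V3) (s s' : QA q ℤ), Tp q d r x v w ∧ x = s * (pv q v - sc r) + s' * sc d

/-- UN: uniqueness up to units -/
def S_UN : Prop := ∀ q : ℕ, (q = 3 ∨ q = 5) → ∀ (v w w' : V3) (d d' r : ℤ) (x x' : QA q ℤ), 0 < d →
  bl q v v + r ^ 2 = d * d' → IsCoprime d d' → Tp q d r x v w → Tp q d r x' v w' →
  ∃ u : QA q ℤ, nr u = 1 ∧ x' = u * x

/-- DV: if `d ∣ N (x)`, `d ∣ N (v)` and `x v = w x` then `d ∣ x v` -/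
def S_DV : Prop := ∀ q : ℕ, (q = 3 ∨ q = 5) → ∀ d : ℕ, Squarefree d → Nat.Coprime d 15 →
  ∀ x v w : QA q ℤ, (d : ℤ) ∣ nr x → (d : ℤ) ∣ nr v → tr v = 0 → x * v = w * x →
  ∃ y : QA q ℤ, x * v = sc (d : ℤ) * y

/-- CH: the change of the characters -/
def S_CH : Prop := ∀ q : ℕ, (q = 3 ∨ q = 5) → ∀ p : ℕ, p.Prime → p ≠ 2 → p ≠ 3 → p ≠ 5 →
  ∀ f : (Fin 3 → ZMod p) → ℤ, IsPhi q p f → ∀ (x : QA q ℤ) (v w : V3), ¬ (p : ℤ) ∣ nr x →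
  (p : ℤ) ∣ bl q v v → ¬ (∀ i, (p : ℤ) ∣ v i) → x * pv q v = pv q w * x →
  f (rd p w) = jacobiSym (nr x) p * f (rd p v)

/-- CHN: the change of the characters under the ambiguous ideals -/
def S_CHN : Prop := ∀ q : ℕ, (q = 3 ∨ q = 5) → ∀ N : Finset ℕ, Pq N → ∀ D ⊆ N, ∀ (x : QA q ℤ)
  (v w : V3), bl q v v = (pr N : ℤ) → nr x = (pr D : ℤ) → x * pv q v = pv q w * x →
  ∀ p ∈ N, ph q p (rd p w) = gen N D p * ph q p (rd p v)

/-- H5: the number of orthogonal pairs of vectors -/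
def S_H5 : Prop := ∀ N : Finset ℕ, Pq N → Kb (pr N) → ∀ D ⊆ N,
  (∀ p ∈ N, gen N D p = jacobiSym (-5) p) →
  cpg 5 (pr N : ℤ) 0 (20 * (pr D : ℤ)) = 6 * 2 ^ N.card

/-- EQU: the characters are equidistributed -/
def S_EQU : Prop := ∀ q : ℕ, (q = 3 ∨ q = 5) → ∀ N : Finset ℕ, Pq N → (q = 5 → Kb (pr N)) →
  (q = 3 → Kd (pr N)) → ∀ γ : ℕ → ℤ, (∀ p ∈ N, γ p = 1 ∨ γ p = -1) →
  2 ^ N.card * Nat.card {v : V3 // v ∈ vec q (pr N : ℤ) ∧ ∀ p ∈ N, ph q p (rd p v) = γ p} =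
    (vec q (pr N : ℤ)).card

/-- the operators on the classes of vectors of `L 5` of norm `pr N` modulo the units: `T D` is the
action of the ambiguous ideal of norm `pr D`, `ρ` the conjugation by the element `j` of norm `5`
(`j² = -5`), `ν` the map `v → - v` -/
def Ops5 (N : Finset ℕ) (T0 : ℤ) : Prop :=
  ∃ (Ω : Type) (_ : Fintype Ω) (_ : DecidableEq Ω) (T : Finset ℕ → Ω → Ω) (ρ ν : Ω → Ω)
    (χ : Ω → ℕ → ℤ),
    (∀ ω, T ∅ ω = ω) ∧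
    (∀ D ⊆ N, ∀ D' ⊆ N, ∀ ω, T D (T D' ω) = T (symmDiff D D') ω) ∧
    (∀ ω, ρ (ρ ω) = ω ∧ ν (ν ω) = ω ∧ ρ (ν ω) = ν (ρ ω)) ∧
    (∀ D ⊆ N, ∀ ω, T D (ρ ω) = ρ (T D ω) ∧ T D (ν ω) = ν (T D ω)) ∧
    (∀ D ⊆ N, ∀ p ∈ N, ∀ ω, χ (T D ω) p = gen N D p * χ ω p) ∧
    (∀ p ∈ N, ∀ ω, χ (ρ ω) p = jacobiSym 5 p * χ ω p ∧ χ (ν ω) p = jacobiSym (-1) p * χ ω p ∧
      (χ ω p = 1 ∨ χ ω p = -1)) ∧
    (∀ γ : ℕ → ℤ, (∀ p ∈ N, γ p = 1 ∨ γ p = -1) →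
      3 * (Nat.card {ω : Ω // ∀ p ∈ N, χ ω p = γ p} : ℤ) = T0) ∧
    (∀ D ⊆ N, ¬ (D = ∅ ∨ D = N) → ∀ ω, T D ω ≠ ω) ∧
    (∀ D ⊆ N, (∀ p ∈ N, gen N D p = jacobiSym (-5) p) →
      Nat.card {ω : Ω // ν (ρ (T D ω)) = ω} = 2 ^ N.card)

/-- OPS: existence of the operators -/
def S_OPS : Prop := ∀ N : Finset ℕ, Pq N → Kb (pr N) → ∀ T : ℤ,
  ((vec 5 (pr N : ℤ)).card : ℤ) = 2 ^ N.card * T → Ops5 N T

end

end Pool.Agent.XV
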