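import Pool.Agent.XV.T3.Defs

/-!
# Project XV, T3: the number of orthogonal pairs of vectors
-/

set_option autoImplicit false

namespace Pool.Agent.XV

open Finset
open Pool.Agent.Z700 (V3 pr un hh)

namespace H5x

theorem pr_primeFactors {N : Finset ℕ} (hN : Pq N) : (pr N).primeFactors = N := by
  unfold pr
  exact Nat.primeFactors_prod fun p hp => (hN p hp).1

theorem pr_sqf {N : Finset ℕ} (hN : Pq N) : Squarefree (pr N) := by
  unfold pr
  refine Finset.squarefree_prod_of_pairwise_isCoprime ?_ fun p hp => (hN p hp).1.squarefree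
  intro p hp q hq hne
  exact Nat.coprime_iff_isRelPrime.1 ((Nat.coprime_primes (hN p hp).1 (hN q hq).1).2 hne)

theorem pr_mul {N D : Finset ℕ} (h : D ⊆ N) : pr N = pr D * pr (N \ D) := by
  unfold pr
  rw [mul_comm]
  exact (Finset.prod_sdiff h).symm

theorem dvd_pr {N : Finset ℕ} (hN : Pq N) {p : ℕ} (hp : p.Prime) : p ∣ pr N ↔ p ∈ N := by
  have h := Nat.mem_primeFactors_of_ne_zero (n := pr N) (p := p) (pr_sqf hN).ne_zero
  rw [pr_primeFactors hN] at h
  rw [h]
  exact (and_iff_right hp).symm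

theorem pr_erase {N : Finset ℕ} {p : ℕ} (hp : p ∈ N) : pr N = p * pr (N.erase p) := by
  unfold pr
  exact (Finset.mul_prod_erase N (fun x => x) hp).symm

/-- the exponent -/
theorem fz {l c j : ℕ} (hl : l.Prime) (hc : ¬ l ∣ c) : (l ^ j * c).factorization l = j := by
  have hc0 : c ≠ 0 := by
    rintro rfl
    exact hc (dvd_zero l)
  rw [Nat.factorization_mul (pow_ne_zero _ hl.ne_zero) hc0, Finsupp.add_apply,
    hl.factorization_pow, Nat.factorization_eq_zero_of_not_dvd hc, Finsupp.single_eq_same,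
    Nat.add_zero]

theorem jsq {p : ℕ} (hp : p.Prime) {k : ℕ} (h : ¬ p ∣ k) : jacobiSym ((k : ℤ) ^ 2) p = 1 := by
  rw [jacobiSym.pow_left]
  refine jacobiSym.sq_one ?_
  rw [Int.gcd_natCast_natCast]
  exact ((Nat.Prime.coprime_iff_not_dvd hp).2 h).symm

theorem jm5 {p : ℕ} (hp : p.Prime) (h5 : p ≠ 5) {a : ℤ} (h : a = jacobiSym (-5) p) :
    jacobiSym (-5) p * a = 1 := by
  rw [h, ← pow_two]
  refine jacobiSym.sq_one ?_
  have h3 : Nat.Coprime 5 p := (Nat.coprime_primes Nat.prime_five hp).2 (Ne.symm h5)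
  rw [Int.gcd_eq_natAbs]
  simpa using h3

end H5x

open H5x in
theorem t_H5 (h : S_PCG) : S_H5 := by
  intro N hN hK D hD hg
  have hPD : Pq D := fun p hp => hN p (hD hp)
  have hPE : Pq (N \ D) := fun p hp => hN p (Finset.mem_sdiff.1 hp).1
  have hmul := pr_mul hD
  have hn := pr_sqf hN
  have hd := pr_sqf hPD
  have hn0 := hn.ne_zero
  have hd0 := hd.ne_zero
  have hp5 : Nat.Prime 5 := Nat.prime_five
  have h5N : ¬ 5 ∣ pr N := fun h5 => (hN 5 ((dvd_pr hN hp5).1 h5)).2.2.2 rfl
  have h5D : ¬ 5 ∣ pr D := fun h5 => (hPD 5 ((dvd_pr hPD hp5).1 h5)).2.2.2 rfl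
  have h5DN : ¬ 5 ∣ pr D * pr N := by
    rw [hp5.dvd_mul]
    exact fun h => h.elim h5D h5N
  set D' : ℕ := 5 * (pr D * pr N) with hD'
  have hD0 : 0 < D' := Nat.pos_of_ne_zero (by positivity)
  have hf5 : D'.factorization 5 = 1 := by
    have := fz (j := 1) hp5 h5DN
    rwa [pow_one] at this
  have hpf : D'.primeFactors.erase 5 = N := by
    rw [hD', Nat.primeFactors_mul (by norm_num) (mul_ne_zero hd0 hn0),
      Nat.primeFactors_mul hd0 hn0, pr_primeFactors hN, pr_primeFactors hPD, hp5.primeFactors,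
      Finset.union_eq_right.2 hD, Finset.singleton_union, Finset.erase_insert]
    exact fun h5 => (hN 5 h5).2.2.2 rfl
  have key := (h (pr N) hn 0 (20 * (pr D : ℤ)) D' hD0 (by rw [hD']; push_cast; ring)).1 hK
  rw [hf5, if_pos odd_one, hpf] at key
  have hfc : ∀ l ∈ N, fc (pr N) D' l = 2 := by
    intro l hl
    obtain ⟨hlp, hl2, hl3, hl5⟩ := hN l hl
    have hln : l ∣ pr N := (dvd_pr hN hlp).2 hl
    have hl55 : ¬ l ∣ 5 := fun h5 => hl5 ((Nat.prime_dvd_prime_iff_eq hlp hp5).1 h5)
    have hPNl : Pq (N.erase l) := fun p hp => hN p (Finset.mem_of_mem_erase hp)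
    have hlk : ¬ l ∣ pr (N.erase l) := fun h5 =>
      (Finset.notMem_erase l N) ((dvd_pr hPNl hlp).1 h5)
    have hNe := pr_erase hl
    have hgl := hg l hl
    unfold gen at hgl
    suffices hh (pr N) D' l = 1 by
      unfold fc
      rw [if_pos hln, this]
      norm_num
    by_cases hlD : l ∈ D
    · rw [if_pos hlD] at hgl
      have hPDl : Pq (D.erase l) := fun p hp => hPD p (Finset.mem_of_mem_erase hp)
      have hlk' : ¬ l ∣ pr (D.erase l) := fun h5 =>
        (Finset.notMem_erase l D) ((dvd_pr hPDl hlp).1 h5)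
      have hlE : ¬ l ∣ pr (N \ D) := fun h5 =>
        (Finset.mem_sdiff.1 ((dvd_pr hPE hlp).1 h5)).2 hlD
      have hDe := pr_erase hlD
      have e1 : D' = l ^ 2 * (5 * pr (D.erase l) ^ 2 * pr (N \ D)) := by
        rw [hD', hmul, hDe]
        ring
      have hnd : ¬ l ∣ 5 * pr (D.erase l) ^ 2 * pr (N \ D) := by
        rw [hlp.dvd_mul, hlp.dvd_mul]
        rintro ((h1 | h1) | h1)
        · exact hl55 h1
        · exact hlk' (hlp.dvd_of_dvd_pow h1)
        · exact hlE h1
      have e2 : D'.factorization l = 2 := by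
        rw [e1]
        exact fz hlp hnd
      unfold hh
      rw [e2, if_pos (by decide), e1, Nat.mul_div_cancel_left _ (pow_pos hlp.pos 2)]
      have e3 : (-((5 * pr (D.erase l) ^ 2 * pr (N \ D) : ℕ) : ℤ)) =
          (-5 * (pr (N \ D) : ℤ)) * ((pr (D.erase l) : ℤ) ^ 2) := by
        push_cast
        ring
      rw [e3, jacobiSym.mul_left, jacobiSym.mul_left, jsq hlp hlk', mul_one]
      exact jm5 hlp hl5 hgl
    · rw [if_neg hlD] at hgl
      have hlD' : ¬ l ∣ pr D := fun h5 => hlD ((dvd_pr hPD hlp).1 h5)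
      have e1 : D' = l ^ 1 * (5 * pr D * pr (N.erase l)) := by
        rw [hD', hNe]
        ring
      have hnd : ¬ l ∣ 5 * pr D * pr (N.erase l) := by
        rw [hlp.dvd_mul, hlp.dvd_mul]
        rintro ((h1 | h1) | h1)
        · exact hl55 h1
        · exact hlD' h1
        · exact hlk h1
      have e2 : D'.factorization l = 1 := by
        rw [e1]
        exact fz hlp hnd
      unfold hh
      rw [e2, if_neg (by decide), e1, Nat.mul_div_cancel_left _ (pow_pos hlp.pos 1)]
      have e4 : pr N / l = pr (N.erase l) := by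
        rw [hNe, Nat.mul_div_cancel_left _ hlp.pos]
      rw [e4]
      have e3 : (-((pr (N.erase l) * (5 * pr D * pr (N.erase l)) : ℕ) : ℤ)) =
          (-5 * (pr D : ℤ)) * ((pr (N.erase l) : ℤ) ^ 2) := by
        push_cast
        ring
      rw [e3, jacobiSym.mul_left, jacobiSym.mul_left, jsq hlp hlk, mul_one]
      exact jm5 hlp hl5 hgl
  rw [Finset.prod_congr rfl hfc, Finset.prod_const] at key
  exact_mod_cast key

end Pool.Agent.XV
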