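import Pool.Agent.XV.T3.Cl

/-!
# Project XV, T3: the operators on the classes of the vectors of `L 5` (helper87)

Port of `NH1/OpsE.lean`, `NH1/Ops.lean` to the maximal order `O 5`.
-/

set_option autoImplicit false

namespace Pool.Agent.XV.T3.Cl

open Finset QA
open Pool.Agent.Z700 (V3 pr)
open Pool.Agent.NH1 (lz rd)

/-! ### products of primes -/

theorem pr_pos {N : Finset ℕ} (hN : ∀ p ∈ N, p.Prime) : 0 < pr N :=
  Finset.prod_pos fun p hp => (hN p hp).pos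

theorem pr_squarefree {N : Finset ℕ} (hN : ∀ p ∈ N, p.Prime) : Squarefree (pr N) := by
  unfold Pool.Agent.Z700.pr
  exact Finset.squarefree_prod_of_pairwise_isCoprime
    (fun p hp q hq hpq => (Nat.coprime_iff_isRelPrime.1
      ((Nat.coprime_primes (hN p hp) (hN q hq)).2 hpq)))
    (fun p hp => (hN p hp).squarefree)

theorem pr_empty : pr ∅ = 1 := rfl

theorem pr_dvd {N D : Finset ℕ} (h : D ⊆ N) : pr D ∣ pr N :=
  Finset.prod_dvd_prod_of_subset _ _ _ h

theorem pr_union {D E : Finset ℕ} (h : Disjoint D E) : pr (D ∪ E) = pr D * pr E :=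
  Finset.prod_union h

theorem pr_one {D : Finset ℕ} (hD : ∀ p ∈ D, p.Prime) (h : pr D = 1) : D = ∅ := by
  rw [Finset.eq_empty_iff_forall_notMem]
  intro p hp
  have h1 : p ∣ pr D := Finset.dvd_prod_of_mem _ hp
  rw [h] at h1
  exact (hD p hp).one_lt.ne' (Nat.dvd_one.1 h1)

theorem pr_eq {N D : Finset ℕ} (hN : ∀ p ∈ N, p.Prime) (hD : D ⊆ N) (h : pr D = pr N) :
    D = N := by
  have h1 : pr (N \ D) = 1 := by
    have h2 : pr N = pr (N \ D) * pr D := by
      rw [← pr_union Finset.sdiff_disjoint, Finset.sdiff_union_of_subset hD]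
    have h3 : 0 < pr D := pr_pos fun p hp => hN p (hD hp)
    rw [h] at h3
    rw [h] at h2
    have h4 : pr (N \ D) * pr N = 1 * pr N := by rw [← h2, one_mul]
    exact Nat.eq_of_mul_eq_mul_right h3 h4
  have h5 := pr_one (fun p hp => hN p (Finset.sdiff_subset hp)) h1
  exact Finset.Subset.antisymm hD (Finset.sdiff_eq_empty_iff_subset.1 h5)

theorem hn_of {N : Finset ℕ} (hN : Pq N) (hk : Kb (pr N)) : Hn (pr N) := by
  refine ⟨pr_squarefree fun p hp => (hN p hp).1, ?_, ?_⟩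
  · rcases hk with h | h
    · have h1 : pr N % 30 = 23 := by omega
      rw [Nat.Coprime, Nat.gcd_comm, Nat.gcd_rec, h1]
      norm_num
    · have h1 : pr N % 30 = 17 := by omega
      rw [Nat.Coprime, Nat.gcd_comm, Nat.gcd_rec, h1]
      norm_num
  · rcases hk with h | h <;> omega

/-! ### the equation -/

theorem sq_cases (b : ℤ) : b = 0 ∨ b ^ 2 = 1 ∨ 4 ≤ b ^ 2 := by
  rcases lt_trichotomy b 0 with h | h | h
  · right
    rcases (show b = -1 ∨ b ≤ -2 by omega) with h | h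
    · left
      rw [h]
      norm_num
    · right
      nlinarith
  · exact Or.inl h
  · right
    rcases (show b = 1 ∨ 2 ≤ b by omega) with h | h
    · left
      rw [h]
      norm_num
    · right
      nlinarith

theorem nt_odd {n d : ℕ} (hn : Squarefree n) (ho : n % 2 = 1) (h3 : n ≠ 3) (hd : d ∣ n)
    {a b : ℤ} (h : a ^ 2 + n * b ^ 2 = 4 * d) : d = 1 ∨ d = n := by
  have hds : Squarefree d := hn.squarefree_of_dvd hd
  have hnpos : 0 < n := Nat.pos_of_ne_zero hn.ne_zero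
  obtain ⟨d', rfl⟩ := hd
  have hdpos : 0 < d := Nat.pos_of_ne_zero hds.ne_zero
  have hd'pos : 0 < d' := Nat.pos_of_ne_zero fun h => by
    rw [h, mul_zero] at hnpos
    exact lt_irrefl _ hnpos
  have hdvd : (d : ℤ) ∣ a := by
    apply dvd_of_dvd_sq hds
    refine ⟨4 - d' * b ^ 2, ?_⟩
    push_cast at h
    linarith
  obtain ⟨c, rfl⟩ := hdvd
  have hdz : (d : ℤ) ≠ 0 := by exact_mod_cast hdpos.ne'
  have key : (d : ℤ) * c ^ 2 + d' * b ^ 2 = 4 := by
    apply mul_left_cancel₀ hdz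
    push_cast at h
    linarith
  have hdz1 : (1 : ℤ) ≤ d := by exact_mod_cast hdpos
  have hdz2 : (1 : ℤ) ≤ d' := by exact_mod_cast hd'pos
  have hodd : d % 2 = 1 ∧ d' % 2 = 1 := by
    have : Odd (d * d') := Nat.odd_iff.2 ho
    rw [Nat.odd_mul] at this
    exact ⟨Nat.odd_iff.1 this.1, Nat.odd_iff.1 this.2⟩
  rcases sq_cases c with hc | hc | hc <;> rcases sq_cases b with hb | hb | hb
  · rw [hc, hb] at key
    norm_num at key
  · rw [hc, hb] at key
    norm_num at key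
    have : d' = 4 := by exact_mod_cast key
    omega
  · right
    rw [hc] at key
    have : (d' : ℤ) ≤ 1 := by nlinarith
    have : d' = 1 := by
      have : d' ≤ 1 := by exact_mod_cast this
      omega
    rw [this, mul_one]
  · rw [hc, hb] at key
    norm_num at key
    have : d = 4 := by exact_mod_cast key
    omega
  · rw [hc, hb] at key
    have : d + d' = 4 := by
      have : (d : ℤ) + d' = 4 := by linarith
      exact_mod_cast this
    have : d = 1 ∨ d = 3 := by omega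
    rcases this with h1 | h1
    · left
      exact h1
    · exfalso
      have : d' = 1 := by omega
      rw [h1, this] at h3
      exact h3 rfl
  · rw [hc] at key
    nlinarith
  · left
    have : (d : ℤ) ≤ 1 := by
      rw [hb] at key
      nlinarith
    have : d ≤ 1 := by exact_mod_cast this
    omega
  · rw [hb] at key
    nlinarith
  · nlinarith

/-- the operators have no fixed points -/
theorem no_fix {N D : Finset ℕ} (hN : ∀ p ∈ N, p.Prime) (hn : Hn (pr N)) (hD : D ⊆ N) {v : V3}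
    (hv : bl 5 v v = (pr N : ℤ)) (h : rel (pr D) v v) : D = ∅ ∨ D = N := by
  obtain ⟨z, k2, k3⟩ := h
  obtain ⟨A, t, l1, -⟩ := comm_form hn.sf hv k2 k3
  have key : pr D = 1 ∨ pr D = pr N :=
    nt_odd hn.sf (by have := hn.mod; omega) (by have := hn.five; omega) (pr_dvd hD) l1
  rcases key with h | h
  · exact Or.inl (pr_one (fun p hp => hN p (hD hp)) h)
  · exact Or.inr (pr_eq hN hD h)

/-! ### fixed points and orthogonal pairs -/

theorem anti_iff (v w : V3) : pv 5 w * pv 5 v = -(pv 5 v * pv 5 w) ↔ bl 5 v w = 0 := by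
  have h := pv_add v w
  constructor
  · intro h1
    rw [h1, add_neg_cancel] at h
    have h2 := congrArg QA.a h
    simp only [zero_a, sc_a] at h2
    omega
  · intro h1
    rw [h1, mul_zero, neg_zero, sc_zero] at h
    exact eq_neg_of_add_eq_zero_right h

theorem tr_of_anti {n : ℕ} (hn : n ≠ 0) {v : V3} (hv : bl 5 v v = (n : ℤ)) {y : QA 5 ℤ}
    (h : y * pv 5 v = -(pv 5 v * y)) : tr y = 0 := by
  have h1 := congrArg cj h
  rw [cj_neg, cj_mul, cj_mul, cj_pv, neg_mul, mul_neg, neg_neg] at h1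
  -- h1 : -(pv v * cj y) = cj y * pv v
  have h2 : sc (tr y) * pv 5 v = -(sc (tr y) * pv 5 v) := by
    conv_lhs => rw [← add_cj, add_mul, h, ← h1, ← neg_add, ← mul_add, add_cj, ← sc_comm]
  have h3 : sc (2 * tr y) * pv 5 v = sc (2 * tr y) * 0 := by
    rw [mul_zero, two_mul, sc_add, add_mul]
    nth_rewrite 2 [h2]
    exact add_neg_cancel _
  by_contra h0
  have h4 := sc_cancel (by omega : (2 * tr y) ≠ 0) h3
  have h5 : nr (pv 5 v : QA 5 ℤ) = 0 := by
    rw [h4]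
    rfl
  rw [nr_pv, hv] at h5
  exact hn (by exact_mod_cast h5)

/-- the elements of norm divisible by `5` are multiples of `jj` -/
theorem exists_jj {y : QA 5 ℤ} (h : (5 : ℤ) ∣ nr y) : ∃ x : QA 5 ℤ, jj * x = y := by
  have key : ∀ a b c d : ZMod 5, a * a + a * b + b * b + 2 * (c * c + c * d + d * d) +
      (a * d - b * c) = 0 → -a - b + c * 2 - d * 2 = 0 ∧ b - c * 4 - d * 2 = 0 ∧
      -c - a + b - d = 0 ∧ d + a * 2 + b = 0 := by decide +kernel
  have h1 : ((nr y : ℤ) : ZMod 5) = 0 := (ZMod.intCast_zmod_eq_zero_iff_dvd _ 5).2 h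
  have h2 : nr y = y.a * y.a + y.a * y.b + y.b * y.b + 2 * (y.c * y.c + y.c * y.d + y.d * y.d) +
      (y.a * y.d - y.b * y.c) := by
    simp [nr, m5, t5]
  rw [h2] at h1
  push_cast at h1
  obtain ⟨k1, k2, k3, k4⟩ := key _ _ _ _ h1
  have e : ∀ z : ℤ, (z : ZMod 5) = 0 → (5 : ℤ) ∣ z := fun z hz =>
    (ZMod.intCast_zmod_eq_zero_iff_dvd _ 5).1 hz
  obtain ⟨a', ha⟩ := e (-y.a - y.b + y.c * 2 - y.d * 2) (by push_cast; exact k1)
  obtain ⟨b', hb⟩ := e (y.b - y.c * 4 - y.d * 2) (by push_cast; exact k2)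
  obtain ⟨c', hc⟩ := e (-y.c - y.a + y.b - y.d) (by push_cast; exact k3)
  obtain ⟨d', hd⟩ := e (y.d + y.a * 2 + y.b) (by push_cast; exact k4)
  have h3 : jj * y = sc 5 * (⟨a', b', c', d'⟩ : QA 5 ℤ) := by
    ext
    · simp [jj, m5, t5]
      linarith
    · simp [jj, m5, t5]
      linarith
    · simp [jj, m5, t5]
      linarith
    · simp [jj, m5, t5]
      linarith
  refine ⟨-⟨a', b', c', d'⟩, ?_⟩
  have h4 : jj * (jj * y) = sc 5 * (jj * (⟨a', b', c', d'⟩ : QA 5 ℤ)) := by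
    rw [h3, ← mul_assoc, ← sc_comm, mul_assoc]
  rw [← mul_assoc, jj_jj, sc_neg, neg_mul, ← mul_neg] at h4
  have h5 := sc_cancel (by norm_num) h4
  rw [mul_neg, ← h5, neg_neg]

theorem jj_ne : jj ≠ 0 := ne_zero_of_nr (by norm_num) nr_jj

/-- a vector of norm `4 m` is twice a quaternion -/
theorem half_exists {m : ℤ} {Y : V3} (hY : bl 5 Y Y = 4 * m) :
    ∃ y : QA 5 ℤ, pv 5 Y = sc 2 * y ∧ nr y = m := by
  obtain ⟨z, hz⟩ := exists_half (q := 5) Y
  have h1 : bl 5 Y Y = 4 * nr z - tr z ^ 2 := by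
    rw [← nr_pv, hz, nr_pure]
  have h2 : (2 : ℤ) ∣ tr z := by
    have h3 : (2 : ℤ) ∣ tr z ^ 2 := ⟨2 * nr z - 2 * m, by linarith⟩
    exact Int.prime_two.dvd_of_dvd_pow h3
  obtain ⟨s, hs⟩ := h2
  have h3 : pv 5 Y = sc 2 * (z - sc s) := by
    rw [hz, hs, mul_sub, sc_mul]
  refine ⟨z - sc s, h3, ?_⟩
  have h4 := congrArg nr h3
  rw [nr_pv, nr_sc_mul, hY] at h4
  linarith

/-- the quaternion of a vector which belongs to a fixed point -/
theorem jj_anti {v : V3} {x : QA 5 ℤ} :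
    x * pv 5 v = pv 5 (rv (-v)) * x ↔ (jj * x) * pv 5 v = -(pv 5 v * (jj * x)) := by
  have e1 : jj * (pv 5 (rv (-v)) * x) = -(pv 5 v * (jj * x)) := by
    rw [← mul_assoc, jj_mul, ← cj5_pv, cj5_cj5, pv_neg, neg_mul, neg_mul, mul_assoc]
  have e2 : jj * (x * pv 5 v) = (jj * x) * pv 5 v := by rw [mul_assoc]
  rw [← e1, ← e2]
  constructor
  · intro h
    rw [h]
  · intro h
    exact mul_cancel_left jj_ne h

theorem anti_half {v Y : V3} {y : QA 5 ℤ} (h : pv 5 Y = sc 2 * y) :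
    y * pv 5 v = -(pv 5 v * y) ↔ bl 5 v Y = 0 := by
  rw [← anti_iff, h]
  have e1 : sc 2 * y * pv 5 v = sc 2 * (y * pv 5 v) := by rw [mul_assoc]
  have e2 : -(pv 5 v * (sc 2 * y)) = sc 2 * (-(pv 5 v * y)) := by
    rw [← mul_assoc, ← sc_comm, mul_assoc, mul_neg]
  rw [e1, e2]
  constructor
  · intro h
    rw [h]
  · intro h
    exact sc_cancel two_ne_zero h

theorem rel_rv_iff {n d : ℕ} (hn : n ≠ 0) {v : V3} (hv : bl 5 v v = (n : ℤ)) :
    rel d v (rv (-v)) ↔ ∃ Y ∈ vec 5 (20 * (d : ℤ)), bl 5 v Y = 0 := by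
  constructor
  · rintro ⟨x, k2, k3⟩
    rw [jj_anti] at k3
    obtain ⟨Y, hY⟩ := exists_pv (jj * x)
    rw [tr_of_anti hn hv k3, sc_zero, sub_zero] at hY
    refine ⟨Y, ?_, (anti_half hY).1 k3⟩
    rw [vec_mem (Or.inr rfl), ← nr_pv, hY, nr_sc_mul, nr_mul, nr_jj, k2]
    ring
  · rintro ⟨Y, hY, h0⟩
    rw [vec_mem (Or.inr rfl)] at hY
    obtain ⟨y, h1, h2⟩ := half_exists (m := 5 * (d : ℤ)) (by rw [hY]; ring)
    obtain ⟨x, hx⟩ := exists_jj (y := y) ⟨d, h2⟩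
    refine ⟨x, ?_, ?_⟩
    · rw [← hx, nr_mul, nr_jj] at h2
      linarith
    · rw [jj_anti, hx]
      exact (anti_half h1).2 h0

theorem uniq_rv (hu : S_UN) (hd : S_DV) {n d : ℕ} (hn : Hn n) {v : V3}
    (hv : bl 5 v v = (n : ℤ)) (hdn : d ∣ n) {Y Y' : V3} (hY : Y ∈ vec 5 (20 * (d : ℤ)))
    (hY' : Y' ∈ vec 5 (20 * (d : ℤ))) (h0 : bl 5 v Y = 0) (h0' : bl 5 v Y' = 0) :
    Y' = Y ∨ Y' = -Y := by
  have key : ∀ Y ∈ vec 5 (20 * (d : ℤ)), bl 5 v Y = 0 → ∃ x : QA 5 ℤ, pv 5 Y = sc 2 * (jj * x) ∧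
      nr x = d ∧ x * pv 5 v = pv 5 (rv (-v)) * x := by
    intro Y hY h0
    rw [vec_mem (Or.inr rfl)] at hY
    obtain ⟨y, h1, h2⟩ := half_exists (m := 5 * (d : ℤ)) (by rw [hY]; ring)
    obtain ⟨x, hx⟩ := exists_jj (y := y) ⟨d, h2⟩
    refine ⟨x, by rw [hx]; exact h1, ?_, ?_⟩
    · rw [← hx, nr_mul, nr_jj] at h2
      linarith
    · rw [jj_anti, hx]
      exact (anti_half h1).2 h0
  obtain ⟨x, k1, k2, k3⟩ := key Y hY h0
  obtain ⟨x', l1, l2, l3⟩ := key Y' hY' h0'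
  rcases uniq_x hu hd hn hv hdn k2 l2 k3 l3 with h | h
  · left
    apply pv_injective (q := 5)
    rw [k1, l1, h]
  · right
    apply pv_injective (q := 5)
    rw [pv_neg, k1, l1, h, mul_neg, mul_neg]

open Classical in
theorem cp_eq (n : ℕ) {m : ℤ} (hm : m ≠ 0) (P : V3 → Prop)
    (hP : ∀ v ∈ vec 5 (n : ℤ), P v ↔ ∃ y ∈ vec 5 m, bl 5 v y = 0)
    (hu : ∀ v ∈ vec 5 (n : ℤ), ∀ y ∈ vec 5 m, ∀ y' ∈ vec 5 m, bl 5 v y = 0 → bl 5 v y' = 0 →
      y' = y ∨ y' = -y) : cpg 5 (n : ℤ) 0 m = 2 * ((vec 5 (n : ℤ)).filter P).card := by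
  unfold cpg
  rw [Finset.card_filter, Finset.sum_product]
  have h1 : ∀ v ∈ vec 5 (n : ℤ), ∑ y ∈ vec 5 m, (if bl 5 v y = 0 then 1 else 0) =
      if P v then 2 else 0 := by
    intro v hv
    rw [← Finset.card_filter]
    split_ifs with h
    · obtain ⟨y, hy, hy0⟩ := (hP v hv).1 h
      have hset : (vec 5 m).filter (fun y => bl 5 v y = 0) = {y, -y} := by
        ext y'
        rw [Finset.mem_filter, Finset.mem_insert, Finset.mem_singleton]
        constructor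
        · rintro ⟨k1, k2⟩
          exact hu v hv y hy y' k1 hy0 k2
        · rintro (h | h)
          · rw [h]
            exact ⟨hy, hy0⟩
          · rw [h]
            refine ⟨(vec_mem (Or.inr rfl)).2 (by rw [bl_neg, (vec_mem (Or.inr rfl)).1 hy]), ?_⟩
            have e : bl 5 v (-y) = -bl 5 v y := by
              rw [bl5 rfl, bl5 rfl]
              simp only [Pi.neg_apply]
              ring
            rw [e, hy0, neg_zero]
      rw [hset, Finset.card_pair]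
      intro hyy
      have hy00 : y = 0 := by
        funext i
        have := congrFun hyy i
        rw [Pi.neg_apply] at this
        change y i = 0
        omega
      rw [vec_mem (Or.inr rfl), hy00, bl5 rfl] at hy
      apply hm
      rw [← hy]
      simp
    · rw [Finset.card_eq_zero, Finset.filter_eq_empty_iff]
      intro y hy hy0
      exact h ((hP v hv).2 ⟨y, hy, hy0⟩)
  rw [Finset.sum_congr rfl h1, ← Finset.sum_filter, Finset.sum_const, smul_eq_mul, mul_comm]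

/-! ### characters -/

theorem lz_int (p : ℕ) [NeZero p] (a : ℤ) : lz p (a : ZMod p) = jacobiSym a p := by
  unfold Pool.Agent.NH1.lz
  rw [ZMod.val_intCast, ← jacobiSym.mod_left]

theorem rd_bl (p : ℕ) (v w : V3) : bl 5 (rd p v) (rd p w) = ((bl 5 v w : ℤ) : ZMod p) := by
  rw [bl5 rfl, bl5 rfl]
  unfold Pool.Agent.NH1.rd
  push_cast
  rfl

theorem not_dvd {N : Finset ℕ} (hN : ∀ p ∈ N, p.Prime) {v : V3} (hv : bl 5 v v = (pr N : ℤ))
    {p : ℕ} (hp : p ∈ N) : ¬ ∀ i, (p : ℤ) ∣ v i := by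
  intro h1
  have h3 : ((p * p : ℕ) : ℤ) ∣ (pr N : ℤ) := by
    obtain ⟨a, ha⟩ := h1 0
    obtain ⟨b, hb⟩ := h1 1
    obtain ⟨c, hc⟩ := h1 2
    rw [← hv, bl5 rfl, ha, hb, hc]
    refine ⟨3 * (a * a) + 7 * (b * b) + 7 * (c * c) - (a * b + b * a) + (a * c + c * a) +
      3 * (b * c + c * b), ?_⟩
    push_cast
    ring
  have h4 : p * p ∣ pr N := by exact_mod_cast h3
  have h5 := pr_squarefree hN p h4
  exact (hN p hp).one_lt.ne' (Nat.isUnit_iff.1 h5)

theorem rd_ne {N : Finset ℕ} (hN : ∀ p ∈ N, p.Prime) {v : V3} (hv : bl 5 v v = (pr N : ℤ))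
    {p : ℕ} (hp : p ∈ N) : rd p v ≠ 0 ∧ bl 5 (rd p v) (rd p v) = 0 := by
  have hpn : p ∣ pr N := Finset.dvd_prod_of_mem _ hp
  constructor
  · intro h
    apply not_dvd hN hv hp
    intro i
    have h2 := congrFun h i
    unfold Pool.Agent.NH1.rd at h2
    exact (ZMod.intCast_zmod_eq_zero_iff_dvd _ _).1 h2
  · rw [rd_bl, hv]
    push_cast
    exact (ZMod.natCast_eq_zero_iff _ _).2 hpn

/-- the characters of a class -/
noncomputable def chi {n : ℕ} (ω : Om n) (p : ℕ) : ℤ := ph 5 p (rd p (rep ω).1)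

section

variable {N : Finset ℕ} (h0 : S_PHI) (hc : S_CH) (hcn : S_CHN) (hN : Pq N)

include hcn hN in
theorem chi_cl (v : VN (pr N)) {p : ℕ} (hp : p ∈ N) : chi (cl v) p = ph 5 p (rd p v.1) := by
  unfold chi
  have hr : rel 1 v.1 (rep (cl v)).1 := (cl_eq _ _).1 (cl_rep (cl v)).symm
  obtain ⟨x, k2, k3⟩ := hr
  have h4 := hcn 5 (Or.inr rfl) N hN ∅ (Finset.empty_subset _) x v.1 (rep (cl v)).1 v.bl
    (by rw [k2, pr_empty]) k3 p hp
  have h5 : gen N ∅ p = 1 := by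
    unfold gen
    rw [if_neg (Finset.notMem_empty _), pr_empty, Nat.cast_one, jacobiSym.one_left]
  rw [h4, h5, one_mul]

include hcn hN in
theorem chi_TT (hx : S_EX) (hu : S_UN) (hd : S_DV) (hn : Hn (pr N)) {D : Finset ℕ} (hD : D ⊆ N)
    (ω : Om (pr N)) {p : ℕ} (hp : p ∈ N) :
    chi (TT (pr N) (pr D) ω) p = gen N D p * chi ω p := by
  obtain ⟨v, rfl⟩ := cl_surj ω
  obtain ⟨w, hw, x, k2, k3⟩ := TT_eq hx hu hd hn (pr_dvd hD) v
  rw [hw, chi_cl hcn hN w hp, chi_cl hcn hN v hp]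
  exact hcn 5 (Or.inr rfl) N hN D hD x v.1 w.1 v.bl k2 k3 p hp

include h0 hc hcn hN in
theorem chi_Rh (ω : Om (pr N)) {p : ℕ} (hp : p ∈ N) :
    chi (Rh ω) p = jacobiSym 5 p * chi ω p := by
  obtain ⟨v, rfl⟩ := cl_surj ω
  obtain ⟨hp1, hp2, hp3, hp5⟩ := hN p hp
  rw [Rh_cl, chi_cl hcn hN _ hp, chi_cl hcn hN _ hp]
  have h4 := hc 5 (Or.inr rfl) p hp1 hp2 hp3 hp5 (ph 5 p) (ph_spec h0 (Or.inr rfl) hp1 hp2 hp5)
    jj v.1 (rv v.1) (by
      rw [nr_jj]
      intro h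
      have h6 : p ∣ 5 := by exact_mod_cast h
      exact hp5 ((Nat.prime_dvd_prime_iff_eq hp1 Nat.prime_five).1 h6))
    (by
      rw [v.bl]
      exact_mod_cast (Finset.dvd_prod_of_mem (fun p => p) hp : p ∣ pr N))
    (not_dvd (fun p hp => (hN p hp).1) v.bl hp) (by rw [jj_mul, cj5_pv])
  rw [nr_jj] at h4
  exact h4

include h0 hcn hN in
theorem chi_Nu (ω : Om (pr N)) {p : ℕ} (hp : p ∈ N) :
    chi (Nu ω) p = jacobiSym (-1) p * chi ω p := by
  obtain ⟨v, rfl⟩ := cl_surj ω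
  obtain ⟨hp1, hp2, hp3, hp5⟩ := hN p hp
  have : NeZero p := ⟨hp1.ne_zero⟩
  have : Fact p.Prime := ⟨hp1⟩
  rw [Nu_cl, chi_cl hcn hN _ hp, chi_cl hcn hN _ hp]
  have h4 := (ph_spec h0 (Or.inr rfl : (5 : ℕ) = 3 ∨ (5 : ℕ) = 5) hp1 hp2 hp5).smul (-1) (rd p v.1)
    (neg_ne_zero.2 one_ne_zero)
  have h5 : ((-1 : ZMod p) • rd p v.1 : Fin 3 → ZMod p) = rd p (ngn v).1 := by
    funext i
    change (-1 : ZMod p) * ((v.1 i : ℤ) : ZMod p) = ((-v.1 i : ℤ) : ZMod p)
    push_cast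
    ring
  have h6 : lz p (-1) = jacobiSym (-1) p := by
    rw [← lz_int p (-1)]
    push_cast
    rfl
  rw [h5, h6] at h4
  exact h4

include h0 hcn hN in
theorem chi_pm (ω : Om (pr N)) {p : ℕ} (hp : p ∈ N) : chi ω p = 1 ∨ chi ω p = -1 := by
  obtain ⟨v, rfl⟩ := cl_surj ω
  obtain ⟨hp1, hp2, hp3, hp5⟩ := hN p hp
  rw [chi_cl hcn hN _ hp]
  have h1 := rd_ne (fun p hp => (hN p hp).1) v.bl hp
  exact (ph_spec h0 (Or.inr rfl : (5 : ℕ) = 3 ∨ (5 : ℕ) = 5) hp1 hp2 hp5).pm _ h1.2 h1.1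

end

end Pool.Agent.XV.T3.Cl

namespace Pool.Agent.XV

open Finset QA T3.Cl
open Pool.Agent.Z700 (V3 pr)
open Pool.Agent.NH1 (lz rd)

theorem t_OPS (h0 : S_PHI) (he : S_EQU) (hx : S_EX) (hu : S_UN) (hd : S_DV) (hc : S_CH)
    (hn : S_CHN) (h5 : S_H5) : S_OPS := by
  classical
  intro N hN hk T0 hT0
  have hprime : ∀ p ∈ N, p.Prime := fun p hp => (hN p hp).1
  have hH := hn_of hN hk
  refine ⟨T3.Cl.Om (pr N), Fintype.ofFinite _, Classical.decEq _, fun D => TT (pr N) (pr D), Rh, Nu,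
    chi, ?_, ?_, ?_, ?_, ?_, ?_, ?_, ?_, ?_⟩
  · intro ω
    dsimp only
    rw [pr_empty]
    exact TT_one hx hu hd hH ω
  · intro D hD D' hD' ω
    dsimp only
    have e1 : pr D = pr (D \ D') * pr (D ∩ D') := by
      rw [← pr_union (Finset.disjoint_sdiff_inter D D'), Finset.sdiff_union_inter]
    have e2 : pr D' = pr (D ∩ D') * pr (D' \ D) := by
      rw [mul_comm, Finset.inter_comm, ← pr_union (Finset.disjoint_sdiff_inter D' D),
        Finset.sdiff_union_inter]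
    have e3 : pr (symmDiff D D') = pr (D \ D') * pr (D' \ D) := by
      rw [← pr_union disjoint_sdiff_sdiff]
      rfl
    have d1 : pr D ∣ pr N := pr_dvd hD
    have d2 : pr D' ∣ pr N := pr_dvd hD'
    have d3 : pr (symmDiff D D') ∣ pr N := by
      apply pr_dvd
      intro p hp
      rw [Finset.mem_symmDiff] at hp
      rcases hp with h | h
      · exact hD h.1
      · exact hD' h.1
    have d4 : pr (D ∩ D') ∣ pr N := pr_dvd (Finset.inter_subset_left.trans hD)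
    rw [e3, e1, e2, ← TT_mul hx hu hd hH (d := pr (D \ D')) (d' := pr (D ∩ D')) (by
      rw [← e1]; exact d1), ← TT_mul hx hu hd hH (d := pr (D ∩ D')) (d' := pr (D' \ D)) (by
      rw [← e2]; exact d2), TT_TT hx hu hd hH d4, TT_mul hx hu hd hH (by rw [← e3]; exact d3)]
  · exact fun ω => ⟨Rh_Rh ω, Nu_Nu ω, Rh_Nu ω⟩
  · exact fun D hD ω => ⟨TT_Rh hx hu hd hH (pr_dvd hD) ω, TT_Nu hx hu hd hH (pr_dvd hD) ω⟩
  · exact fun D hD p hp ω => chi_TT hn hN hx hu hd hH hD ω hp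
  · exact fun p hp ω => ⟨chi_Rh h0 hc hn hN ω hp, chi_Nu h0 hn hN ω hp, chi_pm h0 hn hN ω hp⟩
  · intro γ hγ
    have e1 := he 5 (Or.inr rfl) N hN (fun _ => hk) (fun h => absurd h (by norm_num)) γ hγ
    have e2 : Nat.card {v : V3 // v ∈ vec 5 (pr N : ℤ) ∧ ∀ p ∈ N, ph 5 p (rd p v) = γ p} =
        3 * Nat.card {ω : T3.Cl.Om (pr N) // ∀ p ∈ N, chi ω p = γ p} := by
      rw [← card_om' hu hd hH (fun ω => ∀ p ∈ N, chi ω p = γ p)
        (fun v => ∀ p ∈ N, ph 5 p (rd p v) = γ p)]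
      · exact Nat.subtype_card _ fun x => by simp only [Finset.mem_filter]
      · intro v
        refine forall_congr' fun p => forall_congr' fun hp => ?_
        rw [chi_cl hn hN v hp]
    rw [e2] at e1
    have e4 : (2 : ℤ) ^ N.card ≠ 0 := by positivity
    apply mul_left_cancel₀ e4
    rw [← hT0, ← e1]
    push_cast
    ring
  · intro D hD hne ω hfix
    obtain ⟨v, rfl⟩ := cl_surj ω
    dsimp only at hfix
    rw [TT_spec hx hu hd hH (pr_dvd hD)] at hfix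
    exact hne (no_fix hprime hH hD v.bl hfix)
  · intro D hD hgen
    have e1 := h5 N hN hk D hD hgen
    have hd0 : pr D ≠ 0 := hH.dvd_ne (pr_dvd hD)
    rw [cp_eq (pr N) (m := 20 * (pr D : ℤ)) (by positivity)
      (fun v => ∃ Y ∈ vec 5 (20 * (pr D : ℤ)), bl 5 v Y = 0) (fun v _ => Iff.rfl)
      (fun v hv y hy y' hy' k k' =>
        uniq_rv hu hd hH ((T3.vec_mem (Or.inr rfl)).1 hv) (pr_dvd hD) hy hy' k k')] at e1
    rw [card_om' hu hd hH (fun ω => Nu (Rh (TT (pr N) (pr D) ω)) = ω)] at e1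
    · dsimp only
      omega
    · intro v
      rw [← rel_rv_iff hH.ne v.bl]
      have e2 : rel (pr D) v.1 (rv (-v.1)) ↔ TT (pr N) (pr D) (cl v) = cl (rvn (ngn v)) :=
        (TT_spec hx hu hd hH (pr_dvd hD) v (rvn (ngn v))).symm
      rw [e2, ← Rh_cl, ← Nu_cl]
      constructor
      · intro h
        rw [← h, Nu_Nu, Rh_Rh, h]
      · intro h
        rw [h, Rh_Rh, Nu_Nu]

end Pool.Agent.XV
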