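import Pool.Agent.XV.T3.Defs
import Pool.Agent.NH1.RPar

/-!
# Project XV, T3: the parity of the class number and the Rédei kernel (helper68)
-/

set_option autoImplicit false

namespace Pool.Agent.XV

namespace Par68

open Finset
open Pool.Agent.Z700 (V3 pr)
open Pool.Agent.NH1.RPar (jac_pm jac_prod_left jac_prod_right sg sg_eq pow_pm even_of_free
  odd_of_one pr_mul)

/-- the entries of the Rédei matrix -/
def cc (N : Finset ℕ) (p t : ℕ) : ℤ :=
  if t = p then ∏ s ∈ N.erase p, jacobiSym (s : ℤ) p else jacobiSym (t : ℤ) p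

theorem cc_sq {N : Finset ℕ} (hN : Pq N) {p t : ℕ} (hp : p ∈ N) (ht : t ∈ N) :
    cc N p t * cc N p t = 1 := by
  have hpm : ∀ s ∈ N, s ≠ p → jacobiSym (s : ℤ) p * jacobiSym (s : ℤ) p = 1 := by
    intro s hs hsp
    rcases jac_pm (hN p hp).1 (hN s hs).1 hsp with h | h <;> rw [h] <;> norm_num
  unfold cc
  split_ifs with h
  · rw [← prod_mul_distrib]
    exact prod_eq_one fun s hs => hpm s (mem_of_mem_erase hs) (ne_of_mem_erase hs)
  · exact hpm t ht h

theorem gen_eq {N D : Finset ℕ} (hN : Pq N) (hD : D ⊆ N) {p : ℕ} (hp : p ∈ N) :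
    gen N D p = ∏ t ∈ D, cc N p t := by
  unfold gen
  split_ifs with h
  · rw [jac_prod_left, ← mul_prod_erase D (cc N p) h]
    have e1 : cc N p p = (∏ s ∈ N \ D, jacobiSym (s : ℤ) p) * ∏ s ∈ D.erase p, jacobiSym (s : ℤ) p := by
      unfold cc
      rw [if_pos rfl, ← prod_union]
      · congr 1
        ext x
        simp only [mem_erase, mem_union, mem_sdiff]
        constructor
        · rintro ⟨h1, h2⟩
          by_cases h3 : x ∈ D
          · exact Or.inr ⟨h1, h3⟩
          · exact Or.inl ⟨h2, h3⟩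
        · rintro (⟨h1, h2⟩ | ⟨h1, h2⟩)
          · exact ⟨fun h3 => h2 (h3 ▸ h), h1⟩
          · exact ⟨h1, hD h2⟩
      · rw [disjoint_left]
        intro x hx hx2
        exact (mem_sdiff.1 hx).2 (mem_of_mem_erase hx2)
    have e2 : ∏ t ∈ D.erase p, cc N p t = ∏ s ∈ D.erase p, jacobiSym (s : ℤ) p := by
      refine prod_congr rfl fun t ht => ?_
      unfold cc
      rw [if_neg (ne_of_mem_erase ht)]
    rw [e1, e2, mul_assoc, ← prod_mul_distrib]
    have : ∏ s ∈ D.erase p, jacobiSym (s : ℤ) p * jacobiSym (s : ℤ) p = 1 := by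
      refine prod_eq_one fun s hs => ?_
      rcases jac_pm (hN p hp).1 (hN s (hD (mem_of_mem_erase hs))).1 (ne_of_mem_erase hs) with h | h <;>
        rw [h] <;> norm_num
    rw [this, mul_one]
  · rw [jac_prod_left]
    refine prod_congr rfl fun t ht => ?_
    unfold cc
    rw [if_neg fun h1 : t = p => h (h1 ▸ ht)]

theorem gen_mul {N D D' : Finset ℕ} (hN : Pq N) (hD : D ⊆ N) (hD' : D' ⊆ N) {p : ℕ} (hp : p ∈ N) :
    gen N (symmDiff D D') p = gen N D p * gen N D' p := by
  have hs : symmDiff D D' ⊆ N := by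
    intro x hx
    rcases mem_symmDiff.1 hx with h | h
    · exact hD h.1
    · exact hD' h.1
  rw [gen_eq hN hD hp, gen_eq hN hD' hp, gen_eq hN hs hp]
  have e1 : symmDiff D D' = (D \ D') ∪ (D' \ D) := rfl
  have d1 : Disjoint (D \ D') (D' \ D) := by
    rw [disjoint_left]
    intro x hx hx2
    exact (mem_sdiff.1 hx2).2 (mem_sdiff.1 hx).1
  rw [e1, prod_union d1, ← prod_inter_mul_prod_sdiff D D', ← prod_inter_mul_prod_sdiff D' D,
    inter_comm D' D]
  have e2 : (∏ t ∈ D ∩ D', cc N p t) * ∏ t ∈ D ∩ D', cc N p t = 1 := by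
    rw [← prod_mul_distrib]
    exact prod_eq_one fun t ht => cc_sq hN hp (hD (mem_inter.1 ht).1)
  linear_combination (-(∏ t ∈ D \ D', cc N p t) * ∏ t ∈ D' \ D, cc N p t) * e2

theorem gen_pm {N D : Finset ℕ} (hN : Pq N) (hD : D ⊆ N) {p : ℕ} (hp : p ∈ N) :
    gen N D p = 1 ∨ gen N D p = -1 := by
  have h1 : gen N D p * gen N D p = 1 := by
    rw [gen_eq hN hD hp, ← prod_mul_distrib]
    exact prod_eq_one fun t ht => cc_sq hN hp (hD ht)
  exact mul_self_eq_one_iff.1 h1

theorem surj {N : Finset ℕ} (hN : Pq N) (κ : ℕ → ℤ) (hκ : ∀ p ∈ N, κ p = 1 ∨ κ p = -1)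
    (hker : ∀ D ⊆ N, ∀ e : ℕ, e < 2 → (∀ p ∈ N, gen N D p * κ p ^ e = 1) →
      e = 0 ∧ (D = ∅ ∨ D = N)) (γ : ℕ → ℤ) (hγ : ∀ p ∈ N, γ p = 1 ∨ γ p = -1) :
    ∃ D ⊆ N, ∃ e : ℕ, e < 2 ∧ ∀ p ∈ N, gen N D p * κ p ^ e = γ p := by
  classical
  have hpm : ∀ D ⊆ N, ∀ e : ℕ, ∀ p ∈ N, gen N D p * κ p ^ e = 1 ∨ gen N D p * κ p ^ e = -1 := by
    intro D hD e p hp
    rcases gen_pm hN hD hp with a | a <;> rcases pow_pm (hκ p hp) e with b | b <;>
      rw [a, b] <;> norm_num
  set A : Finset (Finset ℕ × ℕ) := N.powerset ×ˢ range 2 with hA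
  set f : Finset ℕ × ℕ → Finset ℕ := fun x => sg N fun p => gen N x.1 p * κ p ^ x.2 with hf
  have him : A.image f ⊆ N.powerset := by
    intro M hM
    obtain ⟨x, -, rfl⟩ := mem_image.1 hM
    exact mem_powerset.2 (filter_subset _ _)
  have hfib : ∀ a ∈ A.image f, (A.filter fun x => f x = a).card ≤ 2 := by
    intro a _
    rcases (A.filter fun x => f x = a).eq_empty_or_nonempty with h | ⟨x0, hx0⟩
    · rw [h]; simp
    · have hx0' := mem_filter.1 hx0
      have hm0 := mem_product.1 hx0'.1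
      have hD0 : x0.1 ⊆ N := mem_powerset.1 hm0.1
      have he0 : x0.2 < 2 := mem_range.1 hm0.2
      have hsub : (A.filter fun x => f x = a) ⊆ {(x0.1, x0.2), (N \ x0.1, x0.2)} := by
        intro x hx
        have hx' := mem_filter.1 hx
        have hm := mem_product.1 hx'.1
        have hD : x.1 ⊆ N := mem_powerset.1 hm.1
        have he : x.2 < 2 := mem_range.1 hm.2
        have heq : ∀ p ∈ N, gen N x.1 p * κ p ^ x.2 = gen N x0.1 p * κ p ^ x0.2 :=
          sg_eq (hpm x.1 hD x.2) (hpm x0.1 hD0 x0.2) (hx'.2.trans hx0'.2.symm)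
        have hs : symmDiff x.1 x0.1 ⊆ N := by
          intro y hy
          rcases mem_symmDiff.1 hy with h | h
          · exact hD h.1
          · exact hD0 h.1
        have hk := hker (symmDiff x.1 x0.1) hs ((x.2 + x0.2) % 2) (Nat.mod_lt _ (by norm_num)) (by
          intro p hp
          have h1 := heq p hp
          have h2 := gen_mul hN hD hD0 hp
          rw [h2]
          have h3 : κ p ^ ((x.2 + x0.2) % 2) = κ p ^ x.2 * κ p ^ x0.2 := by
            rw [← pow_add]
            rcases hκ p hp with h | h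
            · rw [h, one_pow, one_pow]
            · rw [h]
              exact (neg_one_pow_eq_pow_mod_two (x.2 + x0.2)).symm
          rw [h3]
          have h4 : (gen N x0.1 p * κ p ^ x0.2) * (gen N x0.1 p * κ p ^ x0.2) = 1 := by
            rcases hpm x0.1 hD0 x0.2 p hp with h | h <;> rw [h] <;> norm_num
          linear_combination (gen N x0.1 p * κ p ^ x0.2) * h1 + h4)
        have he2 : x.2 = x0.2 := by omega
        rw [mem_insert, mem_singleton]
        rcases hk.2 with h | h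
        · left
          have : x.1 = x0.1 := symmDiff_eq_bot.1 h
          exact Prod.ext this he2
        · right
          have : x.1 = N \ x0.1 := by
            ext y
            rw [mem_sdiff]
            constructor
            · intro hy
              have hyN : y ∈ symmDiff x.1 x0.1 := by rw [h]; exact hD hy
              rcases mem_symmDiff.1 hyN with h5 | h5
              · exact ⟨hD hy, h5.2⟩
              · exact absurd hy h5.2
            · rintro ⟨hy, hy2⟩
              have hyN : y ∈ symmDiff x.1 x0.1 := by rw [h]; exact hy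
              rcases mem_symmDiff.1 hyN with h5 | h5
              · exact h5.1
              · exact absurd h5.1 hy2
          exact Prod.ext this he2
      exact (card_le_card hsub).trans card_le_two
  have hcard := card_le_mul_card_image A 2 hfib
  have hcA : A.card = 2 ^ N.card * 2 := by
    rw [hA, card_product, card_powerset, card_range]
  have hle : N.powerset.card ≤ (A.image f).card := by
    rw [card_powerset]
    omega
  have heq := eq_of_subset_of_card_le him hle
  have hmem : sg N γ ∈ A.image f := by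
    rw [heq]
    exact mem_powerset.2 (filter_subset _ _)
  obtain ⟨x, hx, hfx⟩ := mem_image.1 hmem
  have hm := mem_product.1 hx
  refine ⟨x.1, mem_powerset.1 hm.1, x.2, mem_range.1 hm.2, ?_⟩
  exact sg_eq (hpm x.1 (mem_powerset.1 hm.1) x.2) hγ hfx

theorem pr_ne {D : Finset ℕ} (hD : Pq D) : ∀ p ∈ D, p ≠ 0 := fun p hp => (hD p hp).1.ne_zero

theorem pr_cop {D E : Finset ℕ} (hD : Pq D) (hE : Pq E) (h : Disjoint D E) :
    Nat.Coprime (pr D) (pr E) := by
  unfold Pool.Agent.Z700.pr
  refine Nat.Coprime.prod_left fun a ha => Nat.Coprime.prod_right fun b hb => ?_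
  refine (Nat.coprime_primes (hD a ha).1 (hE b hb).1).2 fun hab => ?_
  exact (disjoint_left.1 h ha) (hab ▸ hb)

theorem prod_gen {N D : Finset ℕ} (hN : Pq N) (h3 : pr N % 4 = 3) (hD : D ⊆ N) :
    ∏ p ∈ N, gen N D p = 1 := by
  rw [← prod_sdiff hD]
  have e1 : ∏ p ∈ D, gen N D p = jacobiSym ((pr (N \ D) : ℕ) : ℤ) (pr D) := by
    rw [jac_prod_right (pr_ne fun p hp => hN p (hD hp))]
    refine prod_congr rfl fun p hp => ?_
    unfold gen
    rw [if_pos hp]
  have e2 : ∏ p ∈ N \ D, gen N D p = jacobiSym ((pr D : ℕ) : ℤ) (pr (N \ D)) := by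
    rw [jac_prod_right (pr_ne fun p hp => hN p (mem_sdiff.1 hp).1)]
    refine prod_congr rfl fun p hp => ?_
    unfold gen
    rw [if_neg (mem_sdiff.1 hp).2]
  rw [e1, e2]
  have hm := pr_mul hD
  have hcop : Nat.Coprime (pr (N \ D)) (pr D) :=
    pr_cop (fun p hp => hN p (mem_sdiff.1 hp).1) (fun p hp => hN p (hD hp)) sdiff_disjoint
  generalize pr (N \ D) = a at *
  generalize pr D = b at *
  have hab : (a * b) % 4 = 3 := by rw [hm]; omega
  have ha : a % 4 < 4 := Nat.mod_lt _ (by norm_num)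
  have hb : b % 4 < 4 := Nat.mod_lt _ (by norm_num)
  rw [Nat.mul_mod] at hab
  have hc : (a % 4 = 1 ∧ b % 4 = 3) ∨ (a % 4 = 3 ∧ b % 4 = 1) := by
    generalize a % 4 = x at *
    generalize b % 4 = y at *
    interval_cases x <;> interval_cases y <;> simp at hab ⊢
  rcases hc with ⟨h1, h2⟩ | ⟨h1, h2⟩
  · have h4 := jacobiSym.quadratic_reciprocity_one_mod_four h1 (Nat.odd_iff.2 (by omega) : Odd b)
    rw [h4, ← sq]
    exact jacobiSym.sq_one (by rw [Int.gcd_natCast_natCast]; exact hcop.symm)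
  · have h4 := jacobiSym.quadratic_reciprocity_one_mod_four h2 (Nat.odd_iff.2 (by omega) : Odd a)
    rw [h4, ← sq]
    exact jacobiSym.sq_one (by rw [Int.gcd_natCast_natCast]; exact hcop)

theorem jac_neg_one {N : Finset ℕ} (hN : Pq N) (h3 : pr N % 4 = 3) :
    ∏ p ∈ N, jacobiSym (-1) p = -1 := by
  rw [← jac_prod_right (pr_ne hN), jacobiSym.at_neg_one (Nat.odd_iff.2 (by omega)),
    ZMod.χ₄_nat_three_mod_four (by omega)]

theorem jac_mul (p : ℕ) : jacobiSym (-5) p = jacobiSym (-1) p * jacobiSym 5 p := by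
  rw [← jacobiSym.mul_left]
  norm_num

theorem jac_five {n : ℕ} (h : n % 5 = 2 ∨ n % 5 = 3) (ho : Odd n) : jacobiSym 5 n = -1 := by
  have h1 := jacobiSym.quadratic_reciprocity_one_mod_four (a := 5) (b := n) (by norm_num) ho
  have h2 : jacobiSym ((n : ℕ) : ℤ) 5 = -1 := by
    rw [jacobiSym.mod_left]
    have h3 : ((n : ℕ) : ℤ) % ((5 : ℕ) : ℤ) = ((n % 5 : ℕ) : ℤ) := by push_cast; rfl
    rw [h3]
    rcases h with h | h <;> rw [h] <;> norm_num
  rw [← h2, ← h1]
  rfl

theorem jac_neg_five {N : Finset ℕ} (hN : Pq N) (h : Kb (pr N)) :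
    ∏ p ∈ N, jacobiSym (-5) p = 1 := by
  have h3 : pr N % 4 = 3 := by unfold Kb at h; omega
  rw [← jac_prod_right (pr_ne hN), jac_mul, jac_five (by unfold Kb at h; omega)
    (Nat.odd_iff.2 (by omega)), jacobiSym.at_neg_one (Nat.odd_iff.2 (by omega)),
    ZMod.χ₄_nat_three_mod_four (by omega)]
  norm_num

theorem jac_pm' {N : Finset ℕ} (hN : Pq N) {p : ℕ} (hp : p ∈ N) :
    (jacobiSym 5 p = 1 ∨ jacobiSym 5 p = -1) ∧ (jacobiSym (-1) p = 1 ∨ jacobiSym (-1) p = -1) ∧
    (jacobiSym (-5) p = 1 ∨ jacobiSym (-5) p = -1) := by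
  have h1 : jacobiSym 5 p = 1 ∨ jacobiSym 5 p = -1 := by
    have := jac_pm (hN p hp).1 Nat.prime_five (Ne.symm (hN p hp).2.2.2)
    exact_mod_cast this
  have h2 : jacobiSym (-1) p = 1 ∨ jacobiSym (-1) p = -1 := by
    apply jacobiSym.eq_one_or_neg_one
    simp
  refine ⟨h1, h2, ?_⟩
  rw [jac_mul]
  rcases h1 with h1 | h1 <;> rcases h2 with h2 | h2 <;> rw [h1, h2] <;> norm_num

/-- the parity from the operators -/
theorem par {N : Finset ℕ} (hN : Pq N) (hK : Kb (pr N)) {T : ℤ} (h : Ops5 N T) :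
    Odd T ↔ Kr N := by
  obtain ⟨Ω, i1, i2, Tt, ρ, ν, χ, hT0, hTT, hrn, hcom, hχT, hχ, hgen, hfree, hfixB⟩ := h
  classical
  have h4 : pr N % 4 = 3 := by unfold Kb at hK; omega
  have hG1 : 3 * (Nat.card {ω : Ω // ∀ p ∈ N, χ ω p = 1} : ℤ) = T :=
    hgen (fun _ => 1) fun p hp => Or.inl rfl
  have hpar : Odd T ↔ Odd (Fintype.card {ω : Ω // ∀ p ∈ N, χ ω p = 1}) := by
    rw [← hG1, Nat.card_eq_fintype_card, Int.odd_mul]
    constructor
    · rintro ⟨-, h2⟩
      exact_mod_cast h2
    · intro h2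
      exact ⟨by decide, by exact_mod_cast h2⟩
  have hTinv : ∀ D ⊆ N, ∀ ω, Tt D (Tt D ω) = ω := by
    intro D hD ω
    rw [hTT D hD D hD ω, symmDiff_self]
    exact hT0 ω
  rw [hpar]
  constructor
  · intro hodd D hD hg
    by_contra hne
    have hfr := hfree D hD hne
    have hchi : ∀ ω, ∀ p ∈ N, χ (Tt D ω) p = χ ω p := by
      intro ω p hp
      rw [hχT D hD p hp, hg p hp, one_mul]
    have hev := even_of_free
      (fun x : {ω : Ω // ∀ p ∈ N, χ ω p = 1} =>
        (⟨Tt D x.1, fun p hp => (hchi x.1 p hp).trans (x.2 p hp)⟩ :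
          {ω : Ω // ∀ p ∈ N, χ ω p = 1}))
      (fun x => Subtype.ext (hTinv D hD x.1)) (fun x hx => hfr x.1 (congrArg Subtype.val hx))
    exact (Nat.not_odd_iff_even.2 hev) hodd
  · intro hk
    -- the transitivity
    have hsurj : ∀ γ : ℕ → ℤ, (∀ p ∈ N, γ p = 1 ∨ γ p = -1) → ∃ D ⊆ N, ∃ e : ℕ, e < 2 ∧
        ∀ p ∈ N, gen N D p * jacobiSym (-1) p ^ e = γ p := by
      refine surj hN _ (fun p hp => (jac_pm' hN hp).2.1) ?_
      intro D hD e he hg
      interval_cases e
      · refine ⟨rfl, hk D hD ?_⟩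
        intro p hp
        have := hg p hp
        simpa using this
      · exfalso
        have h1 : ∏ p ∈ N, gen N D p * jacobiSym (-1) p ^ 1 = 1 := prod_eq_one hg
        simp only [pow_one] at h1
        rw [prod_mul_distrib, prod_gen hN h4 hD, jac_neg_one hN h4] at h1
        norm_num at h1
    -- the involution
    have hD1 : ∃ D1 ⊆ N, ∀ p ∈ N, gen N D1 p = jacobiSym (-5) p := by
      obtain ⟨D, hD, e, he, hg⟩ := hsurj (fun p => jacobiSym (-5) p)
        fun p hp => (jac_pm' hN hp).2.2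
      interval_cases e
      · exact ⟨D, hD, fun p hp => by simpa using hg p hp⟩
      · exfalso
        have h1 : ∏ p ∈ N, gen N D p * jacobiSym (-1) p ^ 1 = ∏ p ∈ N, jacobiSym (-5) p :=
          prod_congr rfl hg
        simp only [pow_one] at h1
        rw [prod_mul_distrib, prod_gen hN h4 hD, jac_neg_one hN h4, jac_neg_five hN hK] at h1
        norm_num at h1
    obtain ⟨D1, hD1, hg1⟩ := hD1
    have hTcom : ∀ D ⊆ N, ∀ D' ⊆ N, ∀ ω, Tt D (Tt D' ω) = Tt D' (Tt D ω) := by
      intro D hD D' hD' ω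
      rw [hTT D hD D' hD', hTT D' hD' D hD, symmDiff_comm]
    obtain ⟨ι, hιι, hιχ, hιT, hιν, hιc⟩ : ∃ ι : Ω → Ω, (∀ ω, ι (ι ω) = ω) ∧
        (∀ ω, ∀ p ∈ N, χ (ι ω) p = χ ω p) ∧ (∀ D ⊆ N, ∀ ω, ι (Tt D ω) = Tt D (ι ω)) ∧
        (∀ ω, ι (ν ω) = ν (ι ω)) ∧ Nat.card {ω : Ω // ι ω = ω} = 2 ^ N.card := by
      refine ⟨fun ω => ν (ρ (Tt D1 ω)), ?_, ?_, ?_, ?_, hfixB D1 hD1 hg1⟩
      · intro ω
        show ν (ρ (Tt D1 (ν (ρ (Tt D1 ω))))) = ω
        rw [(hcom D1 hD1 _).2, (hcom D1 hD1 _).1, (hrn _).2.2, (hrn _).2.1, (hrn _).1]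
        exact hTinv D1 hD1 ω
      · intro ω p hp
        show χ (ν (ρ (Tt D1 ω))) p = χ ω p
        rw [(hχ p hp _).2.1, (hχ p hp _).1, hχT D1 hD1 p hp, hg1 p hp, jac_mul]
        rcases (jac_pm' hN hp).2.1 with h2 | h2 <;>
          rcases (jac_pm' hN hp).1 with h3 | h3 <;> rw [h2, h3] <;> ring
      · intro D' hD' ω
        show ν (ρ (Tt D1 (Tt D' ω))) = Tt D' (ν (ρ (Tt D1 ω)))
        rw [hTcom D1 hD1 D' hD', (hcom D' hD' _).2, (hcom D' hD' _).1]
      · intro ω
        show ν (ρ (Tt D1 (ν ω))) = ν (ν (ρ (Tt D1 ω)))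
        rw [(hcom D1 hD1 ω).2, (hrn (Tt D1 ω)).2.2]
    -- the fixed points
    set F : Finset Ω := univ.filter fun ω => ι ω = ω with hF
    have hFc : F.card = 2 ^ N.card := by
      rw [← hιc, Nat.card_eq_fintype_card, Fintype.card_subtype]
    have hpm : ∀ ω : Ω, ∀ p ∈ N, χ ω p = 1 ∨ χ ω p = -1 := fun ω p hp => (hχ p hp ω).2.2
    have himg : F.image (fun ω => sg N (χ ω)) = N.powerset := by
      apply subset_antisymm
      · intro M hM
        obtain ⟨ω, -, rfl⟩ := mem_image.1 hM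
        exact mem_powerset.2 (filter_subset _ _)
      · intro M hM
        have hne : F.Nonempty := by
          rw [← card_pos, hFc]
          positivity
        obtain ⟨ω0, hω0⟩ := hne
        obtain ⟨D, hD, e, he, hg⟩ := hsurj (fun p => (if p ∈ M then -1 else 1) * χ ω0 p) (by
          intro p hp
          rcases hpm ω0 p hp with h2 | h2 <;> simp only [h2] <;> split_ifs <;> norm_num)
        refine mem_image.2 ⟨Tt D (ν^[e] ω0), ?_, ?_⟩
        · rw [hF, mem_filter]
          refine ⟨mem_univ _, ?_⟩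
          have h0 : ι ω0 = ω0 := (mem_filter.1 hω0).2
          rw [hιT D hD]
          interval_cases e
          · show Tt D (ι ω0) = Tt D ω0
            rw [h0]
          · show Tt D (ι (ν ω0)) = Tt D (ν ω0)
            rw [hιν, h0]
        · have hval : ∀ p ∈ N, χ (Tt D (ν^[e] ω0)) p = if p ∈ M then -1 else 1 := by
            intro p hp
            have h1 := hg p hp
            rw [hχT D hD p hp]
            have h2 : χ (ν^[e] ω0) p = jacobiSym (-1) p ^ e * χ ω0 p := by
              interval_cases e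
              · simp
              · show χ (ν ω0) p = jacobiSym (-1) p ^ 1 * χ ω0 p
                rw [(hχ p hp _).2.1, pow_one]
            rw [h2, ← mul_assoc, h1]
            rcases hpm ω0 p hp with h2 | h2 <;> rw [h2] <;> ring
          ext p
          unfold sg
          rw [mem_filter]
          constructor
          · rintro ⟨hp, hp2⟩
            rw [hval p hp] at hp2
            by_contra h
            rw [if_neg h] at hp2
            norm_num at hp2
          · intro hp
            have hpN := (mem_powerset.1 hM) hp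
            refine ⟨hpN, ?_⟩
            rw [hval p hpN, if_pos hp]
    have hinj : Set.InjOn (fun ω => sg N (χ ω)) F := by
      apply injOn_of_card_image_eq
      rw [himg, card_powerset, hFc]
    have hemp : (∅ : Finset ℕ) ∈ F.image (fun ω => sg N (χ ω)) := by
      rw [himg]
      exact empty_mem_powerset _
    obtain ⟨ω1, hω1, hs1⟩ := mem_image.1 hemp
    have hone : ∀ ω : Ω, sg N (χ ω) = ∅ ↔ ∀ p ∈ N, χ ω p = 1 := by
      intro ω
      unfold sg
      rw [filter_eq_empty_iff]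
      constructor
      · intro h p hp
        rcases hpm ω p hp with h2 | h2
        · exact h2
        · exact absurd h2 (h hp)
      · intro h p hp
        rw [h p hp]
        norm_num
    refine odd_of_one
      (fun x : {ω : Ω // ∀ p ∈ N, χ ω p = 1} =>
        (⟨ι x.1, fun p hp => (hιχ x.1 p hp).trans (x.2 p hp)⟩ :
          {ω : Ω // ∀ p ∈ N, χ ω p = 1}))
      (fun x => Subtype.ext (hιι x.1)) ⟨ω1, (hone ω1).1 hs1⟩ ?_
    intro x
    constructor
    · intro hx
      have hx1 : ι x.1 = x.1 := congrArg Subtype.val hx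
      apply Subtype.ext
      apply hinj
      · exact mem_coe.2 (mem_filter.2 ⟨mem_univ _, hx1⟩)
      · exact mem_coe.2 hω1
      · show sg N (χ x.1) = sg N (χ ω1)
        rw [(hone x.1).2 x.2]
        exact hs1.symm
    · intro hx
      subst hx
      apply Subtype.ext
      exact (mem_filter.1 hω1).2

end Par68

open Pool.Agent.Z700 (V3 pr) in
open Pool.Agent.NH1 (rd) in
/-- **V5** -/
theorem t_V5 (h : S_OPS) (h4 : S_EQU) : S_V5 := by
  intro N hN hK
  have h1 := h4 5 (Or.inr rfl) N hN (fun _ => hK) (fun h3 => absurd h3 (by norm_num))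
    (fun _ => 1) (fun p _ => Or.inl rfl)
  refine ⟨(Nat.card {v : V3 // v ∈ vec 5 (pr N : ℤ) ∧ ∀ p ∈ N, ph 5 p (rd p v) = 1} : ℤ), ?_, ?_⟩
  · rw [← h1]
    push_cast
    ring
  · refine Par68.par hN hK (h N hN hK _ ?_)
    rw [← h1]
    push_cast
    ring

end Pool.Agent.XV
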