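import Pool.Agent.XV.T3.All
import Pool.Agent.XV.T3.H5
import Pool.Agent.XV.T3.Par
import Pool.Agent.XV.T3.Ops

/-!
# Project XV, T3: `S_V5` from the pair counts (helper2)
-/

set_option autoImplicit false

namespace Pool.Agent.XV

theorem f_OPS (h : S_PCG) : S_OPS := t_OPS t_PHI f_EQU f_EX f_UN t_DV t_CH f_CHN (t_H5 h)

/-- the number of vectors of the lattice `L 5` and the Rédei kernel -/
theorem f_V5 (h : S_PCG) : S_V5 := t_V5 (f_OPS h) f_EQU

end Pool.Agent.XV
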